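import Pool.Agent.TH188.ARC.A9

/-!
# Sequences of modules which keep the regularity at the other valuations
-/

set_option autoImplicit false
set_option linter.unusedVariables false
set_option linter.unusedSectionVars false

namespace Pool.Agent.TH188.ARC

open IsLocalRing Pool.Agent.TH188.QS Pool.Agent.W418.LU2 Pool.Agent.H918R2.Quad

variable {O F : Type} [CommRing O] [Field F] [Algebra O F]

/-- The model attached to `M` is regular at the centre of `W`. -/
def Rg (W : ValuationSubring F) (M : Submodule O F) : Prop :=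
  ∃ g ∈ M, g ≠ 0 ∧ (∀ m ∈ M, m / g ∈ W) ∧
    IsRegularLocalRing (lo W.toSubring (chart O M g).toSubring)

lemma exists_bound [IsNoetherianRing O] {V : ValuationSubring F}
    (hOV : ∀ o, algebraMap O F o ∈ V) {M : Submodule O F} (hM : M.FG) {j : F} (hj : j ∈ M)
    (hj0 : j ≠ 0) (hMV : ∀ m ∈ M, m / j ∈ V) :
    ∃ (k₀ : ℕ) (s : Finset (chart O M j).toSubring), (∀ b : (chart O M j).toSubring,
        b ∈ Ideal.span (s : Set (chart O M j).toSubring) ↔ V.valuation (b : F) < 1) ∧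
      ∀ k, k₀ ≤ k → ∀ y ∈ s, (y : F) * j ^ k ∈ M ^ k := by
  classical
  have hBV := chart_le_V hOV hMV
  have hnoe : IsNoetherianRing (chart O M j) := chart_noeth hM j
  have hnoeB : IsNoetherianRing (chart O M j).toSubring := hnoe
  let 𝔫 : Ideal (chart O M j).toSubring :=
    { carrier := {b | V.valuation (b : F) < 1}
      zero_mem' := by
        change V.valuation ((0 : (chart O M j).toSubring) : F) < 1
        rw [ZeroMemClass.coe_zero, map_zero]; exact zero_lt_one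
      add_mem' := fun {a b} ha hb => by
        change V.valuation ((a + b : (chart O M j).toSubring) : F) < 1
        exact Valuation.map_add_lt _ ha hb
      smul_mem' := fun c a ha => by
        change V.valuation ((c * a : (chart O M j).toSubring) : F) < 1
        rw [Subring.coe_mul, map_mul]
        exact mul_lt_one_aux ((V.valuation_le_one_iff _).2 (hBV c.2)) ha }
  obtain ⟨s, hs⟩ := (isNoetherianRing_iff_ideal_fg _).1 hnoeB 𝔫
  have hk : ∀ y : (chart O M j).toSubring, ∃ k : ℕ, ∀ l, k ≤ l → (y : F) * j ^ l ∈ M ^ l :=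
    fun y => chart_pow_mem hj hj0 y.2
  choose kk hkk using hk
  refine ⟨s.sup kk, s, fun b => ?_, fun k hk y hy => hkk y k ((Finset.le_sup hy).trans hk)⟩
  rw [hs]
  rfl

theorem step_all [IsNoetherianRing O] [IsDomain O] {V : ValuationSubring F}
    (hOV : ∀ o, algebraMap O F o ∈ V) {ϖ : O} (hϖ0 : algebraMap O F ϖ ≠ 0)
    (hϖ : V.valuation (algebraMap O F ϖ) < 1) {M : Submodule O F} (hM : M.FG) {g : F}
    (hg : g ∈ M) (hg0 : g ≠ 0) (hMV : ∀ m ∈ M, m / g ∈ V)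
    (hmax : ∀ j ∈ M, j ≠ 0 → (∀ m ∈ M, m / j ∈ V) → ∀ b ∈ chart O M j, ¬ V.valuation b < 1 →
      ∃ c ∈ chart O M j, V.valuation (b * c - 1) < 1) :
    ∃ (D : ℕ) (M' : Submodule O F) (g' : F), 1 ≤ D ∧ M'.FG ∧ M' ≤ M ^ D ∧
      (∀ y ∈ M ^ D, ϖ • y ∈ M') ∧ g' ∈ M' ∧ g' ≠ 0 ∧ (∀ m ∈ M', m / g' ∈ V) ∧
      lo V.toSubring (chart O M' g').toSubring =
        qt V.toSubring (lo V.toSubring (chart O M g).toSubring) ∧
      ∀ W : ValuationSubring F, (∀ o, algebraMap O F o ∈ W) → Rg W M → Rg W M' := by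
  classical
  obtain ⟨G, hG⟩ := hM
  have hGM : ∀ j ∈ G, j ∈ M := fun j hj => by rw [← hG]; exact Submodule.subset_span hj
  have hM : M.FG := ⟨G, hG⟩
  have hk : ∀ j : F, ∃ k₀ : ℕ, j ∈ M → j ≠ 0 → (∀ m ∈ M, m / j ∈ V) →
      ∃ s : Finset (chart O M j).toSubring, (∀ b : (chart O M j).toSubring,
        b ∈ Ideal.span (s : Set (chart O M j).toSubring) ↔ V.valuation (b : F) < 1) ∧
      ∀ k, k₀ ≤ k → ∀ y ∈ s, (y : F) * j ^ k ∈ M ^ k := by
    intro j
    by_cases h : j ∈ M ∧ j ≠ 0 ∧ ∀ m ∈ M, m / j ∈ V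
    · obtain ⟨k₀, s, h1, h2⟩ := exists_bound hOV hM h.1 h.2.1 h.2.2
      exact ⟨k₀, fun _ _ _ => ⟨s, h1, h2⟩⟩
    · exact ⟨0, fun h1 h2 h3 => absurd ⟨h1, h2, h3⟩ h⟩
  choose kk hkk using hk
  set k : ℕ := max 1 (max (kk g) (G.sup kk)) with hkdef
  have hk1 : 1 ≤ k := le_max_left _ _
  have hkg : kk g ≤ k := (le_max_left _ _).trans (le_max_right _ _)
  have hkG : ∀ j ∈ G, kk j ≤ k := fun j hj =>
    (Finset.le_sup hj).trans ((le_max_right _ _).trans (le_max_right _ _))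
  obtain ⟨s, hs, hks⟩ := hkk g hg hg0 hMV
  obtain ⟨g', hg', hg'0, hM'V, -, hlo⟩ := step_core hOV hϖ0 hϖ hg hg0 hMV s hs k (hks k hkg)
  have hBV := chart_le_V hOV hMV
  refine ⟨k + 1, cut V hOV (M ^ (k + 1)) (g ^ (k + 1)), g', Nat.succ_le_succ (Nat.zero_le _), ?_,
    fun m hm => hm.1, ?_, hg', hg'0, hM'V, hlo, ?_⟩
  · have h1 : (M ^ (k + 1)).FG := hM.pow _
    have h2 : IsNoetherian O (M ^ (k + 1) : Submodule O F) := isNoetherian_of_fg_of_noetherian _ h1
    have h3 : IsNoetherian O (cut V hOV (M ^ (k + 1)) (g ^ (k + 1))) :=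
      isNoetherian_of_le fun m hm => hm.1
    exact Module.Finite.iff_fg.1 inferInstance
  · intro y hy
    refine ⟨Submodule.smul_mem _ _ hy, ?_⟩
    rw [Algebra.smul_def, mul_div_assoc, map_mul]
    exact mul_lt_one_aux' hϖ ((V.valuation_le_one_iff _).2 (hBV (pow_div_mem hg0 _ y hy)))
  · rintro W hOW ⟨gW, hgW, hgW0, hMgW, hreg⟩
    -- the generator of largest value
    have hne : (G.filter fun j => j ≠ 0).Nonempty := by
      by_contra h
      rw [Finset.not_nonempty_iff_eq_empty] at h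
      apply hg0
      have h1 : g ∈ Submodule.span O (G : Set F) := by rw [hG]; exact hg
      have h2 : Submodule.span O (G : Set F) ≤ ⊥ := by
        rw [Submodule.span_le]
        intro j hj
        by_contra hj0
        have : j ∈ G.filter fun j => j ≠ 0 := Finset.mem_filter.2 ⟨hj, hj0⟩
        rw [h] at this
        exact absurd this (Finset.notMem_empty _)
      exact (Submodule.mem_bot O).1 (h2 h1)
    obtain ⟨j, hjG, hjmax⟩ := Finset.exists_max_image _ (fun j => W.valuation j) hne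
    rw [Finset.mem_filter] at hjG
    have hjM := hGM j hjG.1
    have hj0 := hjG.2
    have hMW : ∀ m ∈ M, m / j ∈ W := by
      intro m hm
      rw [← hG] at hm
      induction hm using Submodule.span_induction with
      | mem m hm =>
        by_cases hm0 : m = 0
        · rw [hm0, zero_div]; exact W.zero_mem
        · rw [← W.valuation_le_one_iff, map_div₀]
          exact div_le_one_of_le₀ (hjmax m (Finset.mem_filter.2 ⟨hm, hm0⟩)) zero_le
      | zero => rw [zero_div]; exact W.zero_mem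
      | add a b _ _ ha hb => rw [add_div]; exact W.add_mem _ _ ha hb
      | smul c a _ ha =>
        rw [Algebra.smul_def, mul_div_assoc]
        exact W.mul_mem _ _ (hOW c) ha
    have hregj : IsRegularLocalRing (lo W.toSubring (chart O M j).toSubring) := by
      rw [lo_chart_eq hOW hjM hj0 hgW hgW0 hMW hMgW]
      exact hreg
    obtain ⟨x, hx, hx0, hxW, hxr⟩ := step_other hOV hϖ0 hϖ hg hg0 hMV hk1 hjM hj0 (fun h => by
      obtain ⟨s, hs, hks⟩ := hkk j hjM hj0 h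
      exact ⟨s, hs, hks k (hkG j hjG.1)⟩) (hmax j hjM hj0) hOW hMW hregj
    exact ⟨x, hx, hx0, hxW, hxr⟩

theorem seq_all [IsNoetherianRing O] [IsDomain O] {V : ValuationSubring F}
    (hOV : ∀ o, algebraMap O F o ∈ V) {ϖ : O} (hϖ0 : algebraMap O F ϖ ≠ 0)
    (hϖ : V.valuation (algebraMap O F ϖ) < 1) {M₀ : Submodule O F} (hM₀ : M₀.FG) {g₀ : F}
    (hg₀ : g₀ ∈ M₀) (hg₀0 : g₀ ≠ 0) (hM₀V : ∀ m ∈ M₀, m / g₀ ∈ V)
    (hmax : ∀ (D : ℕ) (M : Submodule O F), 1 ≤ D → M ≤ M₀ ^ D →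
      (∀ y ∈ M₀ ^ D, ∃ s : O, s ≠ 0 ∧ s • y ∈ M) →
      ∀ j ∈ M, j ≠ 0 → (∀ m ∈ M, m / j ∈ V) → ∀ b ∈ chart O M j, ¬ V.valuation b < 1 →
      ∃ c ∈ chart O M j, V.valuation (b * c - 1) < 1) (n : ℕ) :
    ∃ (D : ℕ) (M : Submodule O F) (g : F), 1 ≤ D ∧ M.FG ∧ M ≤ M₀ ^ D ∧
      (∀ y ∈ M₀ ^ D, ∃ s : O, s ≠ 0 ∧ s • y ∈ M) ∧ g ∈ M ∧ g ≠ 0 ∧ (∀ m ∈ M, m / g ∈ V) ∧
      lo V.toSubring (chart O M g).toSubring = qseq V (chart O M₀ g₀).toSubring n ∧
      ∀ W : ValuationSubring F, (∀ o, algebraMap O F o ∈ W) → Rg W M₀ → Rg W M := by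
  induction n with
  | zero =>
    exact ⟨1, M₀, g₀, le_rfl, hM₀, by rw [pow_one], fun y hy => ⟨1, one_ne_zero, by
      rw [one_smul]; rwa [pow_one] at hy⟩, hg₀, hg₀0, hM₀V, rfl, fun W _ h => h⟩
  | succ n ih =>
    obtain ⟨D, M, g, hD, hM, hle, hcomm, hg, hg0, hMV, hlo, hW⟩ := ih
    obtain ⟨D', M', g', hD', hM', hle', hϖM', hg', hg'0, hM'V, hlo', hW'⟩ :=
      step_all hOV hϖ0 hϖ hM hg hg0 hMV (hmax D M hD hle hcomm)
    refine ⟨D * D', M', g', Nat.mul_pos hD hD', hM', ?_, ?_, hg', hg'0, hM'V, ?_,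
      fun W hOW h => hW' W hOW (hW W hOW h)⟩
    · rw [pow_mul]
      exact hle'.trans (pow_le_pow' hle D')
    · intro y hy
      rw [pow_mul] at hy
      obtain ⟨s, hs, hsy⟩ := exists_smul_mem_pow' hcomm D' y hy
      refine ⟨ϖ * s, mul_ne_zero (fun h => hϖ0 (by rw [h, map_zero])) hs, ?_⟩
      rw [mul_smul]
      exact hϖM' _ hsy
    · rw [hlo', hlo]
      rfl

end Pool.Agent.TH188.ARC
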