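import Pool.Agent.TH188.ARC.A7
import Pool.Agent.TH188.ARC.A10

/-!
# Charts of the modules along a trait
-/

set_option autoImplicit false
set_option linter.unusedVariables false
set_option linter.unusedSectionVars false

namespace Pool.Agent.TH188.ARC

open IsLocalRing Pool.Agent.TH188.QS Pool.Agent.W418.LU2 Pool.Agent.H918R2.Quad

variable {O F L : Type} [CommRing O] [Field F] [Algebra O F] [Field L]

lemma chart_le_A {A : Subring F} (hOA : ∀ o, algebraMap O F o ∈ A) {M : Submodule O F}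
    {g : F} (hMA : ∀ m ∈ M, m / g ∈ A) : (chart O M g).toSubring ≤ A := by
  let V' : Subalgebra O F := { A with algebraMap_mem' := hOA }
  have : chart O M g ≤ V' := Algebra.adjoin_le (by
    rintro _ ⟨m, hm, rfl⟩
    exact hMA m hm)
  exact this

/-- The charts at the centre of the trait are contained in the local ring of the point and the
local ring is a localization of them. -/
theorem frac_chart [IsDomain O] {A : Subring F} {π : A →+* L} {VL : ValuationSubring L}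
    {V : ValuationSubring F} (h : Tr A π VL V) (hOA : ∀ o, algebraMap O F o ∈ A)
    (hOL : ∀ o : O, o ≠ 0 → π ⟨_, hOA o⟩ ≠ 0)
    {M₀ : Submodule O F} {y₀ : F} (hy₀ : y₀ ∈ M₀) (hy₀0 : y₀ ≠ 0) (hM₀A : ∀ m ∈ M₀, m / y₀ ∈ A)
    (hfr₀ : ∀ a ∈ A, ∃ b ∈ chart O M₀ y₀, ∃ c ∈ chart O M₀ y₀,
      ∃ hc : c ∈ A, π ⟨c, hc⟩ ≠ 0 ∧ a = b * c⁻¹)
    {D : ℕ} (hD : 1 ≤ D) {M : Submodule O F} (hle : M ≤ M₀ ^ D)
    (hcomm : ∀ y ∈ M₀ ^ D, ∃ s : O, s ≠ 0 ∧ s • y ∈ M) {g : F} (hg : g ∈ M) (hg0 : g ≠ 0)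
    (hMV : ∀ m ∈ M, m / g ∈ V) :
    (∀ m ∈ M, m / g ∈ A) ∧ ∀ a ∈ A, ∃ b ∈ chart O M g, ∃ c ∈ chart O M g,
      ∃ hc : c ∈ A, π ⟨c, hc⟩ ≠ 0 ∧ a = b * c⁻¹ := by
  have hB₀A := chart_le_A hOA hM₀A
  have hyD : y₀ ^ D ≠ 0 := pow_ne_zero _ hy₀0
  have huA : g / y₀ ^ D ∈ A := hB₀A (pow_div_mem hy₀0 D g (hle hg))
  have hu0 : g / y₀ ^ D ≠ 0 := div_ne_zero hg0 hyD
  have hπu : π ⟨_, huA⟩ ≠ 0 := by
    obtain ⟨s, hs, hsy⟩ := hcomm (y₀ ^ D) (Submodule.pow_mem_pow _ hy₀ _)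
    refine h.pi_ne (hOA s) huA hu0 (hOL s hs) ?_
    have h1 := hMV _ hsy
    have h2 : algebraMap O F s * (g / y₀ ^ D)⁻¹ = (s • y₀ ^ D) / g := by
      rw [Algebra.smul_def, inv_div, mul_div_assoc]
    rw [h2]
    exact h1
  have hui : (g / y₀ ^ D)⁻¹ ∈ A := h.unit ⟨_, huA⟩ hπu
  have hπui : π ⟨_, hui⟩ ≠ 0 := by
    rcases pi_inv π ⟨_, huA⟩ hui with h1 | h1
    · rw [h1]; exact inv_ne_zero hπu
    · exact absurd h1 hu0
  refine ⟨fun m hm => ?_, fun a ha => ?_⟩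
  · have h1 : m / g = m / y₀ ^ D * (g / y₀ ^ D)⁻¹ := by field_simp
    rw [h1]
    exact A.mul_mem (hB₀A (pow_div_mem hy₀0 D m (hle hm))) hui
  · obtain ⟨b, hb, c, hc, hcA, hπc, rfl⟩ := hfr₀ a ha
    obtain ⟨k, hk⟩ := chart_pow_mem hy₀ hy₀0 hb
    obtain ⟨k', hk'⟩ := chart_pow_mem hy₀ hy₀0 hc
    set e := max k k' with he
    have hDe : e ≤ D * e := Nat.le_mul_of_pos_left _ hD
    have h1 : b * y₀ ^ (D * e) ∈ (M₀ ^ D) ^ e := by
      rw [← pow_mul]
      exact hk _ ((le_max_left _ _).trans hDe)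
    have h2 : c * y₀ ^ (D * e) ∈ (M₀ ^ D) ^ e := by
      rw [← pow_mul]
      exact hk' _ ((le_max_right _ _).trans hDe)
    obtain ⟨s, hs, hsb⟩ := exists_smul_mem_pow' hcomm e _ h1
    obtain ⟨t, ht, htc⟩ := exists_smul_mem_pow' hcomm e _ h2
    have hc0 : c ≠ 0 := by
      intro h1
      apply hπc
      have : (⟨c, hcA⟩ : A) = 0 := Subtype.ext h1
      rw [this, map_zero]
    have hst : algebraMap O F (s * t) ≠ 0 := by
      intro h3
      apply hOL (s * t) (mul_ne_zero hs ht)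
      have : (⟨_, hOA (s * t)⟩ : A) = 0 := Subtype.ext h3
      rw [this, map_zero]
    have hb' : (t • (s • (b * y₀ ^ (D * e)))) / g ^ e ∈ chart O M g :=
      pow_div_mem hg0 e _ (Submodule.smul_mem _ _ hsb)
    have hc' : (s • (t • (c * y₀ ^ (D * e)))) / g ^ e ∈ chart O M g :=
      pow_div_mem hg0 e _ (Submodule.smul_mem _ _ htc)
    have hcu : (s • (t • (c * y₀ ^ (D * e)))) / g ^ e =
        algebraMap O F (s * t) * c * ((g / y₀ ^ D)⁻¹) ^ e := by
      rw [Algebra.smul_def, Algebra.smul_def, map_mul, inv_div, div_pow, ← pow_mul]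
      ring
    have hcA' : algebraMap O F (s * t) * c * ((g / y₀ ^ D)⁻¹) ^ e ∈ A :=
      A.mul_mem (A.mul_mem (hOA _) hcA) (A.pow_mem hui _)
    have hne : (s • (t • (c * y₀ ^ (D * e)))) / g ^ e ≠ 0 := by
      rw [hcu]
      exact mul_ne_zero (mul_ne_zero hst hc0) (pow_ne_zero _ (inv_ne_zero hu0))
    refine ⟨_, hb', _, hc', by rw [hcu]; exact hcA', ?_, ?_⟩
    · have h3 : (⟨(s • (t • (c * y₀ ^ (D * e)))) / g ^ e, by rw [hcu]; exact hcA'⟩ : A) =
          ⟨_, hOA (s * t)⟩ * ⟨c, hcA⟩ * ⟨_, hui⟩ ^ e := Subtype.ext hcu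
      rw [h3, map_mul, map_mul, map_pow]
      exact mul_ne_zero (mul_ne_zero (hOL _ (mul_ne_zero hs ht)) hπc) (pow_ne_zero _ hπui)
    · have hy : y₀ ^ (D * e) ≠ 0 := pow_ne_zero _ hy₀0
      have hge : g ^ e ≠ 0 := pow_ne_zero _ hg0
      have hs0 : algebraMap O F s ≠ 0 := by
        intro h3
        exact hst (by rw [map_mul, h3, zero_mul])
      have ht0 : algebraMap O F t ≠ 0 := by
        intro h3
        exact hst (by rw [map_mul, h3, mul_zero])
      simp only [Algebra.smul_def]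
      field_simp

/-- Centres of valuations with finite residue fields are maximal. -/
lemma max_of_finite {A : Subring F} {π : A →+* L} {VL : ValuationSubring L}
    {V : ValuationSubring F} (h : Tr A π VL V) [Finite (IsLocalRing.ResidueField VL)]
    {B : Subalgebra O F} (hBA : ∀ b ∈ B, b ∈ A) (hBV : ∀ b ∈ B, b ∈ V) :
    ∀ b ∈ B, ¬ V.valuation b < 1 → ∃ c ∈ B, V.valuation (b * c - 1) < 1 := by
  intro b hb hbV
  have hβ : π ⟨b, hBA b hb⟩ ∈ VL := (h.mem ⟨b, hBA b hb⟩).1 (hBV b hb)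
  have hr : IsLocalRing.residue VL ⟨_, hβ⟩ ≠ 0 := by
    rw [Ne, IsLocalRing.residue_eq_zero_iff, VL.valuation_lt_one_iff]
    intro h1
    exact hbV ((h.lt ⟨b, hBA b hb⟩).2 h1)
  obtain ⟨n, hn, hpow⟩ := (isOfFinOrder_iff_pow_eq_one.1
    (isOfFinOrder_of_finite (Units.mk0 _ hr)))
  obtain ⟨m, rfl⟩ := Nat.exists_eq_succ_of_ne_zero hn.ne'
  refine ⟨b ^ m, Subalgebra.pow_mem _ hb _, ?_⟩
  have h1 : (IsLocalRing.residue VL ⟨_, hβ⟩) ^ (m + 1) = 1 := by
    have := congrArg Units.val hpow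
    rw [Units.val_pow_eq_pow_val] at this
    exact this
  have h2 : IsLocalRing.residue VL (⟨_, hβ⟩ ^ (m + 1) - 1) = 0 := by
    rw [map_sub, map_pow, h1, map_one, sub_self]
  rw [IsLocalRing.residue_eq_zero_iff, VL.valuation_lt_one_iff] at h2
  have h3 := (h.lt (⟨b, hBA b hb⟩ ^ (m + 1) - 1)).2 (by
    rw [map_sub, map_pow, map_one]
    exact h2)
  have h4 : b * b ^ m - 1 = (((⟨b, hBA b hb⟩ : A) ^ (m + 1) - 1 : A) : F) := by
    change b * b ^ m - 1 = b ^ (m + 1) - 1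
    rw [pow_succ']
  rw [h4]
  exact h3

/-- A generator of largest value. -/
lemma exists_gen_max {W : ValuationSubring F} (hOW : ∀ o, algebraMap O F o ∈ W)
    {M : Submodule O F} (hM : M.FG) {g : F} (hg : g ∈ M) (hg0 : g ≠ 0) :
    ∃ j ∈ M, j ≠ 0 ∧ ∀ m ∈ M, m / j ∈ W := by
  classical
  obtain ⟨G, hG⟩ := hM
  have hne : (G.filter fun j => j ≠ 0).Nonempty := by
    by_contra h
    rw [Finset.not_nonempty_iff_eq_empty] at h
    apply hg0
    have h1 : g ∈ Submodule.span O (G : Set F) := by rw [hG]; exact hg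
    have h2 : Submodule.span O (G : Set F) ≤ ⊥ := by
      rw [Submodule.span_le]
      intro j hj
      by_contra hj0
      have : j ∈ G.filter fun j => j ≠ 0 := Finset.mem_filter.2 ⟨hj, hj0⟩
      rw [h] at this
      exact absurd this (Finset.notMem_empty _)
    exact (Submodule.mem_bot O).1 (h2 h1)
  obtain ⟨j, hjG, hjmax⟩ := Finset.exists_max_image _ (fun j => W.valuation j) hne
  rw [Finset.mem_filter] at hjG
  refine ⟨j, by rw [← hG]; exact Submodule.subset_span hjG.1, hjG.2, fun m hm => ?_⟩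
  rw [← hG] at hm
  induction hm using Submodule.span_induction with
  | mem m hm =>
    by_cases hm0 : m = 0
    · rw [hm0, zero_div]; exact W.zero_mem
    · rw [← W.valuation_le_one_iff, map_div₀]
      exact div_le_one_of_le₀ (hjmax m (Finset.mem_filter.2 ⟨hm, hm0⟩)) zero_le
  | zero => rw [zero_div]; exact W.zero_mem
  | add a b _ _ ha hb => rw [add_div]; exact W.add_mem _ _ ha hb
  | smul c a _ ha =>
    rw [Algebra.smul_def, mul_div_assoc]
    exact W.mul_mem _ _ (hOW c) ha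

end Pool.Agent.TH188.ARC
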