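import Pool.Agent.TH188.ARC.A11

/-!
# One module for all the traits
-/

set_option autoImplicit false
set_option linter.unusedVariables false
set_option linter.unusedSectionVars false

namespace Pool.Agent.TH188.ARC

open IsLocalRing Pool.Agent.TH188.QS Pool.Agent.W418.LU2 Pool.Agent.H918R2.Quad

variable {O F L : Type} [CommRing O] [Field F] [Algebra O F] [Field L]

/-- A finitely generated module is the span of a finite family. -/
lemma exists_fin_family {M : Submodule O F} (hM : M.FG) :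
    ∃ (N : ℕ) (m : Fin N → F), Submodule.span O (Set.range m) = M := by
  obtain ⟨N, m, hm⟩ := Submodule.fg_iff_exists_fin_generating_family.1 hM
  exact ⟨N, m, hm⟩

/-- One more trait. -/
theorem add_trait [IsDomain O] [IsRegularRing O] [CharZero L]
    {A : Subring F} [IsRegularLocalRing A] {π : A →+* L} {VL : ValuationSubring L}
    [IsDiscreteValuationRing VL] [Finite (IsLocalRing.ResidueField VL)]
    {V : ValuationSubring F} (h : Tr A π VL V) (hOA : ∀ o, algebraMap O F o ∈ A)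
    (hOL : ∀ o : O, o ≠ 0 → π ⟨_, hOA o⟩ ≠ 0) (hOV : ∀ o, algebraMap O F o ∈ V)
    {ϖ : O} (hϖ0 : ϖ ≠ 0) (hϖ : V.valuation (algebraMap O F ϖ) < 1)
    {M₀ : Submodule O F} {y₀ : F} (hy₀ : y₀ ∈ M₀) (hy₀0 : y₀ ≠ 0) (hM₀A : ∀ m ∈ M₀, m / y₀ ∈ A)
    (hfr₀ : ∀ a ∈ A, ∃ b ∈ chart O M₀ y₀, ∃ c ∈ chart O M₀ y₀,
      ∃ hc : c ∈ A, π ⟨c, hc⟩ ≠ 0 ∧ a = b * c⁻¹)
    {D : ℕ} (hD : 1 ≤ D) {M : Submodule O F} (hM : M.FG) (hle : M ≤ M₀ ^ D)
    (hcomm : ∀ y ∈ M₀ ^ D, ∃ s : O, s ≠ 0 ∧ s • y ∈ M) {g₀ : F} (hg₀ : g₀ ∈ M) (hg₀0 : g₀ ≠ 0) :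
    ∃ (D' : ℕ) (M' : Submodule O F), 1 ≤ D' ∧ M'.FG ∧ M' ≤ M₀ ^ D' ∧
      (∀ y ∈ M₀ ^ D', ∃ s : O, s ≠ 0 ∧ s • y ∈ M') ∧ (∃ g ∈ M', g ≠ 0) ∧ Rg V M' ∧
      ∀ W : ValuationSubring F, (∀ o, algebraMap O F o ∈ W) → Rg W M → Rg W M' := by
  classical
  obtain ⟨g, hg, hg0, hMV⟩ := exists_gen_max hOV hM hg₀ hg₀0
  obtain ⟨hMA, hfr⟩ := frac_chart h hOA hOL hy₀ hy₀0 hM₀A hfr₀ hD hle hcomm hg hg0 hMV
  obtain ⟨N, m, hm⟩ := exists_fin_family hM
  have hmM : ∀ i, m i ∈ M := fun i => by rw [← hm]; exact Submodule.subset_span ⟨i, rfl⟩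
  have hchart : chart O M g = Algebra.adjoin O (Set.range fun i => m i / g) := by
    rw [← hm]
    exact chart_span m g
  have hϖF : algebraMap O F ϖ ≠ 0 := by
    intro h1
    apply hOL ϖ hϖ0
    have : (⟨_, hOA ϖ⟩ : A) = 0 := Subtype.ext h1
    rw [this, map_zero]
  obtain ⟨n, hn⟩ := trait_regular (O := O) (fun i => m i / g) (A := A)
    (fun i => hMA _ (hmM i)) hOA (π := π) hOL (by rw [← hchart]; exact hfr) h
    (fun i => hMV _ (hmM i)) hOV hϖ0 hϖ
  rw [← hchart] at hn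
  obtain ⟨D', M', g', hD', hM', hle', hcomm', hg', hg'0, hM'V, hlo, hW⟩ :=
    seq_all hOV hϖF hϖ hM hg hg0 hMV (by
      intro D₁ M₁ hD₁ hle₁ hcomm₁ j hj hj0 hjV
      have hleD : M₁ ≤ M₀ ^ (D * D₁) := by
        rw [pow_mul]
        exact hle₁.trans (pow_le_pow' hle D₁)
      have hcommD : ∀ y ∈ M₀ ^ (D * D₁), ∃ s : O, s ≠ 0 ∧ s • y ∈ M₁ := by
        intro y hy
        rw [pow_mul] at hy
        obtain ⟨s, hs, hsy⟩ := exists_smul_mem_pow' hcomm D₁ y hy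
        obtain ⟨t, ht, hty⟩ := hcomm₁ _ hsy
        exact ⟨t * s, mul_ne_zero ht hs, by rw [mul_smul]; exact hty⟩
      obtain ⟨hM₁A, -⟩ := frac_chart h hOA hOL hy₀ hy₀0 hM₀A hfr₀ (Nat.mul_pos hD hD₁) hleD
        hcommD hj hj0 hjV
      exact max_of_finite h (fun b hb => chart_le_A hOA hM₁A hb)
        (fun b hb => chart_le_V hOV hjV hb)) n
  refine ⟨D * D', M', Nat.mul_pos hD hD', hM', ?_, ?_, ⟨g', hg', hg'0⟩,
    ⟨g', hg', hg'0, hM'V, by rw [hlo]; exact hn⟩, hW⟩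
  · rw [pow_mul]
    exact hle'.trans (pow_le_pow' hle D')
  · intro y hy
    rw [pow_mul] at hy
    obtain ⟨s, hs, hsy⟩ := exists_smul_mem_pow' hcomm D' y hy
    obtain ⟨t, ht, hty⟩ := hcomm' _ hsy
    exact ⟨t * s, mul_ne_zero ht hs, by rw [mul_smul]; exact hty⟩

variable {K : Type} [Field K] [Algebra O K] [IsDomain O] [IsFractionRing O K] [Algebra K F]
  [IsScalarTower O K F] [IsRegularRing O]

/-- The module attached to a family of traits through a point. -/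
theorem traits_module [CharZero L] {ι : Type} [Fintype ι] (y : ι → F) (hy : ∀ i, y i ≠ 0)
    (i₀ : ι) (α : (Algebra.adjoin K (Set.range fun j => y j / y i₀)).toSubring →+* L)
    [hkp : (RingHom.ker α).IsPrime]
    (hreg : IsRegularLocalRing (Localization.AtPrime (RingHom.ker α)))
    (VS : Set (ValuationSubring L)) (h1 : ∀ VL ∈ VS, IsDiscreteValuationRing VL)
    (h2 : ∀ VL ∈ VS, ∀ (o : O) (h : algebraMap O F o ∈ (Algebra.adjoin K
      (Set.range fun j => y j / y i₀)).toSubring), α ⟨_, h⟩ ∈ VL)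
    (h3 : ∀ VL ∈ VS, Finite (IsLocalRing.ResidueField VL))
    (h4 : ∀ d : L, d ≠ 0 → {VL | VL ∈ VS ∧ VL.valuation d ≠ 1}.Finite)
    (h5 : ∀ VL ∈ VS, ∃ ϖ : O, ϖ ≠ 0 ∧ ∀ h : algebraMap O F ϖ ∈ (Algebra.adjoin K
      (Set.range fun j => y j / y i₀)).toSubring, VL.valuation (α ⟨_, h⟩) < 1) :
    ∃ (A : Subring F) (π : A →+* L)
      (hA : (Algebra.adjoin K (Set.range fun j => y j / y i₀)).toSubring ≤ A)
      (D : ℕ) (M : Submodule O F) (g : F),
      (∀ b, π ⟨_, hA (Subtype.coe_prop b)⟩ = α b) ∧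
      1 ≤ D ∧ M.FG ∧ M ≤ Submodule.span O (Set.range y) ^ D ∧
      (∀ z ∈ Submodule.span O (Set.range y) ^ D, ∃ s : O, s ≠ 0 ∧ s • z ∈ M) ∧
      g ∈ M ∧ g ≠ 0 ∧
      ∀ VL ∈ VS, ∃ (V : ValuationSubring F) (g : F), Tr A π VL V ∧ g ∈ M ∧ g ≠ 0 ∧
        (chart O M g).toSubring ≤ V.toSubring ∧ (chart O M g).toSubring ≤ A ∧
        IsRegularLocalRing (lo V.toSubring (chart O M g).toSubring) := by
  classical
  obtain ⟨A, π, hA, hAreg, hπα, hunit, hfr⟩ := loc_data α hreg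
  choose Vf hVf using fun VL => exists_tr A π VL hunit
  have hOK : Function.Injective (algebraMap O K) := IsFractionRing.injective O K
  have hOF : Function.Injective (algebraMap O F) := by
    rw [IsScalarTower.algebraMap_eq O K F]
    exact (algebraMap K F).injective.comp hOK
  have hKB : ∀ k : K, algebraMap K F k ∈
      (Algebra.adjoin K (Set.range fun j => y j / y i₀)).toSubring := fun k =>
    Subalgebra.algebraMap_mem _ k
  have hOB : ∀ o : O, algebraMap O F o ∈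
      (Algebra.adjoin K (Set.range fun j => y j / y i₀)).toSubring := fun o => by
    rw [IsScalarTower.algebraMap_apply O K F]
    exact hKB _
  have hOA : ∀ o : O, algebraMap O F o ∈ A := fun o => hA (hOB o)
  have hKL : Function.Injective (fun k : K => α ⟨_, hKB k⟩) :=
    ((α.comp ((algebraMap K F).codRestrict
      (Algebra.adjoin K (Set.range fun j => y j / y i₀)).toSubring hKB)).injective)
  have hOL : ∀ o : O, o ≠ 0 → π ⟨_, hOA o⟩ ≠ 0 := by
    intro o ho h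
    have h1 := hπα ⟨_, hOB o⟩
    have h2 : α ⟨_, hOB o⟩ = 0 := h1.symm.trans h
    apply ho
    apply hOK
    rw [map_zero]
    apply hKL
    have e1 : (⟨algebraMap K F (algebraMap O K o), hKB _⟩ :
        (Algebra.adjoin K (Set.range fun j => y j / y i₀)).toSubring) = ⟨_, hOB o⟩ := Subtype.ext
      (IsScalarTower.algebraMap_apply O K F o).symm
    have e2 : (⟨algebraMap K F 0, hKB _⟩ :
        (Algebra.adjoin K (Set.range fun j => y j / y i₀)).toSubring) = 0 :=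
      Subtype.ext (map_zero _)
    change α ⟨algebraMap K F (algebraMap O K o), hKB _⟩ = α ⟨algebraMap K F 0, hKB _⟩
    rw [e1, e2, h2, map_zero]
  have hyB : ∀ j, y j / y i₀ ∈ (Algebra.adjoin K (Set.range fun j => y j / y i₀)).toSubring :=
    fun j => Algebra.subset_adjoin ⟨j, rfl⟩
  have hxA : ∀ j, y j / y i₀ ∈ A := fun j => hA (hyB j)
  have hOV : ∀ VL ∈ VS, ∀ o : O, algebraMap O F o ∈ Vf VL := by
    intro VL hVL o
    have h6 := ((hVf VL).mem ⟨_, hOA o⟩).2 (by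
      have h7 := hπα ⟨_, hOB o⟩
      rw [h7]
      exact h2 VL hVL o (hOB o))
    exact h6
  have hϖ : ∀ VL ∈ VS, ∃ ϖ : O, ϖ ≠ 0 ∧ (Vf VL).valuation (algebraMap O F ϖ) < 1 := by
    intro VL hVL
    obtain ⟨ϖ, h6, h7⟩ := h5 VL hVL
    refine ⟨ϖ, h6, ((hVf VL).lt ⟨_, hOA ϖ⟩).2 ?_⟩
    have h8 := hπα ⟨_, hOB ϖ⟩
    rw [h8]
    exact h7 _
  -- the initial module
  set M₀ : Submodule O F := Submodule.span O (Set.range y) with hM₀
  have hchart : chart O M₀ (y i₀) = Algebra.adjoin O (Set.range fun j => y j / y i₀) :=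
    chart_span y (y i₀)
  have hM₀FG : M₀.FG := ⟨Finset.univ.image y, by
    rw [Finset.coe_image, Finset.coe_univ, Set.image_univ]⟩
  have hy₀ : y i₀ ∈ M₀ := Submodule.subset_span ⟨i₀, rfl⟩
  have hB₀A : (chart O M₀ (y i₀)).toSubring ≤ A := by
    let A' : Subalgebra O F := { A with algebraMap_mem' := hOA }
    have : chart O M₀ (y i₀) ≤ A' := by
      rw [hchart]
      refine Algebra.adjoin_le ?_
      rintro _ ⟨i, rfl⟩
      exact hxA i
    exact this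
  have hM₀A : ∀ m ∈ M₀, m / y i₀ ∈ A := fun m hm =>
    hB₀A (Algebra.subset_adjoin ⟨m, hm, rfl⟩)
  -- fractions
  have hden : ∀ b : F, b ∈ (Algebra.adjoin K (Set.range fun j => y j / y i₀)).toSubring →
      ∃ o : O, o ≠ 0 ∧ b * algebraMap O F o ∈ chart O M₀ (y i₀) := by
    intro b hb
    have hb' : b ∈ Algebra.adjoin K (Set.range fun j => y j / y i₀) := hb
    clear hb
    induction hb' using Algebra.adjoin_induction with
    | mem b hb1 =>
      obtain ⟨j, rfl⟩ := hb1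
      refine ⟨1, one_ne_zero, ?_⟩
      rw [map_one, mul_one, hchart]
      exact Algebra.subset_adjoin ⟨j, rfl⟩
    | algebraMap k =>
      obtain ⟨a, o, ho, hk⟩ := IsFractionRing.div_surjective (A := O) k
      have h1 : algebraMap O K o ≠ 0 := IsFractionRing.to_map_ne_zero_of_mem_nonZeroDivisors ho
      refine ⟨o, nonZeroDivisors.ne_zero ho, ?_⟩
      have : algebraMap K F k * algebraMap O F o = algebraMap O F a := by
        rw [IsScalarTower.algebraMap_apply O K F, IsScalarTower.algebraMap_apply O K F,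
          ← map_mul, ← hk, div_mul_cancel₀ _ h1]
      rw [this]
      exact Subalgebra.algebraMap_mem _ a
    | add a b hax hbx ha hb =>
      obtain ⟨o, ho, hao⟩ := ha
      obtain ⟨o', ho', hbo⟩ := hb
      refine ⟨o * o', mul_ne_zero ho ho', ?_⟩
      have h1 : (a + b) * algebraMap O F (o * o') = a * algebraMap O F o * algebraMap O F o' +
          b * algebraMap O F o' * algebraMap O F o := by rw [map_mul]; ring
      rw [h1]
      exact Subalgebra.add_mem _ (Subalgebra.mul_mem _ hao (Subalgebra.algebraMap_mem _ _))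
        (Subalgebra.mul_mem _ hbo (Subalgebra.algebraMap_mem _ _))
    | mul a b hax hbx ha hb =>
      obtain ⟨o, ho, hao⟩ := ha
      obtain ⟨o', ho', hbo⟩ := hb
      refine ⟨o * o', mul_ne_zero ho ho', ?_⟩
      have h1 : a * b * algebraMap O F (o * o') = (a * algebraMap O F o) *
          (b * algebraMap O F o') := by rw [map_mul]; ring
      rw [h1]
      exact Subalgebra.mul_mem _ hao hbo
  have hfr₀ : ∀ a ∈ A, ∃ b ∈ chart O M₀ (y i₀), ∃ c ∈ chart O M₀ (y i₀),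
      ∃ hc : c ∈ A, π ⟨c, hc⟩ ≠ 0 ∧ a = b * c⁻¹ := by
    intro a ha
    obtain ⟨b, c, hc, rfl⟩ := hfr a ha
    obtain ⟨o, ho, hbo⟩ := hden b b.2
    obtain ⟨o', ho', hco⟩ := hden c c.2
    have hcπ : π ⟨c, hA c.2⟩ ≠ 0 := by rw [hπα]; exact hc
    have hne : ∀ (z : F) (hz : z ∈ A), π ⟨z, hz⟩ ≠ 0 → z ≠ 0 := by
      intro z hz h h0
      apply h
      have : (⟨z, hz⟩ : A) = 0 := Subtype.ext h0
      rw [this, map_zero]
    refine ⟨b * algebraMap O F o * algebraMap O F o',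
      Subalgebra.mul_mem _ hbo (Subalgebra.algebraMap_mem _ _),
      c * algebraMap O F o' * algebraMap O F o,
      Subalgebra.mul_mem _ hco (Subalgebra.algebraMap_mem _ _),
      A.mul_mem (A.mul_mem (hA c.2) (hOA _)) (hOA _), ?_, ?_⟩
    · have h1 : (⟨c * algebraMap O F o' * algebraMap O F o,
          A.mul_mem (A.mul_mem (hA c.2) (hOA _)) (hOA _)⟩ : A) =
          ⟨c, hA c.2⟩ * ⟨_, hOA o'⟩ * ⟨_, hOA o⟩ := rfl
      rw [h1, map_mul, map_mul]
      exact mul_ne_zero (mul_ne_zero hcπ (hOL _ ho')) (hOL _ ho)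
    · have h1 := hne _ _ hcπ
      have h2 := hne _ _ (hOL _ ho)
      have h3 := hne _ _ (hOL _ ho')
      field_simp
  -- the good traits
  obtain ⟨N, m, hm⟩ := exists_fin_family hM₀FG
  have hmM : ∀ i, m i ∈ M₀ := fun i => by rw [← hm]; exact Submodule.subset_span ⟨i, rfl⟩
  have hchart' : chart O M₀ (y i₀) = Algebra.adjoin O (Set.range fun i => m i / y i₀) := by
    rw [← hm]
    exact chart_span m (y i₀)
  obtain ⟨d, hd0, hd⟩ := trait_good (O := O) (fun i => m i / y i₀) (A := A)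
    (fun i => hM₀A _ (hmM i)) hOA (π := π) hOL (by rw [← hchart']; exact hfr₀) hunit
  let bad : Set (ValuationSubring L) := {VL | VL ∈ VS ∧ (VL.valuation (π d) ≠ 1 ∨
    ∃ j, α ⟨_, hyB j⟩ ≠ 0 ∧ VL.valuation (α ⟨_, hyB j⟩) ≠ 1)}
  have hbad : bad.Finite := by
    have h6 : bad ⊆ {VL | VL ∈ VS ∧ VL.valuation (π d) ≠ 1} ∪
        ⋃ j : {j : ι // α ⟨_, hyB j⟩ ≠ 0}, {VL | VL ∈ VS ∧ VL.valuation (α ⟨_, hyB j.1⟩) ≠ 1} := by
      rintro VL ⟨h7, h8 | ⟨j, h8, h9⟩⟩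
      · exact Or.inl ⟨h7, h8⟩
      · exact Or.inr (Set.mem_iUnion.2 ⟨⟨j, h8⟩, h7, h9⟩)
    exact ((h4 _ hd0).union (Set.finite_iUnion fun j => h4 _ j.2)).subset h6
  have hgood : ∀ VL ∈ VS, VL ∉ bad → Rg (Vf VL) M₀ := by
    intro VL hVL hnb
    have hg1 : VL.valuation (π d) = 1 := by
      by_contra h6
      exact hnb ⟨hVL, Or.inl h6⟩
    have hg2 : ∀ j, α ⟨_, hyB j⟩ ∈ VL := by
      intro j
      by_cases h0 : α ⟨_, hyB j⟩ = 0
      · rw [h0]; exact VL.zero_mem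
      · rw [← VL.valuation_le_one_iff]
        by_contra h6
        exact hnb ⟨hVL, Or.inr ⟨j, h0, fun h7 => h6 h7.le⟩⟩
    have hyV : ∀ j, y j / y i₀ ∈ Vf VL := by
      intro j
      have h6 := ((hVf VL).mem ⟨_, hxA j⟩).2 (by
        have h7 := hπα ⟨_, hyB j⟩
        rw [h7]
        exact hg2 j)
      exact h6
    have hB₀V : (chart O M₀ (y i₀)).toSubring ≤ (Vf VL).toSubring := by
      let A' : Subalgebra O F := { (Vf VL).toSubring with algebraMap_mem' := hOV VL hVL }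
      have : chart O M₀ (y i₀) ≤ A' := by
        rw [hchart]
        refine Algebra.adjoin_le ?_
        rintro _ ⟨i, rfl⟩
        exact hyV i
      exact this
    have hM₀V : ∀ m ∈ M₀, m / y i₀ ∈ Vf VL := fun m hm =>
      hB₀V (Algebra.subset_adjoin ⟨m, hm, rfl⟩)
    obtain ⟨ϖ, hϖ0, hϖ1⟩ := hϖ VL hVL
    refine ⟨y i₀, hy₀, hy i₀, hM₀V, ?_⟩
    rw [hchart']
    exact hd VL (Vf VL) (hVf VL) (fun i => hM₀V _ (hmM i)) (hOV VL hVL) ϖ hϖ0 hϖ1 (by
      rw [hg1]; exact lt_irrefl _)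
  -- the induction over the bad traits
  have key : ∀ T : Finset (ValuationSubring L), (∀ VL ∈ T, VL ∈ VS) →
      ∃ (D : ℕ) (M : Submodule O F), 1 ≤ D ∧ M.FG ∧ M ≤ M₀ ^ D ∧
      (∀ y ∈ M₀ ^ D, ∃ s : O, s ≠ 0 ∧ s • y ∈ M) ∧ (∃ g ∈ M, g ≠ 0) ∧
      ∀ VL ∈ VS, (VL ∉ bad ∨ VL ∈ T) → Rg (Vf VL) M := by
    intro T
    induction T using Finset.induction_on with
    | empty =>
      intro _
      refine ⟨1, M₀, le_rfl, hM₀FG, by rw [pow_one], fun y hy => ⟨1, one_ne_zero, by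
        rw [one_smul]; rwa [pow_one] at hy⟩, ⟨_, hy₀, hy i₀⟩, ?_⟩
      rintro VL hVL (h6 | h6)
      · exact hgood VL hVL h6
      · exact absurd h6 (Finset.notMem_empty _)
    | insert VL₀ T _ ih =>
      intro hT
      obtain ⟨D, M, hD, hM, hle, hcomm, ⟨g₀, hg₀, hg₀0⟩, hRg⟩ :=
        ih fun VL hVL => hT VL (Finset.mem_insert_of_mem hVL)
      have hVL₀ : VL₀ ∈ VS := hT VL₀ (Finset.mem_insert_self _ _)
      have := h1 VL₀ hVL₀
      have := h3 VL₀ hVL₀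
      obtain ⟨ϖ, hϖ0, hϖ1⟩ := hϖ VL₀ hVL₀
      obtain ⟨D', M', hD', hM', hle', hcomm', hg', hR, hW⟩ := add_trait (hVf VL₀) hOA hOL
        (hOV VL₀ hVL₀) hϖ0 hϖ1 hy₀ (hy i₀) hM₀A hfr₀ hD hM hle hcomm hg₀ hg₀0
      refine ⟨D', M', hD', hM', hle', hcomm', hg', ?_⟩
      intro VL hVL h6
      by_cases h7 : VL = VL₀
      · rw [h7]; exact hR
      · refine hW _ (hOV VL hVL) (hRg VL hVL ?_)
        rcases h6 with h6 | h6
        · exact Or.inl h6
        · exact Or.inr (Finset.mem_of_mem_insert_of_ne h6 h7)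
  obtain ⟨D, M, hD, hM, hle, hcomm, ⟨g₀, hg₀, hg₀0⟩, hRg⟩ := key hbad.toFinset
    (fun VL hVL => ((Set.Finite.mem_toFinset hbad).1 hVL).1)
  refine ⟨A, π, hA, D, M, g₀, hπα, hD, hM, hle, hcomm, hg₀, hg₀0, fun VL hVL => ?_⟩
  obtain ⟨g, hg, hg0, hMV, hr⟩ := hRg VL hVL (by
    by_cases h6 : VL ∈ bad
    · exact Or.inr ((Set.Finite.mem_toFinset hbad).2 h6)
    · exact Or.inl h6)
  refine ⟨Vf VL, g, hVf VL, hg, hg0, chart_le_V (hOV VL hVL) hMV, ?_, hr⟩
  exact chart_le_A hOA (frac_chart (hVf VL) hOA hOL hy₀ (hy i₀) hM₀A hfr₀ hD hle hcomm hg hg0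
    hMV).1

end Pool.Agent.TH188.ARC
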