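import Mathlib

/-!
# The discrete valuation rings of a number field
-/

set_option autoImplicit false
set_option linter.unusedVariables false
set_option linter.unusedSectionVars false

open NumberField IsLocalRing

namespace Pool.Agent.TH188.ARC

variable {L : Type} [Field L] [NumberField L]

/-- valuation rings contain the integral elements -/
lemma int_mem (V : ValuationSubring L) (x : 𝓞 L) : algebraMap (𝓞 L) L x ∈ V := by
  have h1 : IsIntegral ℤ x := RingOfIntegers.isIntegral x
  have h2 : IsIntegral V (algebraMap (𝓞 L) L x) := by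
    obtain ⟨p, hp, hp0⟩ := h1
    refine ⟨p.map (Int.castRingHom V), hp.map _, ?_⟩
    rw [Polynomial.eval₂_map]
    have h3 := congrArg (algebraMap (𝓞 L) L) hp0
    rw [Polynomial.hom_eval₂, map_zero] at h3
    have h4 : (algebraMap V L).comp (Int.castRingHom V) =
        (algebraMap (𝓞 L) L).comp (algebraMap ℤ (𝓞 L)) := RingHom.ext_int _ _
    rw [h4]
    exact h3
  obtain ⟨v, hv⟩ := IsIntegrallyClosed.isIntegral_iff.1 h2
  rw [← hv]
  exact v.2

lemma val_lt_iff' {V : ValuationSubring L} {x : L} (hx : x ≠ 0) :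
    V.valuation x < 1 ↔ x⁻¹ ∉ V := by
  rw [← ValuationSubring.valuation_le_one_iff, map_inv₀, not_le,
    one_lt_inv₀ ((Valuation.pos_iff _).2 hx)]

/-- the centre -/
def ctr (V : ValuationSubring L) : Ideal (𝓞 L) where
  carrier := {x | V.valuation (algebraMap (𝓞 L) L x) < 1}
  zero_mem' := by
    change V.valuation (algebraMap (𝓞 L) L 0) < 1
    rw [map_zero, map_zero]; exact zero_lt_one
  add_mem' := fun {a b} ha hb => by
    change V.valuation (algebraMap (𝓞 L) L (a + b)) < 1
    rw [map_add]
    exact Valuation.map_add_lt _ ha hb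
  smul_mem' := fun c a ha => by
    change V.valuation (algebraMap (𝓞 L) L (c * a)) < 1
    rw [map_mul, map_mul]
    exact (mul_le_of_le_one_of_le ((V.valuation_le_one_iff _).2 (int_mem V c)) le_rfl).trans_lt ha

lemma mem_ctr {V : ValuationSubring L} {x : 𝓞 L} :
    x ∈ ctr V ↔ V.valuation (algebraMap (𝓞 L) L x) < 1 := Iff.rfl

lemma one_of_notMem {V : ValuationSubring L} {x : 𝓞 L} (h : x ∉ ctr V) :
    V.valuation (algebraMap (𝓞 L) L x) = 1 :=
  le_antisymm ((V.valuation_le_one_iff _).2 (int_mem V x)) (not_lt.1 h)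

instance ctr_prime (V : ValuationSubring L) : (ctr V).IsPrime := by
  refine ⟨?_, ?_⟩
  · rw [Ne, Ideal.eq_top_iff_one, mem_ctr, map_one, map_one]
    exact lt_irrefl _
  · intro a b hab
    by_contra hcon
    rw [not_or] at hcon
    rw [mem_ctr, map_mul, map_mul, one_of_notMem hcon.1, one_of_notMem hcon.2, one_mul] at hab
    exact lt_irrefl _ hab

lemma ctr_ne_bot (V : ValuationSubring L) (hV : V ≠ ⊤) : ctr V ≠ ⊥ := by
  intro h
  apply hV
  rw [eq_top_iff]
  intro z _
  obtain ⟨a, b, hb, rfl⟩ := IsFractionRing.div_surjective (A := 𝓞 L) z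
  have hb0 : b ≠ 0 := nonZeroDivisors.ne_zero hb
  have hb1 : b ∉ ctr V := by
    rw [h, Ideal.mem_bot]
    exact hb0
  rw [← V.valuation_le_one_iff, map_div₀, one_of_notMem hb1, div_one]
  exact (V.valuation_le_one_iff _).2 (int_mem V a)

/-- Valuation rings of number fields are localizations. -/
lemma exists_frac (V : ValuationSubring L) (hV : V ≠ ⊤) {z : L} (hz : z ∈ V) :
    ∃ a b : 𝓞 L, b ∉ ctr V ∧ z = algebraMap (𝓞 L) L a * (algebraMap (𝓞 L) L b)⁻¹ := by
  have hS : (ctr V).primeCompl ≤ nonZeroDivisors (𝓞 L) := Ideal.primeCompl_le_nonZeroDivisors _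
  let B := Localization.subalgebra.ofField L (ctr V).primeCompl hS
  have hmem : ∀ x : L, x ∈ B ↔ ∃ (a s : 𝓞 L) (_ : s ∈ (ctr V).primeCompl),
      x = algebraMap (𝓞 L) L a * (algebraMap (𝓞 L) L s)⁻¹ := fun x => Iff.rfl
  have hloc : IsLocalization.AtPrime B (ctr V) :=
    Localization.subalgebra.isLocalization_ofField L (ctr V).primeCompl hS
  have hdvr : IsDiscreteValuationRing B :=
    IsLocalization.AtPrime.isDiscreteValuationRing_of_dedekind_domain (𝓞 L) (ctr_ne_bot V hV) B
  have key : z ∈ B := by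
    rcases ValuationRing.isInteger_or_isInteger B z with ⟨w, hw⟩ | ⟨w, hw⟩
    · rw [← hw]
      exact w.2
    · by_cases hz0 : z = 0
      · rw [hz0]; exact B.zero_mem
      have hzB : z⁻¹ ∈ B := by rw [← hw]; exact w.2
      obtain ⟨a, s, hs, has⟩ := (hmem _).1 hzB
      have hsc : s ∉ ctr V := hs
      have hs0 : algebraMap (𝓞 L) L s ≠ 0 := by
        intro h
        apply hsc
        rw [mem_ctr, h, map_zero]
        exact zero_lt_one
      by_cases ha : a ∈ ctr V
      · exfalso
        have h1 : V.valuation z⁻¹ < 1 := by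
          rw [has, map_mul, map_inv₀, one_of_notMem hsc, inv_one, mul_one]
          exact ha
        rw [val_lt_iff' (inv_ne_zero hz0), inv_inv] at h1
        exact h1 hz
      · have ha0 : algebraMap (𝓞 L) L a ≠ 0 := by
          intro h
          apply ha
          rw [mem_ctr, h, map_zero]
          exact zero_lt_one
        refine (hmem _).2 ⟨s, a, ha, ?_⟩
        rw [← inv_inj, has, mul_inv, inv_inv, mul_comm]
  obtain ⟨a, s, hs, h⟩ := (hmem _).1 key
  exact ⟨a, s, hs, h⟩

/-- The residue fields are finite. -/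
lemma finite_residue (V : ValuationSubring L) (hV : V ≠ ⊤) : Finite (ResidueField V) := by
  let φ : 𝓞 L →+* V := (algebraMap (𝓞 L) L).codRestrict V.toSubring (int_mem V)
  let f : 𝓞 L →+* ResidueField V := (residue V).comp φ
  have hf : ∀ x, f x = 0 ↔ x ∈ ctr V := fun x => by
    change residue V (φ x) = 0 ↔ _
    rw [residue_eq_zero_iff, V.valuation_lt_one_iff]
    rfl
  have hne := ctr_ne_bot V hV
  have hmax : (ctr V).IsMaximal := (ctr_prime V).isMaximal hne
  have hsurj : Function.Surjective (Ideal.Quotient.lift (ctr V) f fun x hx => (hf x).2 hx) := by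
    intro r
    obtain ⟨z, rfl⟩ := residue_surjective r
    obtain ⟨a, b, hb, hz⟩ := exists_frac V hV z.2
    -- an inverse of `b` modulo the centre
    obtain ⟨c, hc⟩ : ∃ c, b * c - 1 ∈ ctr V := by
      obtain ⟨y, i, hi, hyi⟩ := hmax.exists_inv hb
      refine ⟨y, ?_⟩
      have : b * y - 1 = -i := by rw [← hyi]; ring
      rw [this]
      exact neg_mem hi
    refine ⟨Ideal.Quotient.mk _ (a * c), ?_⟩
    rw [Ideal.Quotient.lift_mk]
    have hb0 : algebraMap (𝓞 L) L b ≠ 0 := by
      intro h
      apply hb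
      rw [mem_ctr, h, map_zero]
      exact zero_lt_one
    have h1 : z * φ b = φ a := by
      apply Subtype.ext
      change (z : L) * algebraMap (𝓞 L) L b = algebraMap (𝓞 L) L a
      rw [hz, mul_assoc, inv_mul_cancel₀ hb0, mul_one]
    have h2 : f b * f c = 1 := by
      have h3 := (hf _).2 hc
      rw [map_sub, map_mul, map_one, sub_eq_zero] at h3
      exact h3
    have h4 : f a = residue V z * f b := by
      change residue V (φ a) = residue V z * residue V (φ b)
      rw [← h1, map_mul]
    rw [map_mul, h4, mul_assoc, h2, mul_one]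
  have : Finite (𝓞 L ⧸ ctr V) := (ctr V).finiteQuotientOfFreeOfNeBot hne
  exact Finite.of_surjective _ hsurj

/-- A nonzero element is a unit at almost all places. -/
lemma finite_support {d : L} (hd : d ≠ 0) :
    {V : ValuationSubring L | V ≠ ⊤ ∧ V.valuation d ≠ 1}.Finite := by
  classical
  obtain ⟨a, b, hb, rfl⟩ := IsFractionRing.div_surjective (A := 𝓞 L) d
  have hb0 : b ≠ 0 := nonZeroDivisors.ne_zero hb
  have ha0 : a ≠ 0 := by
    intro h
    apply hd
    rw [h, map_zero, zero_div]
  have hab : Ideal.span {a * b} ≠ (⊥ : Ideal (𝓞 L)) := by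
    rw [Ne, Ideal.span_singleton_eq_bot]
    exact mul_ne_zero ha0 hb0
  have hfin := Ideal.finite_factors hab
  -- the ideals which occur
  have hfin' : ((fun v : IsDedekindDomain.HeightOneSpectrum (𝓞 L) => v.asIdeal) ''
      {v | v.asIdeal ∣ Ideal.span {a * b}}).Finite := hfin.image _
  refine Set.Finite.of_finite_image (f := ctr) (hfin'.subset ?_) ?_
  · rintro _ ⟨V, ⟨hV, hVd⟩, rfl⟩
    refine ⟨⟨ctr V, ctr_prime V, ctr_ne_bot V hV⟩, ?_, rfl⟩
    change ctr V ∣ Ideal.span {a * b}
    rw [Ideal.dvd_span_singleton]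
    by_contra hn
    have h1 : a ∉ ctr V := fun h => hn (Ideal.mul_mem_right _ _ h)
    have h2 : b ∉ ctr V := fun h => hn (Ideal.mul_mem_left _ _ h)
    apply hVd
    rw [map_div₀, one_of_notMem h1, one_of_notMem h2, div_one]
  · rintro V ⟨hV, -⟩ W ⟨hW, -⟩ hVW
    have key : ∀ V W : ValuationSubring L, V ≠ ⊤ → ctr V = ctr W → V ≤ W := by
      intro V W hV h z hz
      obtain ⟨a, b, hb, rfl⟩ := exists_frac V hV hz
      rw [h] at hb
      rw [← W.valuation_le_one_iff, map_mul, map_inv₀, one_of_notMem hb, inv_one, mul_one]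
      exact (W.valuation_le_one_iff _).2 (int_mem W a)
    exact le_antisymm (key V W hV hVW) (key W V hW hVW.symm)

/-- An integer of positive value. -/
lemma exists_int (V : ValuationSubring L) (hV : V ≠ ⊤) :
    ∃ n : ℕ, n ≠ 0 ∧ V.valuation (n : L) < 1 := by
  have := finite_residue V hV
  refine ⟨addOrderOf (1 : ResidueField V), (addOrderOf_pos _).ne', ?_⟩
  have h1 : ((addOrderOf (1 : ResidueField V) : ℕ) : ResidueField V) = 0 := by
    rw [← nsmul_one]
    exact addOrderOf_nsmul_eq_zero _
  have h2 : residue V ((addOrderOf (1 : ResidueField V) : ℕ) : V) = 0 := by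
    rw [map_natCast]; exact h1
  rw [residue_eq_zero_iff, V.valuation_lt_one_iff] at h2
  exact h2

lemma ne_top_of_dvr (V : ValuationSubring L) [h : IsDiscreteValuationRing V] : V ≠ ⊤ := by
  intro hV
  have h1 : ∀ z : L, z ∈ V := fun z => by rw [hV]; trivial
  apply h.not_a_field
  rw [eq_bot_iff]
  intro x hx
  rw [V.valuation_lt_one_iff] at hx
  by_contra hx0
  have h0 : (x : L) ≠ 0 := fun h => hx0 (Subtype.ext h)
  rw [val_lt_iff' h0] at hx
  exact hx (h1 _)

end Pool.Agent.TH188.ARC
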