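import Pool.Agent.TH188.ARC.A12
import Pool.Agent.TH188.ARC.A13

/-!
# Several points at once
-/

set_option autoImplicit false
set_option linter.unusedVariables false
set_option linter.unusedSectionVars false

namespace Pool.Agent.TH188.ARC

open IsLocalRing Pool.Agent.TH188.QS Pool.Agent.W418.LU2 Pool.Agent.H918R2.Quad

variable {O F L : Type} [CommRing O] [Field F] [Algebra O F] [Field L]

/-- The local ring of a point of the generic fibre. -/
structure Pt (M₀ : Submodule O F) (A : Subring F) (π : A →+* L) (y₀ : F) : Prop where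
  reg : IsRegularLocalRing A
  unit : ∀ a : A, π a ≠ 0 → (a : F)⁻¹ ∈ A
  OA : ∀ o, algebraMap O F o ∈ A
  OL : ∀ o : O, o ≠ 0 → π ⟨_, OA o⟩ ≠ 0
  mem : y₀ ∈ M₀
  ne : y₀ ≠ 0
  MA : ∀ m ∈ M₀, m / y₀ ∈ A
  fr : ∀ a ∈ A, ∃ b ∈ chart O M₀ y₀, ∃ c ∈ chart O M₀ y₀,
      ∃ hc : c ∈ A, π ⟨c, hc⟩ ≠ 0 ∧ a = b * c⁻¹

/-- The invariants of the modules. -/
structure Inv (M₀ : Submodule O F) (D : ℕ) (M : Submodule O F) : Prop where
  pos : 1 ≤ D
  fg : M.FG
  le : M ≤ M₀ ^ D
  comm : ∀ y ∈ M₀ ^ D, ∃ s : O, s ≠ 0 ∧ s • y ∈ M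
  ne : ∃ g ∈ M, g ≠ 0
  pres : ∀ W : ValuationSubring F, (∀ o, algebraMap O F o ∈ W) → Rg W M₀ → Rg W M

lemma map_mem_val [NumberField L] (hint : ∀ o : O, IsIntegral ℤ o) (φ : O →+* L)
    (V : ValuationSubring L) (o : O) : φ o ∈ V := by
  have h2 : IsIntegral V (φ o) := by
    obtain ⟨p, hp, hp0⟩ := hint o
    refine ⟨p.map (Int.castRingHom V), hp.map _, ?_⟩
    rw [Polynomial.eval₂_map]
    have h3 := congrArg φ hp0
    rw [Polynomial.hom_eval₂, map_zero] at h3
    have h4 : (algebraMap V L).comp (Int.castRingHom V) = φ.comp (algebraMap ℤ O) :=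
      RingHom.ext_int _ _
    rw [h4]
    exact h3
  obtain ⟨v, hv⟩ := IsIntegrallyClosed.isIntegral_iff.1 h2
  rw [← hv]
  exact v.2

/-- Almost all traits through a point are good, and the others are treated one by one. -/
theorem Pt.step [IsDomain O] [IsRegularRing O] [NumberField L] (hint : ∀ o : O, IsIntegral ℤ o)
    {M₀ : Submodule O F} (hM₀ : M₀.FG) {A : Subring F} {π : A →+* L} {y₀ : F}
    (h : Pt M₀ A π y₀) {Vf : ValuationSubring L → ValuationSubring F}
    (hVf : ∀ VL, Tr A π VL (Vf VL)) {D : ℕ} {M : Submodule O F} (hM : Inv M₀ D M) :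
    ∃ (D' : ℕ) (M' : Submodule O F), Inv M₀ D' M' ∧
      (∀ W : ValuationSubring F, (∀ o, algebraMap O F o ∈ W) → Rg W M → Rg W M') ∧
      ∀ VL : ValuationSubring L, IsDiscreteValuationRing VL → Rg (Vf VL) M' := by
  classical
  have hreg := h.reg
  have hOA := h.OA
  have hOL := h.OL
  let φ : O →+* L := π.comp ((algebraMap O F).codRestrict A hOA)
  have hOV : ∀ (VL : ValuationSubring L) (o : O), algebraMap O F o ∈ Vf VL := fun VL o =>
    ((hVf VL).mem ⟨_, hOA o⟩).2 (map_mem_val hint φ VL o)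
  have hϖ : ∀ VL : ValuationSubring L, IsDiscreteValuationRing VL →
      ∃ ϖ : O, ϖ ≠ 0 ∧ (Vf VL).valuation (algebraMap O F ϖ) < 1 := by
    intro VL hVL
    obtain ⟨n, hn, hnV⟩ := exists_int VL (ne_top_of_dvr VL)
    refine ⟨(n : O), fun h0 => hn ?_, ?_⟩
    · have h1 := congrArg φ h0
      rw [map_natCast, map_zero] at h1
      exact_mod_cast h1
    · refine ((hVf VL).lt ⟨_, hOA n⟩).2 ?_
      have h1 : π ⟨_, hOA n⟩ = (n : L) := map_natCast φ n
      rw [h1]
      exact hnV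
  have hB₀A := chart_le_A hOA h.MA
  -- the good traits
  obtain ⟨N, m, hm⟩ := exists_fin_family hM₀
  have hmM : ∀ i, m i ∈ M₀ := fun i => by rw [← hm]; exact Submodule.subset_span ⟨i, rfl⟩
  have hchart' : chart O M₀ y₀ = Algebra.adjoin O (Set.range fun i => m i / y₀) := by
    rw [← hm]
    exact chart_span m y₀
  obtain ⟨d, hd0, hd⟩ := trait_good (O := O) (fun i => m i / y₀) (A := A)
    (fun i => h.MA _ (hmM i)) hOA (π := π) hOL (by rw [← hchart']; exact h.fr) h.unit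
  let bad : Set (ValuationSubring L) := {VL | VL ≠ ⊤ ∧ (VL.valuation (π d) ≠ 1 ∨
    ∃ j, π ⟨_, h.MA _ (hmM j)⟩ ≠ 0 ∧ VL.valuation (π ⟨_, h.MA _ (hmM j)⟩) ≠ 1)}
  have hbad : bad.Finite := by
    have h6 : bad ⊆ {VL | VL ≠ ⊤ ∧ VL.valuation (π d) ≠ 1} ∪
        ⋃ j : {j : Fin N // π ⟨_, h.MA _ (hmM j)⟩ ≠ 0},
          {VL | VL ≠ ⊤ ∧ VL.valuation (π ⟨_, h.MA _ (hmM j.1)⟩) ≠ 1} := by
      rintro VL ⟨h7, h8 | ⟨j, h8, h9⟩⟩
      · exact Or.inl ⟨h7, h8⟩
      · exact Or.inr (Set.mem_iUnion.2 ⟨⟨j, h8⟩, h7, h9⟩)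
    exact ((finite_support hd0).union (Set.finite_iUnion fun j => finite_support j.2)).subset h6
  have hgood : ∀ VL : ValuationSubring L, IsDiscreteValuationRing VL → VL ∉ bad →
      Rg (Vf VL) M₀ := by
    intro VL hVL hnb
    have hVLt : VL ≠ ⊤ := ne_top_of_dvr VL
    have hg1 : VL.valuation (π d) = 1 := by
      by_contra h6
      exact hnb ⟨hVLt, Or.inl h6⟩
    have hyV : ∀ j, m j / y₀ ∈ Vf VL := by
      intro j
      refine ((hVf VL).mem ⟨_, h.MA _ (hmM j)⟩).2 ?_
      by_cases h0 : π ⟨_, h.MA _ (hmM j)⟩ = 0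
      · rw [h0]; exact VL.zero_mem
      · rw [← VL.valuation_le_one_iff]
        by_contra h6
        exact hnb ⟨hVLt, Or.inr ⟨j, h0, fun h7 => h6 h7.le⟩⟩
    have hM₀V : ∀ m ∈ M₀, m / y₀ ∈ Vf VL := by
      intro z hz
      rw [← hm] at hz
      induction hz using Submodule.span_induction with
      | mem z hz => obtain ⟨j, rfl⟩ := hz; exact hyV j
      | zero => rw [zero_div]; exact (Vf VL).zero_mem
      | add a b _ _ ha hb => rw [add_div]; exact (Vf VL).add_mem _ _ ha hb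
      | smul c a _ ha =>
        rw [Algebra.smul_def, mul_div_assoc]
        exact (Vf VL).mul_mem _ _ (hOV VL c) ha
    obtain ⟨ϖ, hϖ0, hϖ1⟩ := hϖ VL hVL
    refine ⟨y₀, h.mem, h.ne, hM₀V, ?_⟩
    rw [hchart']
    exact hd VL (Vf VL) (hVf VL) hyV (hOV VL) ϖ hϖ0 hϖ1 (by
      rw [hg1]; exact lt_irrefl _)
  -- the induction over the bad traits
  have key : ∀ T : Finset (ValuationSubring L),
      (∀ VL ∈ T, IsDiscreteValuationRing VL) →
      ∃ (D' : ℕ) (M' : Submodule O F), Inv M₀ D' M' ∧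
      (∀ W : ValuationSubring F, (∀ o, algebraMap O F o ∈ W) → Rg W M → Rg W M') ∧
      ∀ VL : ValuationSubring L, IsDiscreteValuationRing VL → (VL ∉ bad ∨ VL ∈ T) →
        Rg (Vf VL) M' := by
    intro T
    induction T using Finset.induction_on with
    | empty =>
      intro _
      refine ⟨D, M, hM, fun W _ hW => hW, ?_⟩
      rintro VL hVL (h6 | h6)
      · exact hM.pres _ (hOV VL) (hgood VL hVL h6)
      · exact absurd h6 (Finset.notMem_empty _)
    | insert VL₀ T _ ih =>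
      intro hT
      obtain ⟨D₁, M₁, hM₁, hW₁, hRg⟩ := ih fun VL hVL => hT VL (Finset.mem_insert_of_mem hVL)
      have hVL₀ : IsDiscreteValuationRing VL₀ := hT VL₀ (Finset.mem_insert_self _ _)
      have hfin := finite_residue VL₀ (ne_top_of_dvr VL₀)
      obtain ⟨ϖ, hϖ0, hϖ1⟩ := hϖ VL₀ hVL₀
      obtain ⟨g₀, hg₀, hg₀0⟩ := hM₁.ne
      obtain ⟨D', M', hD', hM', hle', hcomm', hg', hR, hW⟩ := add_trait (hVf VL₀) hOA hOL
        (hOV VL₀) hϖ0 hϖ1 h.mem h.ne h.MA h.fr hM₁.pos hM₁.fg hM₁.le hM₁.comm hg₀ hg₀0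
      refine ⟨D', M', ⟨hD', hM', hle', hcomm', hg', fun W hOW hW₀ => hW W hOW
        (hM₁.pres W hOW hW₀)⟩, fun W hOW hWM => hW W hOW (hW₁ W hOW hWM), ?_⟩
      intro VL hVL h6
      by_cases h7 : VL = VL₀
      · rw [h7]; exact hR
      · refine hW _ (hOV VL) (hRg VL hVL ?_)
        rcases h6 with h6 | h6
        · exact Or.inl h6
        · exact Or.inr (Finset.mem_of_mem_insert_of_ne h6 h7)
  obtain ⟨D', M', hM', hW', hRg⟩ := key (hbad.toFinset.filter fun VL =>
    IsDiscreteValuationRing VL) (fun VL hVL => (Finset.mem_filter.1 hVL).2)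
  refine ⟨D', M', hM', hW', fun VL hVL => hRg VL hVL ?_⟩
  by_cases h6 : VL ∈ bad
  · exact Or.inr (Finset.mem_filter.2 ⟨(Set.Finite.mem_toFinset hbad).2 h6, hVL⟩)
  · exact Or.inl h6

lemma Inv.init [IsDomain O] {M₀ : Submodule O F} (hM₀ : M₀.FG) (hne : ∃ g ∈ M₀, g ≠ 0) :
    Inv M₀ 1 M₀ :=
  ⟨le_rfl, hM₀, by rw [pow_one], fun y hy => ⟨1, one_ne_zero, by
    rw [one_smul]; rwa [pow_one] at hy⟩, hne, fun W _ h => h⟩

/-- Finitely many points. -/
theorem points_module [IsDomain O] [IsRegularRing O] (hint : ∀ o : O, IsIntegral ℤ o)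
    {M₀ : Submodule O F} (hM₀ : M₀.FG) (hne : ∃ g ∈ M₀, g ≠ 0) {T : Type} [Finite T]
    (L : T → Type) [∀ t, Field (L t)] [∀ t, NumberField (L t)] (A : T → Subring F)
    (π : ∀ t, A t →+* L t) (y₀ : T → F) (h : ∀ t, Pt M₀ (A t) (π t) (y₀ t))
    (Vf : ∀ t, ValuationSubring (L t) → ValuationSubring F)
    (hVf : ∀ t VL, Tr (A t) (π t) VL (Vf t VL)) :
    ∃ (D : ℕ) (M : Submodule O F), Inv M₀ D M ∧
      ∀ t, ∀ VL : ValuationSubring (L t), IsDiscreteValuationRing VL → Rg (Vf t VL) M := by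
  classical
  have := Fintype.ofFinite T
  have key : ∀ S : Finset T, ∃ (D : ℕ) (M : Submodule O F), Inv M₀ D M ∧
      ∀ t ∈ S, ∀ VL : ValuationSubring (L t), IsDiscreteValuationRing VL →
        Rg (Vf t VL) M := by
    intro S
    induction S using Finset.induction_on with
    | empty => exact ⟨1, M₀, Inv.init hM₀ hne, fun t ht => absurd ht (Finset.notMem_empty _)⟩
    | insert t₀ S _ ih =>
      obtain ⟨D, M, hM, hS⟩ := ih
      obtain ⟨D', M', hM', hW, hR⟩ := (h t₀).step hint hM₀ (hVf t₀) hM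
      refine ⟨D', M', hM', fun t ht VL hVL => ?_⟩
      by_cases h1 : t = t₀
      · subst h1
        exact hR VL hVL
      · refine hW _ (fun o => ?_) (hS t (Finset.mem_of_mem_insert_of_ne ht h1) VL hVL)
        exact ((hVf t VL).mem ⟨_, (h t).OA o⟩).2 (map_mem_val hint
          ((π t).comp ((algebraMap O F).codRestrict (A t) (h t).OA)) VL o)
  obtain ⟨D, M, hM, hS⟩ := key Finset.univ
  exact ⟨D, M, hM, fun t => hS t (Finset.mem_univ t)⟩

section pt

variable {K : Type} [Field K] [Algebra O K] [IsDomain O] [IsFractionRing O K] [Algebra K F]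
  [IsScalarTower O K F]

/-- The local ring of a point of the generic fibre. -/
theorem pt_of {ι : Type} [Fintype ι] (y : ι → F) (hy : ∀ i, y i ≠ 0)
    (i₀ : ι) (α : (Algebra.adjoin K (Set.range fun j => y j / y i₀)).toSubring →+* L)
    [hkp : (RingHom.ker α).IsPrime]
    (hreg : IsRegularLocalRing (Localization.AtPrime (RingHom.ker α))) :
    ∃ (A : Subring F) (π : A →+* L)
      (hA : (Algebra.adjoin K (Set.range fun j => y j / y i₀)).toSubring ≤ A),
      (∀ b, π ⟨_, hA (Subtype.coe_prop b)⟩ = α b) ∧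
      Pt (Submodule.span O (Set.range y)) A π (y i₀) := by
  classical
  obtain ⟨A, π, hA, hAreg, hπα, hunit, hfr⟩ := loc_data α hreg
  have hOK : Function.Injective (algebraMap O K) := IsFractionRing.injective O K
  have hOF : Function.Injective (algebraMap O F) := by
    rw [IsScalarTower.algebraMap_eq O K F]
    exact (algebraMap K F).injective.comp hOK
  have hKB : ∀ k : K, algebraMap K F k ∈
      (Algebra.adjoin K (Set.range fun j => y j / y i₀)).toSubring := fun k =>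
    Subalgebra.algebraMap_mem _ k
  have hOB : ∀ o : O, algebraMap O F o ∈
      (Algebra.adjoin K (Set.range fun j => y j / y i₀)).toSubring := fun o => by
    rw [IsScalarTower.algebraMap_apply O K F]
    exact hKB _
  have hOA : ∀ o : O, algebraMap O F o ∈ A := fun o => hA (hOB o)
  have hKL : Function.Injective (fun k : K => α ⟨_, hKB k⟩) :=
    ((α.comp ((algebraMap K F).codRestrict
      (Algebra.adjoin K (Set.range fun j => y j / y i₀)).toSubring hKB)).injective)
  have hOL : ∀ o : O, o ≠ 0 → π ⟨_, hOA o⟩ ≠ 0 := by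
    intro o ho h
    have h1 := hπα ⟨_, hOB o⟩
    have h2 : α ⟨_, hOB o⟩ = 0 := h1.symm.trans h
    apply ho
    apply hOK
    rw [map_zero]
    apply hKL
    have e1 : (⟨algebraMap K F (algebraMap O K o), hKB _⟩ :
        (Algebra.adjoin K (Set.range fun j => y j / y i₀)).toSubring) = ⟨_, hOB o⟩ := Subtype.ext
      (IsScalarTower.algebraMap_apply O K F o).symm
    have e2 : (⟨algebraMap K F 0, hKB _⟩ :
        (Algebra.adjoin K (Set.range fun j => y j / y i₀)).toSubring) = 0 :=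
      Subtype.ext (map_zero _)
    change α ⟨algebraMap K F (algebraMap O K o), hKB _⟩ = α ⟨algebraMap K F 0, hKB _⟩
    rw [e1, e2, h2, map_zero]
  have hyB : ∀ j, y j / y i₀ ∈ (Algebra.adjoin K (Set.range fun j => y j / y i₀)).toSubring :=
    fun j => Algebra.subset_adjoin ⟨j, rfl⟩
  have hxA : ∀ j, y j / y i₀ ∈ A := fun j => hA (hyB j)
  set M₀ : Submodule O F := Submodule.span O (Set.range y) with hM₀
  have hchart : chart O M₀ (y i₀) = Algebra.adjoin O (Set.range fun j => y j / y i₀) :=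
    chart_span y (y i₀)
  have hy₀ : y i₀ ∈ M₀ := Submodule.subset_span ⟨i₀, rfl⟩
  have hB₀A : (chart O M₀ (y i₀)).toSubring ≤ A := by
    let A' : Subalgebra O F := { A with algebraMap_mem' := hOA }
    have : chart O M₀ (y i₀) ≤ A' := by
      rw [hchart]
      refine Algebra.adjoin_le ?_
      rintro _ ⟨i, rfl⟩
      exact hxA i
    exact this
  have hM₀A : ∀ m ∈ M₀, m / y i₀ ∈ A := fun m hm =>
    hB₀A (Algebra.subset_adjoin ⟨m, hm, rfl⟩)
  -- fractions
  have hden : ∀ b : F, b ∈ (Algebra.adjoin K (Set.range fun j => y j / y i₀)).toSubring →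
      ∃ o : O, o ≠ 0 ∧ b * algebraMap O F o ∈ chart O M₀ (y i₀) := by
    intro b hb
    have hb' : b ∈ Algebra.adjoin K (Set.range fun j => y j / y i₀) := hb
    clear hb
    induction hb' using Algebra.adjoin_induction with
    | mem b hb1 =>
      obtain ⟨j, rfl⟩ := hb1
      refine ⟨1, one_ne_zero, ?_⟩
      rw [map_one, mul_one, hchart]
      exact Algebra.subset_adjoin ⟨j, rfl⟩
    | algebraMap k =>
      obtain ⟨a, o, ho, hk⟩ := IsFractionRing.div_surjective (A := O) k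
      have h1 : algebraMap O K o ≠ 0 := IsFractionRing.to_map_ne_zero_of_mem_nonZeroDivisors ho
      refine ⟨o, nonZeroDivisors.ne_zero ho, ?_⟩
      have : algebraMap K F k * algebraMap O F o = algebraMap O F a := by
        rw [IsScalarTower.algebraMap_apply O K F, IsScalarTower.algebraMap_apply O K F,
          ← map_mul, ← hk, div_mul_cancel₀ _ h1]
      rw [this]
      exact Subalgebra.algebraMap_mem _ a
    | add a b hax hbx ha hb =>
      obtain ⟨o, ho, hao⟩ := ha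
      obtain ⟨o', ho', hbo⟩ := hb
      refine ⟨o * o', mul_ne_zero ho ho', ?_⟩
      have h1 : (a + b) * algebraMap O F (o * o') = a * algebraMap O F o * algebraMap O F o' +
          b * algebraMap O F o' * algebraMap O F o := by rw [map_mul]; ring
      rw [h1]
      exact Subalgebra.add_mem _ (Subalgebra.mul_mem _ hao (Subalgebra.algebraMap_mem _ _))
        (Subalgebra.mul_mem _ hbo (Subalgebra.algebraMap_mem _ _))
    | mul a b hax hbx ha hb =>
      obtain ⟨o, ho, hao⟩ := ha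
      obtain ⟨o', ho', hbo⟩ := hb
      refine ⟨o * o', mul_ne_zero ho ho', ?_⟩
      have h1 : a * b * algebraMap O F (o * o') = (a * algebraMap O F o) *
          (b * algebraMap O F o') := by rw [map_mul]; ring
      rw [h1]
      exact Subalgebra.mul_mem _ hao hbo
  refine ⟨A, π, hA, hπα, hAreg, hunit, hOA, hOL, hy₀, hy i₀, hM₀A, ?_⟩
  intro a ha
  obtain ⟨b, c, hc, rfl⟩ := hfr a ha
  obtain ⟨o, ho, hbo⟩ := hden b b.2
  obtain ⟨o', ho', hco⟩ := hden c c.2
  have hcπ : π ⟨c, hA c.2⟩ ≠ 0 := by rw [hπα]; exact hc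
  have hne : ∀ (z : F) (hz : z ∈ A), π ⟨z, hz⟩ ≠ 0 → z ≠ 0 := by
    intro z hz h h0
    apply h
    have : (⟨z, hz⟩ : A) = 0 := Subtype.ext h0
    rw [this, map_zero]
  refine ⟨b * algebraMap O F o * algebraMap O F o',
    Subalgebra.mul_mem _ hbo (Subalgebra.algebraMap_mem _ _),
    c * algebraMap O F o' * algebraMap O F o,
    Subalgebra.mul_mem _ hco (Subalgebra.algebraMap_mem _ _),
    A.mul_mem (A.mul_mem (hA c.2) (hOA _)) (hOA _), ?_, ?_⟩
  · have h1 : (⟨c * algebraMap O F o' * algebraMap O F o,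
        A.mul_mem (A.mul_mem (hA c.2) (hOA _)) (hOA _)⟩ : A) =
        ⟨c, hA c.2⟩ * ⟨_, hOA o'⟩ * ⟨_, hOA o⟩ := rfl
    rw [h1, map_mul, map_mul]
    exact mul_ne_zero (mul_ne_zero hcπ (hOL _ ho')) (hOL _ ho)
  · have h1 := hne _ _ hcπ
    have h2 := hne _ _ (hOL _ ho)
    have h3 := hne _ _ (hOL _ ho')
    field_simp

end pt

end Pool.Agent.TH188.ARC
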