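import Pool.Agent.TH188.ARC.A14

/-!
# The local ring of the point on the model; valuation rings of number fields
-/

set_option autoImplicit false
set_option linter.unusedVariables false
set_option linter.unusedSectionVars false

open NumberField

namespace Pool.Agent.TH188.ARC

open IsLocalRing Pool.Agent.TH188.QS Pool.Agent.W418.LU2 Pool.Agent.H918R2.Quad

/-- The valuation rings of a number field are discrete. -/
theorem dvr_of_ne_top {L : Type} [Field L] [NumberField L] (V : ValuationSubring L)
    (hV : V ≠ ⊤) : IsDiscreteValuationRing V := by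
  have hS : (ctr V).primeCompl ≤ nonZeroDivisors (𝓞 L) := Ideal.primeCompl_le_nonZeroDivisors _
  let B := Localization.subalgebra.ofField L (ctr V).primeCompl hS
  have hmem : ∀ x : L, x ∈ B ↔ ∃ (a s : 𝓞 L) (_ : s ∈ (ctr V).primeCompl),
      x = algebraMap (𝓞 L) L a * (algebraMap (𝓞 L) L s)⁻¹ := fun x => Iff.rfl
  have hloc : IsLocalization.AtPrime B (ctr V) :=
    Localization.subalgebra.isLocalization_ofField L (ctr V).primeCompl hS
  have hdvr : IsDiscreteValuationRing B :=
    IsLocalization.AtPrime.isDiscreteValuationRing_of_dedekind_domain (𝓞 L) (ctr_ne_bot V hV) B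
  have hBV : ∀ x : L, x ∈ B ↔ x ∈ V := by
    intro x
    constructor
    · intro hx
      obtain ⟨a, s, hs, rfl⟩ := (hmem x).1 hx
      rw [← V.valuation_le_one_iff, map_mul, map_inv₀, one_of_notMem hs, inv_one, mul_one]
      exact (V.valuation_le_one_iff _).2 (int_mem V a)
    · intro hx
      obtain ⟨a, b, hb, h⟩ := exists_frac V hV hx
      exact (hmem x).2 ⟨a, b, hb, h⟩
  let e : B ≃+* V :=
    { toFun := fun x => ⟨x, (hBV x).1 x.2⟩
      invFun := fun x => ⟨x, (hBV x).2 x.2⟩
      left_inv := fun x => rfl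
      right_inv := fun x => rfl
      map_mul' := fun x y => rfl
      map_add' := fun x y => rfl }
  exact IsDiscreteValuationRing.RingEquivClass.isDiscreteValuationRing e

variable {O F L : Type} [CommRing O] [Field F] [Algebra O F] [Field L]

/-- The local ring of the point is regular. -/
theorem ker_regular {A : Subring F} {π : A →+* L} (hreg : IsRegularLocalRing A)
    (hunit : ∀ a : A, π a ≠ 0 → (a : F)⁻¹ ∈ A) {B : Subring F} (hBA : B ≤ A)
    (hfr : ∀ a ∈ A, ∃ b ∈ B, ∃ c ∈ B, ∃ hc : c ∈ A, π ⟨c, hc⟩ ≠ 0 ∧ a = b * c⁻¹)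
    [hp : (RingHom.ker (π.comp (Subring.inclusion hBA))).IsPrime] :
    IsRegularLocalRing (Localization.AtPrime (RingHom.ker (π.comp (Subring.inclusion hBA)))) := by
  set P := RingHom.ker (π.comp (Subring.inclusion hBA)) with hP
  have hPm : ∀ b : B, b ∈ P ↔ π (Subring.inclusion hBA b) = 0 := fun b => RingHom.mem_ker
  have hne : ∀ (z : F) (hz : z ∈ A), π ⟨z, hz⟩ ≠ 0 → z ≠ 0 := by
    intro z hz h h0
    apply h
    have : (⟨z, hz⟩ : A) = 0 := Subtype.ext h0
    rw [this, map_zero]
  have hι : ∀ y : P.primeCompl, IsUnit (Subring.inclusion hBA y) := by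
    intro y
    have h1 : π (Subring.inclusion hBA (y : B)) ≠ 0 := fun h => y.2 ((hPm _).2 h)
    exact isUnit_iff_exists_inv.2 ⟨⟨_, hunit _ h1⟩,
      Subtype.ext (mul_inv_cancel₀ (hne _ _ h1))⟩
  let θ : Localization.AtPrime P →+* A := IsLocalization.lift (M := P.primeCompl) hι
  have hθ : Function.Bijective θ := by
    refine ⟨?_, ?_⟩
    · rw [injective_iff_map_eq_zero]
      intro z hz
      obtain ⟨a, y, rfl⟩ := IsLocalization.exists_mk'_eq P.primeCompl z
      have h1 : Subring.inclusion hBA a = Subring.inclusion hBA y * 0 :=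
        (IsLocalization.lift_mk'_spec (S := Localization.AtPrime P) (hg := hι) a 0 y).1 hz
      rw [mul_zero] at h1
      have h2 : a = 0 := Subtype.ext (congrArg (fun w : A => (w : F)) h1)
      rw [h2, IsLocalization.mk'_zero]
    · rintro ⟨a, ha⟩
      obtain ⟨b, hb, c, hc, hcA, hπc, habc⟩ := hfr a ha
      have hcP : (⟨c, hc⟩ : B) ∈ P.primeCompl := fun h => hπc ((hPm _).1 h)
      refine ⟨IsLocalization.mk' _ (⟨b, hb⟩ : B) ⟨⟨c, hc⟩, hcP⟩, ?_⟩
      rw [IsLocalization.lift_mk'_spec]
      apply Subtype.ext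
      change b = c * a
      have hc0 := hne c hcA hπc
      rw [habc]
      field_simp
  exact IsRegularLocalRing.of_ringEquiv (RingEquiv.ofBijective θ hθ).symm

end Pool.Agent.TH188.ARC
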