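import Pool.Agent.TH188.ARC.A15

/-!
# The local rings of the models and their levels
-/

set_option autoImplicit false
set_option linter.unusedVariables false
set_option linter.unusedSectionVars false

namespace Pool.Agent.TH188.ARC

open IsLocalRing Pool.Agent.TH188.QS Pool.Agent.W418.LU2 Pool.Agent.H918R2.Quad

variable {O F : Type} [CommRing O] [Field F] [Algebra O F]

/-- `Q` is the local ring of the model attached to `M` at the centre of `W`. -/
def LR (W : ValuationSubring F) (M : Submodule O F) (Q : Subring F) : Prop :=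
  ∃ g ∈ M, g ≠ 0 ∧ (∀ m ∈ M, m / g ∈ W) ∧ lo W.toSubring (chart O M g).toSubring = Q

lemma LR.unique {W : ValuationSubring F} (hOW : ∀ o, algebraMap O F o ∈ W) {M : Submodule O F}
    {Q Q' : Subring F} (h : LR W M Q) (h' : LR W M Q') : Q = Q' := by
  obtain ⟨g, hg, hg0, hgW, rfl⟩ := h
  obtain ⟨g', hg', hg'0, hg'W, rfl⟩ := h'
  exact lo_chart_eq hOW hg hg0 hg' hg'0 hgW hg'W

/-- The local ring becomes regular after at most `n` quadratic transforms. -/
def Lv (W : ValuationSubring F) (M : Submodule O F) (n : ℕ) : Prop :=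
  ∃ Q, LR W M Q ∧ ∃ m ≤ n, IsRegularLocalRing ((qt W.toSubring)^[m] Q : Subring F)

lemma Lv.rg {W : ValuationSubring F} {M : Submodule O F} (h : Lv W M 0) : Rg W M := by
  obtain ⟨Q, ⟨g, hg, hg0, hgW, rfl⟩, m, hm, hr⟩ := h
  obtain rfl : m = 0 := by omega
  exact ⟨g, hg, hg0, hgW, hr⟩

lemma qseq_eq (W : ValuationSubring F) (B : Subring F) (n : ℕ) :
    qseq W B n = (qt W.toSubring)^[n] (lo W.toSubring B) := by
  induction n with
  | zero => rfl
  | succ n ih =>
    rw [Function.iterate_succ_apply', ← ih]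
    rfl

/-- The effect of a step on the local ring at the centre of `W`. -/
theorem step_LR [IsNoetherianRing O] [IsDomain O] {V : ValuationSubring F}
    (hOV : ∀ o, algebraMap O F o ∈ V) {ϖ : O} (hϖ0 : algebraMap O F ϖ ≠ 0)
    (hϖ : V.valuation (algebraMap O F ϖ) < 1) {M : Submodule O F} {g : F}
    (hg : g ∈ M) (hg0 : g ≠ 0) (hMV : ∀ m ∈ M, m / g ∈ V) {k : ℕ} (hk : 1 ≤ k)
    {j : F} (hj : j ∈ M) (hj0 : j ≠ 0)
    (hsj : (∀ m ∈ M, m / j ∈ V) → ∃ s : Finset (chart O M j).toSubring,
      (∀ b : (chart O M j).toSubring,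
        b ∈ Ideal.span (s : Set (chart O M j).toSubring) ↔ V.valuation (b : F) < 1) ∧
      ∀ y ∈ s, (y : F) * j ^ k ∈ M ^ k)
    (hmax : (∀ m ∈ M, m / j ∈ V) → ∀ b ∈ chart O M j, ¬ V.valuation b < 1 →
      ∃ c ∈ chart O M j, V.valuation (b * c - 1) < 1)
    {W : ValuationSubring F} (hOW : ∀ o, algebraMap O F o ∈ W) (hMW : ∀ m ∈ M, m / j ∈ W) :
    (lo W.toSubring (chart O M j).toSubring = lo V.toSubring (chart O M g).toSubring →
      (∃ e, Mi W.toSubring (lo W.toSubring (chart O M j).toSubring) e) ∧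
      LR W (cut V hOV (M ^ (k + 1)) (g ^ (k + 1)))
        (qt W.toSubring (lo W.toSubring (chart O M j).toSubring))) ∧
    (lo W.toSubring (chart O M j).toSubring ≠ lo V.toSubring (chart O M g).toSubring →
      LR W (cut V hOV (M ^ (k + 1)) (g ^ (k + 1))) (lo W.toSubring (chart O M j).toSubring)) := by
  classical
  have hBW := chart_le_V hOW hMW
  have hBVg := chart_le_V hOV hMV
  have hle : cut V hOV (M ^ (k + 1)) (g ^ (k + 1)) ≤ M ^ (k + 1) := fun m hm => hm.1
  have hjg : j / g ∈ V := hMV j hj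
  have hjg0 : j / g ≠ 0 := div_ne_zero hj0 hg0
  have hgk : g ^ (k + 1) ≠ 0 := pow_ne_zero _ hg0
  have hjk : j ^ (k + 1) ≠ 0 := pow_ne_zero _ hj0
  by_cases hcase : V.valuation (j / g) < 1
  · -- the chart of `j` does not contain the centre
    have hmem : j ^ (k + 1) ∈ cut V hOV (M ^ (k + 1)) (g ^ (k + 1)) :=
      ⟨Submodule.pow_mem_pow _ hj _, by
        rw [← div_pow, map_pow]
        exact pow_lt_one₀ zero_le hcase (Nat.succ_ne_zero k)⟩
    obtain ⟨hx0, hM'W, hlo⟩ := other_aux (x := j ^ (k + 1)) hOW hle hj0 hMW hmem (by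
        rw [div_self hjk, map_one]
        exact lt_irrefl _) (by
        intro m hm
        have h1 : m / j * j ^ (k + 1) = m * j ^ k := by
          rw [pow_succ]
          field_simp
        rw [h1]
        refine ⟨by rw [pow_succ' M]; exact Submodule.mul_mem_mul hm (Submodule.pow_mem_pow _ hj _),
          ?_⟩
        have h2 : m * j ^ k / g ^ (k + 1) = m / g * (j / g) ^ k := by
          rw [pow_succ, div_pow]
          field_simp
        rw [h2, map_mul, map_pow]
        exact mul_lt_one_aux ((V.valuation_le_one_iff _).2 (hMV m hm))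
          (pow_lt_one₀ zero_le hcase (by omega)))
    refine ⟨fun heq => ?_, fun _ => ⟨_, hmem, hx0, hM'W, hlo⟩⟩
    exfalso
    have h1 : g / j ∈ lo W.toSubring (chart O M j).toSubring :=
      le_lo _ _ (Algebra.subset_adjoin ⟨g, hg, rfl⟩)
    rw [heq] at h1
    have h2 := lo_le hBVg h1
    rw [val_lt_iff hjg0, inv_div] at hcase
    exact hcase h2
  · have hgj : g / j ∈ V := by
      rw [val_lt_iff hjg0, not_not, inv_div] at hcase
      exact hcase
    have hMVj : ∀ m ∈ M, m / j ∈ V := fun m hm => by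
      have h1 : m / j = m / g * (g / j) := by field_simp
      rw [h1]
      exact V.mul_mem _ _ (hMV m hm) hgj
    have hBV := chart_le_V hOV hMVj
    have hVlo : lo V.toSubring (chart O M g).toSubring =
        lo V.toSubring (chart O M j).toSubring := lo_chart_eq hOV hg hg0 hj hj0 hMV hMVj
    have hcut : cut V hOV (M ^ (k + 1)) (g ^ (k + 1)) = cut V hOV (M ^ (k + 1)) (j ^ (k + 1)) := by
      have e1 : ∀ m : F, m / g ^ (k + 1) = (j / g) ^ (k + 1) * (m / j ^ (k + 1)) := fun m => by
        rw [div_pow]; field_simp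
      have e2 : ∀ m : F, m / j ^ (k + 1) = (g / j) ^ (k + 1) * (m / g ^ (k + 1)) := fun m => by
        rw [div_pow]; field_simp
      have l1 : V.valuation ((j / g) ^ (k + 1)) ≤ 1 :=
        (V.valuation_le_one_iff _).2 (V.toSubring.pow_mem hjg _)
      have l2 : V.valuation ((g / j) ^ (k + 1)) ≤ 1 :=
        (V.valuation_le_one_iff _).2 (V.toSubring.pow_mem hgj _)
      ext m
      constructor
      · rintro ⟨h1, h2⟩
        refine ⟨h1, ?_⟩
        rw [e2, map_mul]
        exact mul_lt_one_aux l2 h2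
      · rintro ⟨h1, h2⟩
        refine ⟨h1, ?_⟩
        rw [e1, map_mul]
        exact mul_lt_one_aux l1 h2
    rw [hcut, hVlo]
    obtain ⟨s, hs, hks⟩ := hsj hMVj
    have hle' : cut V hOV (M ^ (k + 1)) (j ^ (k + 1)) ≤ M ^ (k + 1) := fun m hm => hm.1
    by_cases hall : ∀ b : (chart O M j).toSubring, V.valuation (b : F) < 1 ↔
        W.valuation (b : F) < 1
    · -- the centres agree
      have hcutW : cut V hOV (M ^ (k + 1)) (j ^ (k + 1)) =
          cut W hOW (M ^ (k + 1)) (j ^ (k + 1)) := by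
        ext m
        constructor
        · rintro ⟨h1, h2⟩
          exact ⟨h1, (hall ⟨_, pow_div_mem hj0 _ m h1⟩).1 h2⟩
        · rintro ⟨h1, h2⟩
          exact ⟨h1, (hall ⟨_, pow_div_mem hj0 _ m h1⟩).2 h2⟩
      rw [hcutW]
      have hϖW : W.valuation (algebraMap O F ϖ) < 1 :=
        (hall ⟨_, Subalgebra.algebraMap_mem (chart O M j) ϖ⟩).1 hϖ
      obtain ⟨g', hg', hg'0, hM'W, he, hlo⟩ := step_core hOW hϖ0 hϖW hj hj0 hMW s
        (fun b => (hs b).trans (hall b)) k hks
      refine ⟨fun _ => ⟨he, g', hg', hg'0, hM'W, hlo⟩, fun hne => absurd ?_ hne⟩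
      have hden : ∀ (b : F) (hb : b ∈ (chart O M j).toSubring), b ≠ 0 → (b⁻¹ ∈ W ↔ b⁻¹ ∈ V) := by
        intro b hb hb0
        have h1 := hall ⟨b, hb⟩
        have h2 : (V.valuation b < 1 ↔ b⁻¹ ∉ V) := val_lt_iff hb0
        have h3 : (W.valuation b < 1 ↔ b⁻¹ ∉ W) := val_lt_iff hb0
        have h4 : V.valuation b < 1 ↔ W.valuation b < 1 := h1
        tauto
      apply le_antisymm
      · rintro _ ⟨a, ha, b, hb, hb0, hbi, rfl⟩
        exact ⟨a, ha, b, hb, hb0, (hden b hb hb0).1 hbi, rfl⟩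
      · rintro _ ⟨a, ha, b, hb, hb0, hbi, rfl⟩
        exact ⟨a, ha, b, hb, hb0, (hden b hb hb0).2 hbi, rfl⟩
    · -- the centres are different
      refine ⟨fun heq => absurd ?_ hall, fun _ => ?_⟩
      · intro b
        have hbQ : (b : F) ∈ lo W.toSubring (chart O M j).toSubring := le_lo _ _ b.2
        have hbQ' : (b : F) ∈ lo V.toSubring (chart O M j).toSubring := le_lo _ _ b.2
        by_cases hb0 : (b : F) = 0
        · rw [hb0, map_zero, map_zero]
          exact ⟨fun _ => zero_lt_one, fun _ => zero_lt_one⟩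
        rw [val_lt_iff hb0, val_lt_iff hb0, not_iff_not]
        constructor
        · intro h1
          have h2 := ic_lo hBV _ hbQ' hb0 h1
          rw [← heq] at h2
          exact lo_le hBW h2
        · intro h1
          have h2 := ic_lo hBW _ hbQ hb0 h1
          rw [heq] at h2
          exact lo_le hBV h2
      have hy : ∃ y ∈ s, ¬ W.valuation (y : F) < 1 := by
        by_contra hcon
        push Not at hcon
        apply hall
        have hVW : ∀ b : (chart O M j).toSubring, V.valuation (b : F) < 1 →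
            W.valuation (b : F) < 1 := by
          intro b hb
          rw [← hs] at hb
          induction hb using Submodule.span_induction with
          | mem y hy => exact hcon y hy
          | zero => rw [ZeroMemClass.coe_zero, map_zero]; exact zero_lt_one
          | add a b _ _ ha hb =>
            rw [Subring.coe_add]
            exact Valuation.map_add_lt _ ha hb
          | smul c a _ ha =>
            rw [smul_eq_mul, Subring.coe_mul, map_mul]
            exact mul_lt_one_aux ((W.valuation_le_one_iff _).2 (hBW c.2)) ha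
        intro b
        refine ⟨hVW b, fun hb => ?_⟩
        by_contra hn
        obtain ⟨c, hc, hbc⟩ := hmax hMVj b b.2 hn
        have h1 := hVW (b * ⟨c, hc⟩ - 1) hbc
        have h2 : W.valuation ((b : F) * c) < 1 := by
          rw [map_mul, mul_comm]
          exact mul_lt_one_aux ((W.valuation_le_one_iff _).2 (hBW hc)) hb
        have h3 : (1 : F) = (b : F) * c - ((b * ⟨c, hc⟩ - 1 : (chart O M j).toSubring) : F) := by
          change (1 : F) = (b : F) * c - ((b : F) * c - 1)
          ring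
        have h4 : W.valuation (1 : F) < 1 := by
          rw [h3, sub_eq_add_neg]
          refine Valuation.map_add_lt _ h2 ?_
          rw [Valuation.map_neg]
          exact h1
        rw [map_one] at h4
        exact lt_irrefl _ h4
      obtain ⟨y, hys, hyW⟩ := hy
      have hyV : V.valuation (y : F) < 1 := (hs y).1 (Ideal.subset_span hys)
      have hyk := hks y hys
      have hyM : (y : F) * j ^ (k + 1) ∈ cut V hOV (M ^ (k + 1)) (j ^ (k + 1)) := by
        refine ⟨?_, ?_⟩
        · have h1 : (y : F) * j ^ (k + 1) = (y : F) * j ^ k * j := by rw [pow_succ, mul_assoc]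
          rw [h1, pow_succ M]
          exact Submodule.mul_mem_mul hyk hj
        · rw [mul_div_cancel_right₀ _ hjk]
          exact hyV
      obtain ⟨hx0, hM'W, hlo⟩ := other_aux (x := (y : F) * j ^ (k + 1)) hOW hle' hj0 hMW hyM (by
          rw [mul_div_cancel_right₀ _ hjk]
          exact hyW) (by
          intro m hm
          have h1 : m / j * ((y : F) * j ^ (k + 1)) = m * ((y : F) * j ^ k) := by
            rw [pow_succ]
            field_simp
          rw [h1]
          refine ⟨by rw [pow_succ' M]; exact Submodule.mul_mem_mul hm hyk, ?_⟩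
          have h2 : m * ((y : F) * j ^ k) / j ^ (k + 1) = m / j * y := by
            rw [pow_succ]
            field_simp
          rw [h2, map_mul]
          exact mul_lt_one_aux ((V.valuation_le_one_iff _).2 (hMVj m hm)) hyV)
      exact ⟨_, hyM, hx0, hM'W, hlo⟩

/-- One step at `V`: the effect on all the local rings. -/
theorem step_all_LR [IsNoetherianRing O] [IsDomain O] {V : ValuationSubring F}
    (hOV : ∀ o, algebraMap O F o ∈ V) {ϖ : O} (hϖ0 : algebraMap O F ϖ ≠ 0)
    (hϖ : V.valuation (algebraMap O F ϖ) < 1) {M : Submodule O F} (hM : M.FG) {QV : Subring F}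
    (hQV : LR V M QV)
    (hmax : ∀ j ∈ M, j ≠ 0 → (∀ m ∈ M, m / j ∈ V) → ∀ b ∈ chart O M j, ¬ V.valuation b < 1 →
      ∃ c ∈ chart O M j, V.valuation (b * c - 1) < 1) :
    ∃ (D : ℕ) (M' : Submodule O F), 1 ≤ D ∧ M'.FG ∧ M' ≤ M ^ D ∧
      (∀ y ∈ M ^ D, ϖ • y ∈ M') ∧ (∃ g ∈ M', g ≠ 0) ∧
      ∀ W : ValuationSubring F, (∀ o, algebraMap O F o ∈ W) → ∀ Q, LR W M Q →
        (Q = QV → (∃ e, Mi W.toSubring Q e) ∧ Q ≤ W.toSubring ∧ IC W.toSubring Q ∧
          LR W M' (qt W.toSubring Q)) ∧
        (Q ≠ QV → LR W M' Q) := by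
  classical
  obtain ⟨g, hg, hg0, hMV, rfl⟩ := hQV
  obtain ⟨G, hG⟩ := hM
  have hGM : ∀ j ∈ G, j ∈ M := fun j hj => by rw [← hG]; exact Submodule.subset_span hj
  have hM : M.FG := ⟨G, hG⟩
  have hk : ∀ j : F, ∃ k₀ : ℕ, j ∈ M → j ≠ 0 → (∀ m ∈ M, m / j ∈ V) →
      ∃ s : Finset (chart O M j).toSubring, (∀ b : (chart O M j).toSubring,
        b ∈ Ideal.span (s : Set (chart O M j).toSubring) ↔ V.valuation (b : F) < 1) ∧
      ∀ k, k₀ ≤ k → ∀ y ∈ s, (y : F) * j ^ k ∈ M ^ k := by
    intro j
    by_cases h : j ∈ M ∧ j ≠ 0 ∧ ∀ m ∈ M, m / j ∈ V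
    · obtain ⟨k₀, s, h1, h2⟩ := exists_bound hOV hM h.1 h.2.1 h.2.2
      exact ⟨k₀, fun _ _ _ => ⟨s, h1, h2⟩⟩
    · exact ⟨0, fun h1 h2 h3 => absurd ⟨h1, h2, h3⟩ h⟩
  choose kk hkk using hk
  set k : ℕ := max 1 (max (kk g) (G.sup kk)) with hkdef
  have hk1 : 1 ≤ k := le_max_left _ _
  have hkg : kk g ≤ k := (le_max_left _ _).trans (le_max_right _ _)
  have hkG : ∀ j ∈ G, kk j ≤ k := fun j hj =>
    (Finset.le_sup hj).trans ((le_max_right _ _).trans (le_max_right _ _))
  obtain ⟨s, hs, hks⟩ := hkk g hg hg0 hMV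
  obtain ⟨g', hg', hg'0, hM'V, -, hlo⟩ := step_core hOV hϖ0 hϖ hg hg0 hMV s hs k (hks k hkg)
  have hBV := chart_le_V hOV hMV
  refine ⟨k + 1, cut V hOV (M ^ (k + 1)) (g ^ (k + 1)), Nat.succ_le_succ (Nat.zero_le _), ?_,
    fun m hm => hm.1, ?_, ⟨g', hg', hg'0⟩, ?_⟩
  · have h1 : (M ^ (k + 1)).FG := hM.pow _
    have h2 : IsNoetherian O (M ^ (k + 1) : Submodule O F) := isNoetherian_of_fg_of_noetherian _ h1
    have h3 : IsNoetherian O (cut V hOV (M ^ (k + 1)) (g ^ (k + 1))) :=
      isNoetherian_of_le fun m hm => hm.1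
    exact Module.Finite.iff_fg.1 inferInstance
  · intro y hy
    refine ⟨Submodule.smul_mem _ _ hy, ?_⟩
    rw [Algebra.smul_def, mul_div_assoc, map_mul]
    exact mul_lt_one_aux' hϖ ((V.valuation_le_one_iff _).2 (hBV (pow_div_mem hg0 _ y hy)))
  · rintro W hOW Q ⟨gW, hgW, hgW0, hMgW, hQ⟩
    -- the generator of largest value
    have hne : (G.filter fun j => j ≠ 0).Nonempty := by
      by_contra h
      rw [Finset.not_nonempty_iff_eq_empty] at h
      apply hg0
      have h1 : g ∈ Submodule.span O (G : Set F) := by rw [hG]; exact hg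
      have h2 : Submodule.span O (G : Set F) ≤ ⊥ := by
        rw [Submodule.span_le]
        intro j hj
        by_contra hj0
        have : j ∈ G.filter fun j => j ≠ 0 := Finset.mem_filter.2 ⟨hj, hj0⟩
        rw [h] at this
        exact absurd this (Finset.notMem_empty _)
      exact (Submodule.mem_bot O).1 (h2 h1)
    obtain ⟨j, hjG, hjmax⟩ := Finset.exists_max_image _ (fun j => W.valuation j) hne
    rw [Finset.mem_filter] at hjG
    have hjM := hGM j hjG.1
    have hj0 := hjG.2
    have hMW : ∀ m ∈ M, m / j ∈ W := by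
      intro m hm
      rw [← hG] at hm
      induction hm using Submodule.span_induction with
      | mem m hm =>
        by_cases hm0 : m = 0
        · rw [hm0, zero_div]; exact W.zero_mem
        · rw [← W.valuation_le_one_iff, map_div₀]
          exact div_le_one_of_le₀ (hjmax m (Finset.mem_filter.2 ⟨hm, hm0⟩)) zero_le
      | zero => rw [zero_div]; exact W.zero_mem
      | add a b _ _ ha hb => rw [add_div]; exact W.add_mem _ _ ha hb
      | smul c a _ ha =>
        rw [Algebra.smul_def, mul_div_assoc]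
        exact W.mul_mem _ _ (hOW c) ha
    have hQj : lo W.toSubring (chart O M j).toSubring = Q := by
      rw [← hQ]
      exact lo_chart_eq hOW hjM hj0 hgW hgW0 hMW hMgW
    obtain ⟨h1, h2⟩ := step_LR hOV hϖ0 hϖ hg hg0 hMV hk1 hjM hj0 (fun h => by
      obtain ⟨s, hs, hks⟩ := hkk j hjM hj0 h
      exact ⟨s, hs, hks k (hkG j hjG.1)⟩) (hmax j hjM hj0) hOW hMW
    rw [hQj] at h1 h2
    have hBW := chart_le_V hOW hMW
    refine ⟨fun h => ?_, h2⟩
    obtain ⟨h3, h4⟩ := h1 h
    refine ⟨h3, ?_, ?_, h4⟩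
    · rw [← hQj]; exact lo_le hBW
    · rw [← hQj]; exact ic_lo hBW

/-- The level does not increase, and decreases at the centre. -/
lemma lv_step {W : ValuationSubring F} {M M' : Submodule O F}
    {QV : Subring F} (hOW : ∀ o, algebraMap O F o ∈ W)
    (hstep : ∀ Q, LR W M Q →
        (Q = QV → (∃ e, Mi W.toSubring Q e) ∧ Q ≤ W.toSubring ∧ IC W.toSubring Q ∧
          LR W M' (qt W.toSubring Q)) ∧
        (Q ≠ QV → LR W M' Q)) {n : ℕ} (h : Lv W M n) :
    Lv W M' n ∧ (LR W M QV → Lv W M' (n - 1)) := by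
  obtain ⟨Q, hQ, m, hm, hr⟩ := h
  obtain ⟨h1, h2⟩ := hstep Q hQ
  by_cases hc : Q = QV
  · obtain ⟨⟨e, he⟩, hle, hic, hLR⟩ := h1 hc
    have key : Lv W M' (n - 1) := by
      rcases m with _ | m
      · exact ⟨_, hLR, 0, Nat.zero_le _, qt_reg hle hic hr he⟩
      · refine ⟨_, hLR, m, by omega, ?_⟩
        rw [Function.iterate_succ_apply] at hr
        exact hr
    refine ⟨?_, fun _ => key⟩
    obtain ⟨Q', hQ', m', hm', hr'⟩ := key
    exact ⟨Q', hQ', m', by omega, hr'⟩
  · refine ⟨⟨Q, h2 hc, m, hm, hr⟩, fun hQV => absurd (hQ.unique hOW hQV) hc⟩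

end Pool.Agent.TH188.ARC
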