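import Pool.Agent.TH188.ARC.A16

/-!
# Lowering the level of a family of valuations
-/

set_option autoImplicit false
set_option linter.unusedVariables false
set_option linter.unusedSectionVars false

namespace Pool.Agent.TH188.ARC

open IsLocalRing Pool.Agent.TH188.QS Pool.Agent.W418.LU2 Pool.Agent.H918R2.Quad

variable {O F : Type} [CommRing O] [Field F] [Algebra O F]

/-- The invariants of the modules (without regularity). -/
structure Cm (M₀ : Submodule O F) (D : ℕ) (M : Submodule O F) : Prop where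
  pos : 1 ≤ D
  fg : M.FG
  le : M ≤ M₀ ^ D
  comm : ∀ y ∈ M₀ ^ D, ∃ s : O, s ≠ 0 ∧ s • y ∈ M
  ne : ∃ g ∈ M, g ≠ 0

/-- The conditions on the valuations. -/
structure Fam (M₀ : Submodule O F) (𝓕 : Set (ValuationSubring F)) : Prop where
  O_mem : ∀ W ∈ 𝓕, ∀ o, algebraMap O F o ∈ W
  pos : ∀ W ∈ 𝓕, ∃ ϖ : O, algebraMap O F ϖ ≠ 0 ∧ W.valuation (algebraMap O F ϖ) < 1
  max : ∀ W ∈ 𝓕, ∀ (D : ℕ) (M : Submodule O F), Cm M₀ D M →
    ∀ j ∈ M, j ≠ 0 → (∀ m ∈ M, m / j ∈ W) → ∀ b ∈ chart O M j, ¬ W.valuation b < 1 →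
      ∃ c ∈ chart O M j, W.valuation (b * c - 1) < 1

theorem lower_level [IsNoetherianRing O] [IsDomain O] {M₀ : Submodule O F}
    {𝓕 : Set (ValuationSubring F)} (h𝓕 : Fam M₀ 𝓕) {D : ℕ} {M : Submodule O F} (hM : Cm M₀ D M)
    {n : ℕ} (hlv : ∀ W ∈ 𝓕, Lv W M (n + 1))
    (hfin : {Q : Subring F | ∃ W ∈ 𝓕, ¬ Lv W M n ∧ LR W M Q}.Finite) :
    ∃ (D' : ℕ) (M' : Submodule O F), Cm M₀ D' M' ∧ (∀ W ∈ 𝓕, Lv W M' n) ∧
      ∀ W ∈ 𝓕, ∀ k, Lv W M k → Lv W M' k := by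
  classical
  have key : ∀ T : Finset (Subring F), (∀ Q ∈ T, ∃ W ∈ 𝓕, ¬ Lv W M n ∧ LR W M Q) →
      ∃ (D' : ℕ) (M' : Submodule O F), Cm M₀ D' M' ∧
        (∀ W ∈ 𝓕, ∀ Q, LR W M Q → (Q ∈ T → Lv W M' n) ∧ (Q ∉ T → LR W M' Q)) ∧
        (∀ W ∈ 𝓕, ∀ k, Lv W M k → Lv W M' k) := by
    intro T
    induction T using Finset.induction_on with
    | empty =>
      intro _
      exact ⟨D, M, hM, fun W hW Q hQ => ⟨fun h => absurd h (Finset.notMem_empty _), fun _ => hQ⟩,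
        fun W _ k h => h⟩
    | insert Q₀ T hQ₀T ih =>
      intro hT
      obtain ⟨D₁, M₁, hM₁, h1, h2⟩ := ih fun Q hQ => hT Q (Finset.mem_insert_of_mem hQ)
      obtain ⟨V, hV, hVn, hVQ⟩ := hT Q₀ (Finset.mem_insert_self _ _)
      have hVQ₁ : LR V M₁ Q₀ := (h1 V hV Q₀ hVQ).2 hQ₀T
      obtain ⟨ϖ, hϖ0, hϖ⟩ := h𝓕.pos V hV
      obtain ⟨D₂, M₂, hD₂, hM₂, hle₂, hϖ₂, hne₂, hst⟩ := step_all_LR (h𝓕.O_mem V hV) hϖ0 hϖ
        hM₁.fg hVQ₁ (h𝓕.max V hV D₁ M₁ hM₁)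
      refine ⟨D₁ * D₂, M₂, ⟨Nat.mul_pos hM₁.pos hD₂, hM₂, ?_, ?_, hne₂⟩, ?_, ?_⟩
      · rw [pow_mul]
        exact hle₂.trans (pow_le_pow' hM₁.le D₂)
      · intro y hy
        rw [pow_mul] at hy
        obtain ⟨s, hs, hsy⟩ := exists_smul_mem_pow' hM₁.comm D₂ y hy
        refine ⟨ϖ * s, mul_ne_zero (fun h => hϖ0 (by rw [h, map_zero])) hs, ?_⟩
        rw [mul_smul]
        exact hϖ₂ _ hsy
      · intro W hW Q hQ
        have hOW := h𝓕.O_mem W hW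
        have hs := hst W hOW
        refine ⟨fun hQT => ?_, fun hQT => ?_⟩
        · by_cases hc : Q ∈ T
          · exact (lv_step hOW hs ((h1 W hW Q hQ).1 hc)).1
          · -- `Q = Q₀`
            have hQQ : Q = Q₀ := by
              rcases Finset.mem_insert.1 hQT with h | h
              · exact h
              · exact absurd h hc
            subst hQQ
            have hWQ₁ : LR W M₁ Q := (h1 W hW Q hQ).2 hc
            -- the level on `M₁`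
            obtain ⟨Q', hQ', m, hm, hr⟩ := hlv W hW
            have hQQ' : Q' = Q := hQ'.unique hOW hQ
            subst hQQ'
            have h3 : Lv W M₁ (n + 1) := ⟨_, hWQ₁, m, hm, hr⟩
            have h4 := (lv_step hOW hs h3).2 hWQ₁
            exact h4
        · have hQ1 : Q ∉ T := fun h => hQT (Finset.mem_insert_of_mem h)
          have hQ2 : Q ≠ Q₀ := fun h => hQT (h ▸ Finset.mem_insert_self _ _)
          exact (hs Q ((h1 W hW Q hQ).2 hQ1)).2 hQ2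
      · intro W hW k hWn
        exact (lv_step (h𝓕.O_mem W hW) (hst W (h𝓕.O_mem W hW)) (h2 W hW k hWn)).1
  obtain ⟨D', M', hM', h1, h2⟩ := key hfin.toFinset (fun Q hQ => by
    rw [Set.Finite.mem_toFinset] at hQ
    exact hQ)
  refine ⟨D', M', hM', fun W hW => ?_, h2⟩
  by_cases hc : Lv W M n
  · exact h2 W hW n hc
  · obtain ⟨Q, hQ, -⟩ := hlv W hW
    refine (h1 W hW Q hQ).1 ?_
    rw [Set.Finite.mem_toFinset]
    exact ⟨W, hW, hc, hQ⟩

/-- Lowering the level to zero. -/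
theorem level_zero [IsNoetherianRing O] [IsDomain O] {M₀ : Submodule O F}
    {𝓕 𝓖 : Set (ValuationSubring F)} (h𝓕 : Fam M₀ 𝓕)
    (hfin : ∀ (D : ℕ) (M : Submodule O F), Cm M₀ D M →
      {Q : Subring F | ∃ W ∈ 𝓕, W ∈ 𝓖 ∧ LR W M Q}.Finite)
    (n : ℕ) : ∀ {D : ℕ} {M : Submodule O F}, Cm M₀ D M → (∀ W ∈ 𝓕, Lv W M n) →
    (∀ W ∈ 𝓕, W ∉ 𝓖 → Lv W M 0) →
    ∃ (D' : ℕ) (M' : Submodule O F), Cm M₀ D' M' ∧ ∀ W ∈ 𝓕, Lv W M' 0 := by
  induction n with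
  | zero => exact fun {D M} hM h _ => ⟨D, M, hM, h⟩
  | succ n ih =>
    intro D M hM h hg
    obtain ⟨D', M', hM', h', h''⟩ := lower_level h𝓕 hM h
      ((hfin D M hM).subset fun Q hQ => by
        obtain ⟨W, hW, hWn, hQ⟩ := hQ
        refine ⟨W, hW, ?_, hQ⟩
        by_contra hWG
        apply hWn
        obtain ⟨Q', hQ', m, hm, hr⟩ := hg W hW hWG
        exact ⟨Q', hQ', m, by omega, hr⟩)
    exact ih hM' h' fun W hW hWG => h'' W hW 0 (hg W hW hWG)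

end Pool.Agent.TH188.ARC
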