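import Pool.Agent.TH188.ARC.A17

/-!
# Finitely many centres
-/

set_option autoImplicit false
set_option linter.unusedVariables false
set_option linter.unusedSectionVars false

namespace Pool.Agent.TH188.ARC

open IsLocalRing Pool.Agent.TH188.QS Pool.Agent.W418.LU2 Pool.Agent.H918R2.Quad

variable {O F : Type} [CommRing O] [Field F] [Algebra O F]

/-- A generator of largest value, among given generators. -/
lemma exists_gen_max' {W : ValuationSubring F} (hOW : ∀ o, algebraMap O F o ∈ W)
    {M : Submodule O F} {G : Finset F} (hG : Submodule.span O (G : Set F) = M) {g : F}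
    (hg : g ∈ M) (hg0 : g ≠ 0) :
    ∃ j ∈ G, j ≠ 0 ∧ ∀ m ∈ M, m / j ∈ W := by
  classical
  have hne : (G.filter fun j => j ≠ 0).Nonempty := by
    by_contra h
    rw [Finset.not_nonempty_iff_eq_empty] at h
    apply hg0
    have h1 : g ∈ Submodule.span O (G : Set F) := by rw [hG]; exact hg
    have h2 : Submodule.span O (G : Set F) ≤ ⊥ := by
      rw [Submodule.span_le]
      intro j hj
      by_contra hj0
      have : j ∈ G.filter fun j => j ≠ 0 := Finset.mem_filter.2 ⟨hj, hj0⟩
      rw [h] at this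
      exact absurd this (Finset.notMem_empty _)
    exact (Submodule.mem_bot O).1 (h2 h1)
  obtain ⟨j, hjG, hjmax⟩ := Finset.exists_max_image _ (fun j => W.valuation j) hne
  rw [Finset.mem_filter] at hjG
  refine ⟨j, hjG.1, hjG.2, fun m hm => ?_⟩
  rw [← hG] at hm
  induction hm using Submodule.span_induction with
  | mem m hm =>
    by_cases hm0 : m = 0
    · rw [hm0, zero_div]; exact W.zero_mem
    · rw [← W.valuation_le_one_iff, map_div₀]
      exact div_le_one_of_le₀ (hjmax m (Finset.mem_filter.2 ⟨hm, hm0⟩)) zero_le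
  | zero => rw [zero_div]; exact W.zero_mem
  | add a b _ _ ha hb => rw [add_div]; exact W.add_mem _ _ ha hb
  | smul c a _ ha =>
    rw [Algebra.smul_def, mul_div_assoc]
    exact W.mul_mem _ _ (hOW c) ha

/-- Finitely many ideals contain an integer and all the elements `b ^ q - b`. -/
lemma finite_ideals [Module.Finite ℤ O] {B : Type} [CommRing B] [Algebra O B]
    [Algebra.FiniteType O B] {N : ℕ} (hN : N ≠ 0) {q : ℕ} (hq : 2 ≤ q) :
    {P : Ideal B | (N : B) ∈ P ∧ ∀ b : B, b ^ q - b ∈ P}.Finite := by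
  classical
  let I : Ideal B := Ideal.span ({(N : B)} ∪ Set.range fun b : B => b ^ q - b)
  have hNI : (N : B) ∈ I := Ideal.subset_span (Or.inl rfl)
  have hqI : ∀ b : B, b ^ q - b ∈ I := fun b => Ideal.subset_span (Or.inr ⟨b, rfl⟩)
  have hint : Algebra.IsIntegral O (B ⧸ I) := by
    refine ⟨fun z => ?_⟩
    obtain ⟨b, rfl⟩ := Ideal.Quotient.mk_surjective z
    refine ⟨Polynomial.X ^ q - Polynomial.X, ?_, ?_⟩
    · exact Polynomial.monic_X_pow_sub (by
        refine lt_of_le_of_lt Polynomial.degree_X_le ?_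
        exact_mod_cast hq)
    · rw [Polynomial.eval₂_sub, Polynomial.eval₂_X_pow, Polynomial.eval₂_X, ← map_pow, ← map_sub]
      exact Ideal.Quotient.eq_zero_iff_mem.2 (hqI b)
  have hft : Algebra.FiniteType O (B ⧸ I) :=
    Algebra.FiniteType.of_surjective (Ideal.Quotient.mkₐ O I) (Ideal.Quotient.mkₐ_surjective O I)
  have hfin : Module.Finite O (B ⧸ I) := Algebra.IsIntegral.finite
  have hfinZ : Module.Finite ℤ (B ⧸ I) := Module.Finite.trans O (B ⧸ I)
  have htor : Module.IsTorsion ℤ (B ⧸ I) := by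
    intro z
    refine ⟨⟨(N : ℤ), mem_nonZeroDivisors_of_ne_zero (by exact_mod_cast hN)⟩, ?_⟩
    change (N : ℤ) • z = 0
    obtain ⟨b, rfl⟩ := Ideal.Quotient.mk_surjective z
    rw [zsmul_eq_mul, Int.cast_natCast]
    have h1 : ((N : ℕ) : B ⧸ I) = Ideal.Quotient.mk I (N : B) := (map_natCast _ N).symm
    rw [h1, Ideal.Quotient.eq_zero_iff_mem.2 hNI, zero_mul]
  have hF : Finite (B ⧸ I) := Module.finite_of_fg_torsion _ htor
  have hFI : Finite (Ideal (B ⧸ I)) := Finite.of_injective (fun J : Ideal (B ⧸ I) =>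
    (J : Set (B ⧸ I))) SetLike.coe_injective
  refine (Set.finite_range fun J : Ideal (B ⧸ I) => J.comap (Ideal.Quotient.mk I)).subset ?_
  rintro P ⟨hNP, hqP⟩
  have hIP : I ≤ P := by
    refine Ideal.span_le.2 ?_
    rintro x (hx | ⟨b, rfl⟩)
    · rw [Set.mem_singleton_iff] at hx
      rw [hx]; exact hNP
    · exact hqP b
  refine ⟨P.map (Ideal.Quotient.mk I), ?_⟩
  change Ideal.comap _ (Ideal.map _ P) = P
  rw [Ideal.comap_map_of_surjective _ Ideal.Quotient.mk_surjective]
  apply le_antisymm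
  · refine sup_le le_rfl ?_
    intro x hx
    rw [Ideal.mem_comap, Ideal.mem_bot, Ideal.Quotient.eq_zero_iff_mem] at hx
    exact hIP hx
  · exact le_sup_left

theorem finite_centres [Module.Finite ℤ O] {M : Submodule O F} (hM : M.FG) (hne : ∃ g ∈ M, g ≠ 0)
    {N : ℕ} (hN : N ≠ 0) (C : ℕ) (𝓖 : Set (ValuationSubring F))
    (hO : ∀ W ∈ 𝓖, ∀ o, algebraMap O F o ∈ W) (hNW : ∀ W ∈ 𝓖, W.valuation (N : F) < 1)
    (hq : ∀ W ∈ 𝓖, ∃ q, 2 ≤ q ∧ q ≤ C ∧ ∀ j ∈ M, j ≠ 0 → (∀ m ∈ M, m / j ∈ W) →
      ∀ b ∈ chart O M j, W.valuation (b ^ q - b) < 1) :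
    {Q : Subring F | ∃ W ∈ 𝓖, LR W M Q}.Finite := by
  classical
  obtain ⟨G, hG⟩ := hM
  obtain ⟨g, hg, hg0⟩ := hne
  have hft : ∀ j : F, Algebra.FiniteType O (chart O M j) := by
    intro j
    have h1 : chart O M j = Algebra.adjoin O ((fun m => m / j) '' (G : Set F)) := by
      apply le_antisymm
      · refine Algebra.adjoin_le ?_
        rintro _ ⟨m, hm, rfl⟩
        change m / j ∈ Algebra.adjoin O ((fun m => m / j) '' (G : Set F))
        rw [← hG] at hm
        induction hm using Submodule.span_induction with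
        | mem m hm => exact Algebra.subset_adjoin ⟨m, hm, rfl⟩
        | zero => rw [zero_div]; exact Subalgebra.zero_mem _
        | add a b _ _ ha hb => rw [add_div]; exact Subalgebra.add_mem _ ha hb
        | smul c a _ ha => rw [smul_div_assoc]; exact Subalgebra.smul_mem _ ha c
      · refine Algebra.adjoin_mono ?_
        rintro _ ⟨m, hm, rfl⟩
        exact ⟨m, hG ▸ Submodule.subset_span hm, rfl⟩
    rw [h1]
    exact (Subalgebra.fg_iff_finiteType _).1 (Subalgebra.fg_def.2
      ⟨_, G.finite_toSet.image _, rfl⟩)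
  let st : (j : F) → Ideal (chart O M j) → Set F := fun j P =>
    {x | ∃ a b : chart O M j, b ∉ P ∧ x = (a : F) * (b : F)⁻¹}
  have hfin : (⋃ j ∈ G, ⋃ q ∈ Finset.Icc 2 C, (st j) ''
      {P : Ideal (chart O M j) | (N : chart O M j) ∈ P ∧ ∀ b : chart O M j, b ^ q - b ∈ P}).Finite := by
    refine Set.Finite.biUnion G.finite_toSet fun j _ => ?_
    refine Set.Finite.biUnion (Finset.Icc 2 C).finite_toSet fun q hq' => ?_
    have hq2 : 2 ≤ q := (Finset.mem_Icc.1 hq').1
    have := hft j
    exact (finite_ideals (O := O) hN hq2).image _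
  refine Set.Finite.of_finite_image (f := fun Q : Subring F => (Q : Set F)) (hfin.subset ?_)
    (SetLike.coe_injective.injOn)
  rintro _ ⟨Q, ⟨W, hW, gW, hgW, hgW0, hMgW, rfl⟩, rfl⟩
  obtain ⟨j, hjG, hj0, hMW⟩ := exists_gen_max' (hO W hW) hG hg hg0
  have hjM : j ∈ M := by rw [← hG]; exact Submodule.subset_span hjG
  obtain ⟨q, hq2, hqC, hqW⟩ := hq W hW
  have hBW := chart_le_V (hO W hW) hMW
  rw [lo_chart_eq (hO W hW) hgW hgW0 hjM hj0 hMgW hMW]
  simp only [Set.mem_iUnion]
  let P : Ideal (chart O M j) :=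
    { carrier := {b | W.valuation (b : F) < 1}
      zero_mem' := by
        change W.valuation ((0 : chart O M j) : F) < 1
        rw [ZeroMemClass.coe_zero, map_zero]; exact zero_lt_one
      add_mem' := fun {a b} ha hb => by
        change W.valuation ((a + b : chart O M j) : F) < 1
        exact Valuation.map_add_lt _ ha hb
      smul_mem' := fun c a ha => by
        change W.valuation ((c * a : chart O M j) : F) < 1
        rw [Subalgebra.coe_mul, map_mul]
        exact mul_lt_one_aux ((W.valuation_le_one_iff _).2 (hBW c.2)) ha }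
  refine ⟨j, hjG, q, Finset.mem_Icc.2 ⟨hq2, hqC⟩, P, ⟨?_, ?_⟩, ?_⟩
  · have h1 : W.valuation ((N : chart O M j) : F) < 1 := by
      have : ((N : chart O M j) : F) = (N : F) := by norm_cast
      rw [this]
      exact hNW W hW
    exact h1
  · intro b
    exact hqW j hjM hj0 hMW b b.2
  · ext x
    constructor
    · rintro ⟨a, b, hb, rfl⟩
      have hb1 : ¬ W.valuation (b : F) < 1 := hb
      have hb0 : (b : F) ≠ 0 := by
        intro h
        apply hb1
        rw [h, map_zero]
        exact zero_lt_one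
      rw [val_lt_iff hb0, not_not] at hb1
      exact ⟨a, a.2, b, b.2, hb0, hb1, rfl⟩
    · rintro ⟨a, ha, b, hb, hb0, hbi, rfl⟩
      refine ⟨⟨a, ha⟩, ⟨b, hb⟩, ?_, rfl⟩
      intro h
      have h1 : W.valuation b < 1 := h
      exact (val_lt_iff hb0).1 h1 hbi

end Pool.Agent.TH188.ARC
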