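import Pool.Agent.TH188.ARC.A18

/-!
# A uniform bound for the levels
-/

set_option autoImplicit false
set_option linter.unusedVariables false
set_option linter.unusedSectionVars false

universe u

namespace Pool.Agent.TH188.ARC

open IsLocalRing Pool.Agent.TH188.QS Pool.Agent.W418.LU2 Pool.Agent.H918R2.Quad

/-- The value of `δ` bounds the number of quadratic transforms. -/
def Star {F : Type u} [Field F] (B : Subring F) (δ : F) : Prop :=
  ∀ V : ValuationSubring F, B ≤ V.toSubring → ∀ ϖ ∈ B, ϖ ≠ 0 → V.valuation ϖ < 1 → ∀ n : ℕ,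
    (∀ z : ℕ → F, (∀ i < n, z i ∈ qseq V B i ∧ z i ≠ 0 ∧ V.valuation (z i) < 1) →
      δ * (∏ i ∈ Finset.range n, z i)⁻¹ ∉ V) → ∃ m < n, IsRegularLocalRing (qseq V B m)

/-- A minor which does not vanish at the point. -/
theorem trait_star {O F L : Type u} [CommRing O] [IsDomain O] [IsRegularRing O] [Field F]
    [Algebra O F] [Field L] [CharZero L] {N : ℕ} (x : Fin N → F) {A : Subring F}
    [IsRegularLocalRing A]
    (hxA : ∀ i, x i ∈ A) (hOA : ∀ o, algebraMap O F o ∈ A) {π : A →+* L}
    (hOL : ∀ o : O, o ≠ 0 → π ⟨_, hOA o⟩ ≠ 0)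
    (hAfr : ∀ a ∈ A, ∃ b ∈ Algebra.adjoin O (Set.range x), ∃ c ∈ Algebra.adjoin O (Set.range x),
      ∃ hc : c ∈ A, π ⟨c, hc⟩ ≠ 0 ∧ a = b * c⁻¹)
    (hunitA : ∀ a : A, π a ≠ 0 → (a : F)⁻¹ ∈ A) :
    ∃ d : A, π d ≠ 0 ∧ (d : F) ∈ (Algebra.adjoin O (Set.range x)).toSubring ∧
      Star (Algebra.adjoin O (Set.range x)).toSubring (d : F) := by
  classical
  let S := MvPolynomial (Fin N) O
  let φ : S →+* F := (MvPolynomial.aeval x : S →ₐ[O] F).toRingHom
  have hφr : φ.range = (Algebra.adjoin O (Set.range x)).toSubring := by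
    rw [Algebra.adjoin_range_eq_range_aeval]
    rfl
  have hBA : (Algebra.adjoin O (Set.range x)).toSubring ≤ A := by
    let A' : Subalgebra O F := { A with algebraMap_mem' := hOA }
    have : Algebra.adjoin O (Set.range x) ≤ A' := Algebra.adjoin_le (by
      rintro _ ⟨i, rfl⟩
      exact hxA i)
    exact this
  have hφA : ∀ s, φ s ∈ A := fun s => hBA (hφr ▸ ⟨s, rfl⟩)
  let φA : S →+* A := φ.codRestrict A hφA
  -- units of `A`
  have hπu : ∀ a : A, π a ≠ 0 ↔ IsUnit a := by
    intro a
    constructor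
    · intro ha
      have ha0 : (a : F) ≠ 0 := by
        intro h1
        apply ha
        have : a = 0 := Subtype.ext h1
        rw [this, map_zero]
      exact isUnit_iff_exists_inv.2 ⟨⟨_, hunitA a ha⟩, Subtype.ext (mul_inv_cancel₀ ha0)⟩
    · intro ha
      exact (ha.map π).ne_zero
  let L₁ := ResidueField A
  have hπr : ∀ a : A, residue A a = 0 ↔ π a = 0 := by
    intro a
    rw [residue_eq_zero_iff, mem_maximalIdeal, mem_nonunits_iff, ← hπu, not_not]
  have hφπ : ∀ s, residue A (φA s) = 0 ↔ π (φA s) = 0 := fun s => hπr _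
  have hch : CharZero L₁ := by
    refine charZero_of_inj_zero fun n hn => ?_
    have h1 : residue A (n : A) = 0 := by rw [map_natCast]; exact hn
    rw [hπr, map_natCast] at h1
    exact_mod_cast h1
  let _ : Algebra S L₁ := ((residue A).comp φA).toAlgebra
  let _ : Algebra O L₁ := ((algebraMap S L₁).comp (algebraMap O S)).toAlgebra
  have hst : IsScalarTower O S L₁ := IsScalarTower.of_algebraMap_eq fun _ => rfl
  have hφO : ∀ o : O, φA (algebraMap O S o) = ⟨_, hOA o⟩ := fun o =>
    Subtype.ext ((MvPolynomial.aeval x : S →ₐ[O] F).commutes o)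
  have hOinj : Function.Injective (algebraMap O L₁) := by
    rw [injective_iff_map_eq_zero]
    intro o ho
    by_contra h0
    apply hOL o h0
    rw [← hφO, ← hφπ]
    exact ho
  have hH : Subsingleton (Algebra.H1Cotangent O L₁) := h1_charZero hOinj
  have hfr : ∀ z : L₁, ∃ a b : S, algebraMap S L₁ b ≠ 0 ∧
      z * algebraMap S L₁ b = algebraMap S L₁ a := by
    intro z
    obtain ⟨a, rfl⟩ := residue_surjective z
    obtain ⟨b, hb, c, hc, hcA, hπc, habc⟩ := hAfr a a.2
    obtain ⟨s, hs⟩ : b ∈ φ.range := by rw [hφr]; exact hb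
    obtain ⟨t, ht⟩ : c ∈ φ.range := by rw [hφr]; exact hc
    have hsA : φA s = ⟨b, hBA hb⟩ := Subtype.ext hs
    have htA : φA t = ⟨c, hcA⟩ := Subtype.ext ht
    refine ⟨s, t, ?_, ?_⟩
    · change residue A (φA t) ≠ 0
      rw [Ne, hφπ, htA]
      exact hπc
    · change residue A a * residue A (φA t) = residue A (φA s)
      rw [← map_mul]
      congr 1
      rw [hsA, htA]
      apply Subtype.ext
      change (a : F) * c = b
      have hc0 : c ≠ 0 := by
        intro h1
        apply hπc
        have : (⟨c, hcA⟩ : A) = 0 := Subtype.ext h1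
        rw [this, map_zero]
      rw [habc, mul_assoc, inv_mul_cancel₀ hc0, mul_one]
  set I : Ideal S := RingHom.ker (algebraMap S L₁) with hI
  have hIp : I.IsPrime := RingHom.ker_isPrime _
  have hIm : ∀ s, s ∈ I ↔ π (φA s) = 0 := fun s => by
    rw [hI, RingHom.mem_ker, ← hφπ]
    rfl
  let O' := Localization.AtPrime I
  have hO' : IsRegularLocalRing O' := IsRegularRing.isRegularLocalRing_localization I
  let 𝔭 : Ideal S := RingHom.ker φ
  have h𝔭 : 𝔭 ≤ I := by
    intro s hs
    rw [hIm]
    have : φA s = 0 := Subtype.ext (RingHom.mem_ker.1 hs)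
    rw [this, map_zero]
  have hunit : ∀ y : I.primeCompl, IsUnit (φA y) := by
    intro y
    rw [← hπu]
    exact fun h1 => y.2 ((hIm _).2 h1)
  let θ : O' →+* A := IsLocalization.lift (M := I.primeCompl) hunit
  have hθ : ∀ s, θ (algebraMap S O' s) = φA s := fun s => IsLocalization.lift_eq hunit s
  have hθs : Function.Surjective θ := by
    intro a
    obtain ⟨b, hb, c, hc, hcA, hπc, habc⟩ := hAfr a a.2
    obtain ⟨s, hs⟩ : b ∈ φ.range := by rw [hφr]; exact hb
    obtain ⟨t, ht⟩ : c ∈ φ.range := by rw [hφr]; exact hc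
    have hsA : φA s = ⟨b, hBA hb⟩ := Subtype.ext hs
    have htA : φA t = ⟨c, hcA⟩ := Subtype.ext ht
    have htI : t ∈ I.primeCompl := by
      intro h1
      have h2 := (hIm t).1 h1
      rw [htA] at h2
      exact hπc h2
    refine ⟨IsLocalization.mk' O' s ⟨t, htI⟩, ?_⟩
    rw [IsLocalization.lift_mk'_spec]
    change φA s = φA t * a
    rw [hsA, htA]
    apply Subtype.ext
    change b = c * a
    have hc0 : c ≠ 0 := by
      intro h1
      apply hπc
      have : (⟨c, hcA⟩ : A) = 0 := Subtype.ext h1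
      rw [this, map_zero]
    rw [habc]
    field_simp
  have hθk : RingHom.ker θ = 𝔭.map (algebraMap S O') := by
    apply le_antisymm
    · intro y hy
      obtain ⟨s, t, rfl⟩ := IsLocalization.exists_mk'_eq I.primeCompl y
      have h1 : θ (IsLocalization.mk' O' s t) * φA t = φA s := by
        rw [← hθ, ← hθ, ← map_mul, IsLocalization.mk'_spec]
      rw [RingHom.mem_ker.1 hy, zero_mul] at h1
      have h2 : s ∈ 𝔭 := RingHom.mem_ker.2 (congrArg Subtype.val h1).symm
      rw [IsLocalization.mk'_eq_mul_mk'_one]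
      exact Ideal.mul_mem_right _ _ (Ideal.mem_map_of_mem _ h2)
    · rw [Ideal.map_le_iff_le_comap]
      intro s hs
      rw [Ideal.mem_comap, RingHom.mem_ker, hθ]
      exact Subtype.ext (RingHom.mem_ker.1 hs)
  have hreg : IsRegularLocalRing (O' ⧸ 𝔭.map (algebraMap S O')) := by
    rw [← hθk]
    exact IsRegularLocalRing.of_ringEquiv (RingHom.quotientKerEquivOfSurjective hθs).symm
  have hIp' : (RingHom.ker (algebraMap S L₁)).IsPrime := hIp
  have hloc : IsLocalization.AtPrime O' (RingHom.ker (algebraMap S L₁)) :=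
    inferInstanceAs (IsLocalization.AtPrime O' I)
  obtain ⟨r, f, D, hf, hgen, hdet⟩ := exists_jac_at (k₀ := O) (O := O') hH hfr 𝔭 h𝔭
  have hD : ∀ j, Der φ (fun s => φ (D j s)) := fun j =>
    { add := fun a b => by rw [map_add, map_add]
      mul := fun a b => by
        rw [Derivation.leibniz, smul_eq_mul, smul_eq_mul, map_add, map_mul, map_mul] }
  have hnoe : IsNoetherianRing φ.range := isNoetherianRing_of_surjective _ _ φ.rangeRestrict
    φ.rangeRestrict_surjective
  have hrA : φ.range ≤ A := by rw [hφr]; exact hBA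
  have hdA : (Matrix.of fun i j => φ (D j (f i))).det = ((Matrix.of fun i j =>
      φA (D j (f i))).det : A) := by
    have h1 := RingHom.map_det A.subtype (Matrix.of fun i j => φA (D j (f i)))
    exact h1.symm
  have hd0 : π (Matrix.of fun i j => φA (D j (f i))).det ≠ 0 := by
    rw [Ne, ← hπr]
    intro h1
    apply hdet
    have h2 := RingHom.map_det (residue A) (Matrix.of fun i j => φA (D j (f i)))
    rw [h1] at h2
    exact h2.symm
  have hgen' : ∀ s, φ s = 0 → ∃ t, φ t ≠ 0 ∧ t * s ∈ Ideal.span (Set.range f) := by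
    intro s hs
    obtain ⟨t, ht, hts⟩ := hgen s (RingHom.mem_ker.2 hs)
    refine ⟨t, fun h1 => ht ?_, hts⟩
    have h2 : φA t = 0 := Subtype.ext h1
    change residue A (φA t) = 0
    rw [h2, map_zero]
  refine ⟨(Matrix.of fun i j => φA (D j (f i))).det, hd0, ?_, ?_⟩
  · rw [← hφr]
    have h1 := RingHom.map_det φ (Matrix.of fun i j => D j (f i))
    refine ⟨(Matrix.of fun i j => D j (f i)).det, ?_⟩
    rw [h1, ← hdA]
    rfl
  · rw [← hφr]
    intro V hrV ϖ hϖB hϖF hϖ n hn
    have hφV : ∀ s, φ s ∈ V := fun s => hrV ⟨s, rfl⟩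
    have hne0 : ∃ y ∈ φ.range, y ≠ 0 ∧ V.valuation y < 1 := ⟨_, hϖB, hϖF, hϖ⟩
    obtain ⟨-, hmi⟩ := seq_fg (Q := qseq V φ.range) hrV hne0 rfl (fun n => rfl)
    exact exists_regular_lt (Q := qseq V φ.range) hφV hD (C := 1) one_ne_zero
      (fun j s => by rw [one_mul]; exact hφV _) (fun i => RingHom.mem_ker.1 (hf i)) hgen' rfl
      (fun n => rfl) hmi (n := n) (by
        intro z hz
        rw [one_pow, one_mul, hdA]
        exact hn z hz)


section

variable {O F K : Type} [CommRing O] [Field F] [Algebra O F] [Field K] [Algebra O K] [IsDomain O]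
  [IsFractionRing O K] [Algebra K F] [IsScalarTower O K F] [IsRegularRing O]

lemma mem_qseq {V : ValuationSubring F} {B : Subring F} {x : F} (hx : x ∈ B) (n : ℕ) :
    x ∈ qseq V B n := by
  induction n with
  | zero => exact le_lo _ _ hx
  | succ n ih => exact le_qt _ _ ih

lemma star_zero (B : Subring F) : Star B (0 : F) := by
  intro V hB ϖ hϖB hϖ0 hϖ n hn
  exfalso
  apply hn (fun _ => ϖ) (fun i _ => ⟨mem_qseq hϖB i, hϖ0, hϖ⟩)
  rw [zero_mul]
  exact V.zero_mem

lemma star_of {B : Subring F} {c : F}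
    (h : ∀ V : ValuationSubring F, B ≤ V.toSubring → ∃ δ, Star B δ ∧
      V.valuation c ≤ V.valuation δ) : Star B c := by
  intro V hB ϖ hϖB hϖ0 hϖ n hn
  obtain ⟨δ, hδ, hle⟩ := h V hB
  refine hδ V hB ϖ hϖB hϖ0 hϖ n fun z hz hcon => hn z hz ?_
  rw [← V.valuation_le_one_iff, map_mul] at hcon ⊢
  exact (mul_le_mul_left hle _).trans hcon

/-- A uniform minor in a chart. -/
theorem uniform_chart [CharZero K] {ι : Type} [Fintype ι] (y : ι → F) (hy : ∀ i, y i ≠ 0)
    (i₀ : ι)
    (hreg : ∀ (P : Ideal (Algebra.adjoin K (Set.range fun j => y j / y i₀)).toSubring)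
      [P.IsPrime], IsRegularLocalRing (Localization.AtPrime P)) :
    ∃ o : O, o ≠ 0 ∧ Star (chart O (Submodule.span O (Set.range y)) (y i₀)).toSubring
      (algebraMap O F o) := by
  classical
  have hOK : Function.Injective (algebraMap O K) := IsFractionRing.injective O K
  have hOF : Function.Injective (algebraMap O F) := by
    rw [IsScalarTower.algebraMap_eq O K F]
    exact (algebraMap K F).injective.comp hOK
  set M₀ : Submodule O F := Submodule.span O (Set.range y) with hM₀
  have hM₀FG : M₀.FG := ⟨Finset.univ.image y, by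
    rw [Finset.coe_image, Finset.coe_univ, Set.image_univ]⟩
  have hchart : chart O M₀ (y i₀) = Algebra.adjoin O (Set.range fun j => y j / y i₀) :=
    chart_span y (y i₀)
  let C : Subalgebra K F := Algebra.adjoin K (Set.range fun j => y j / y i₀)
  have hBC : ∀ b ∈ chart O M₀ (y i₀), b ∈ C := by
    rw [hchart]
    have : Algebra.adjoin O (Set.range fun j => y j / y i₀) ≤ C.restrictScalars O :=
      Algebra.adjoin_le Algebra.subset_adjoin
    exact this
  -- denominators
  have hden : ∀ b : F, b ∈ C → ∃ o : O, o ≠ 0 ∧ algebraMap O F o * b ∈ chart O M₀ (y i₀) := by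
    intro b hb
    induction hb using Algebra.adjoin_induction with
    | mem b hb1 =>
      obtain ⟨j, rfl⟩ := hb1
      refine ⟨1, one_ne_zero, ?_⟩
      rw [map_one, one_mul, hchart]
      exact Algebra.subset_adjoin ⟨j, rfl⟩
    | algebraMap k =>
      obtain ⟨a, o, ho, hk⟩ := IsFractionRing.div_surjective (A := O) k
      have h1 : algebraMap O K o ≠ 0 := IsFractionRing.to_map_ne_zero_of_mem_nonZeroDivisors ho
      refine ⟨o, nonZeroDivisors.ne_zero ho, ?_⟩
      have : algebraMap O F o * algebraMap K F k = algebraMap O F a := by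
        rw [mul_comm, IsScalarTower.algebraMap_apply O K F, IsScalarTower.algebraMap_apply O K F,
          ← map_mul, ← hk, div_mul_cancel₀ _ h1]
      rw [this]
      exact Subalgebra.algebraMap_mem _ a
    | add a b hax hbx ha hb =>
      obtain ⟨o, ho, hao⟩ := ha
      obtain ⟨o', ho', hbo⟩ := hb
      refine ⟨o * o', mul_ne_zero ho ho', ?_⟩
      have h1 : algebraMap O F (o * o') * (a + b) =
          algebraMap O F o * a * algebraMap O F o' +
          algebraMap O F o' * b * algebraMap O F o := by rw [map_mul]; ring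
      rw [h1]
      exact Subalgebra.add_mem _ (Subalgebra.mul_mem _ hao (Subalgebra.algebraMap_mem _ _))
        (Subalgebra.mul_mem _ hbo (Subalgebra.algebraMap_mem _ _))
    | mul a b hax hbx ha hb =>
      obtain ⟨o, ho, hao⟩ := ha
      obtain ⟨o', ho', hbo⟩ := hb
      refine ⟨o * o', mul_ne_zero ho ho', ?_⟩
      have h1 : algebraMap O F (o * o') * (a * b) = (algebraMap O F o * a) *
          (algebraMap O F o' * b) := by rw [map_mul]; ring
      rw [h1]
      exact Subalgebra.mul_mem _ hao hbo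
  let J : Ideal C := Ideal.span {c : C | Star (chart O M₀ (y i₀)).toSubring (c : F)}
  have hJ : J = ⊤ := by
    by_contra hJ
    obtain ⟨𝔪, hmax, hle⟩ := Ideal.exists_le_maximal J hJ
    let iF : Field (C ⧸ 𝔪) := Ideal.Quotient.field 𝔪
    have hcz : CharZero (C ⧸ 𝔪) :=
      charZero_of_injective_ringHom (algebraMap K (C ⧸ 𝔪)).injective
    let α : C.toSubring →+* (C ⧸ 𝔪) := Ideal.Quotient.mk 𝔪
    have hkp : (RingHom.ker α).IsPrime := RingHom.ker_isPrime _
    obtain ⟨A, π, hA, hπα, hPt⟩ := pt_of (O := O) (K := K) (L := C ⧸ 𝔪) y hy i₀ α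
      (hreg (RingHom.ker α))
    obtain ⟨N, m, hm⟩ := exists_fin_family hM₀FG
    have hmM : ∀ i, m i ∈ M₀ := fun i => by rw [← hm]; exact Submodule.subset_span ⟨i, rfl⟩
    have hchart' : chart O M₀ (y i₀) = Algebra.adjoin O (Set.range fun i => m i / y i₀) := by
      rw [← hm]
      exact chart_span m (y i₀)
    have hAreg := hPt.reg
    obtain ⟨d, hd0, hdB, hd⟩ := trait_star (O := O) (fun i => m i / y i₀) (A := A)
      (fun i => hPt.MA _ (hmM i)) hPt.OA (π := π) hPt.OL (by rw [← hchart']; exact hPt.fr)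
      hPt.unit
    rw [← hchart'] at hdB hd
    have hdC : (d : F) ∈ C := hBC _ hdB
    have h1 : (⟨d, hdC⟩ : C) ∈ J := Ideal.subset_span hd
    have h2 : α ⟨d, hdC⟩ = 0 := Ideal.Quotient.eq_zero_iff_mem.2 (hle h1)
    apply hd0
    have h3 := hπα ⟨d, hdC⟩
    rw [h2] at h3
    exact h3
  have key : ∀ c ∈ J, ∃ o : O, o ≠ 0 ∧ ∀ V : ValuationSubring F,
      (chart O M₀ (y i₀)).toSubring ≤ V.toSubring →
      ∃ δ, Star (chart O M₀ (y i₀)).toSubring δ ∧
        V.valuation (algebraMap O F o * (c : F)) ≤ V.valuation δ := by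
    intro c hc
    induction hc using Submodule.span_induction with
    | mem c hc =>
      exact ⟨1, one_ne_zero, fun V _ => ⟨c, hc, by rw [map_one, one_mul]⟩⟩
    | zero =>
      exact ⟨1, one_ne_zero, fun V _ => ⟨0, star_zero _, by
        rw [ZeroMemClass.coe_zero, mul_zero]⟩⟩
    | add a b _ _ ha hb =>
      obtain ⟨o, ho, h1⟩ := ha
      obtain ⟨o', ho', h2⟩ := hb
      refine ⟨o * o', mul_ne_zero ho ho', fun V hV => ?_⟩
      obtain ⟨δ, hδ, hle⟩ := h1 V hV
      obtain ⟨δ', hδ', hle'⟩ := h2 V hV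
      have hOV : ∀ o : O, V.valuation (algebraMap O F o) ≤ 1 := fun o =>
        (V.valuation_le_one_iff _).2 (hV (Subalgebra.algebraMap_mem (chart O M₀ (y i₀)) o))
      have e1 : algebraMap O F (o * o') * ((a + b : C) : F) =
          algebraMap O F o' * (algebraMap O F o * (a : F)) +
          algebraMap O F o * (algebraMap O F o' * (b : F)) := by
        rw [Subalgebra.coe_add, map_mul]; ring
      have l1 : V.valuation (algebraMap O F o' * (algebraMap O F o * (a : F))) ≤
          V.valuation δ := by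
        rw [map_mul]
        exact mul_le_of_le_one_of_le (hOV o') hle
      have l2 : V.valuation (algebraMap O F o * (algebraMap O F o' * (b : F))) ≤
          V.valuation δ' := by
        rw [map_mul]
        exact mul_le_of_le_one_of_le (hOV o) hle'
      rw [e1]
      rcases le_total (V.valuation δ) (V.valuation δ') with h | h
      · exact ⟨δ', hδ', (Valuation.map_add _ _ _).trans (max_le (l1.trans h) l2)⟩
      · exact ⟨δ, hδ, (Valuation.map_add _ _ _).trans (max_le l1 (l2.trans h))⟩
    | smul c a _ ha =>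
      obtain ⟨o, ho, h1⟩ := ha
      obtain ⟨o', ho', h2⟩ := hden c c.2
      refine ⟨o' * o, mul_ne_zero ho' ho, fun V hV => ?_⟩
      obtain ⟨δ, hδ, hle⟩ := h1 V hV
      refine ⟨δ, hδ, ?_⟩
      have e1 : algebraMap O F (o' * o) * ((c • a : C) : F) =
          (algebraMap O F o' * (c : F)) * (algebraMap O F o * (a : F)) := by
        rw [smul_eq_mul, Subalgebra.coe_mul, map_mul]; ring
      rw [e1, map_mul]
      exact mul_le_of_le_one_of_le ((V.valuation_le_one_iff _).2 (hV h2)) hle
  obtain ⟨o, ho, h1⟩ := key 1 (by rw [hJ]; trivial)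
  refine ⟨o, ho, star_of fun V hV => ?_⟩
  obtain ⟨δ, hδ, hle⟩ := h1 V hV
  refine ⟨δ, hδ, ?_⟩
  rw [OneMemClass.coe_one, mul_one] at hle
  exact hle

/-- A uniform integer. -/
theorem uniform_int [CharZero K] (hint : ∀ o : O, IsIntegral ℤ o) {ι : Type} [Fintype ι]
    (y : ι → F) (hy : ∀ i, y i ≠ 0)
    (hreg : ∀ (i : ι) (P : Ideal (Algebra.adjoin K (Set.range fun j => y j / y i)).toSubring)
      [P.IsPrime], IsRegularLocalRing (Localization.AtPrime P)) :
    ∃ N : ℕ, N ≠ 0 ∧ ∀ i, Star (chart O (Submodule.span O (Set.range y)) (y i)).toSubring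
      (N : F) := by
  classical
  choose o ho hst using fun i => uniform_chart (O := O) (K := K) y hy i
    (fun P hP => hreg i P)
  have hprod : ∏ i, o i ≠ 0 := Finset.prod_ne_zero_iff.2 fun i _ => ho i
  have hcomap := Ideal.comap_ne_bot_of_integral_mem (I := Ideal.span {∏ i, o i}) hprod
    (Ideal.mem_span_singleton_self _) (hint _)
  obtain ⟨n, hn, hn0⟩ := Submodule.exists_mem_ne_zero_of_ne_bot hcomap
  rw [Ideal.mem_comap, Ideal.mem_span_singleton] at hn
  refine ⟨n.natAbs, Int.natAbs_ne_zero.2 hn0, fun i => star_of fun V hV => ⟨_, hst i, ?_⟩⟩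
  have hdvd : o i ∣ algebraMap ℤ O n := (Finset.dvd_prod_of_mem o (Finset.mem_univ i)).trans hn
  have hOV : ∀ o : O, V.valuation (algebraMap O F o) ≤ 1 := fun o =>
    (V.valuation_le_one_iff _).2 (hV (Subalgebra.algebraMap_mem
      (chart O (Submodule.span O (Set.range y)) (y i)) o))
  obtain ⟨c, hc⟩ := hdvd
  have h1 : V.valuation ((n : ℤ) : F) ≤ V.valuation (algebraMap O F (o i)) := by
    have h2 : ((n : ℤ) : F) = algebraMap O F (algebraMap ℤ O n) := by
      rw [eq_intCast, map_intCast]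
    rw [h2, hc, map_mul, map_mul, mul_comm]
    exact mul_le_of_le_one_of_le (hOV c) le_rfl
  have h3 : V.valuation ((n.natAbs : ℕ) : F) = V.valuation ((n : ℤ) : F) := by
    rcases Int.natAbs_eq n with h | h
    · conv_rhs => rw [h]
      rw [Int.cast_natCast]
    · conv_rhs => rw [h]
      rw [Int.cast_neg, Int.cast_natCast, Valuation.map_neg]
  rw [h3]
  exact h1

end

end Pool.Agent.TH188.ARC
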