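import Pool.Agent.TH188.ARC.A2

/-!
# The valuation ring attached to a trait at a point
-/

set_option autoImplicit false
set_option linter.unusedVariables false
set_option linter.unusedSectionVars false

universe u v w

namespace Pool.Agent.TH188.ARC

open IsLocalRing Pool.Agent.TH188.QS Pool.Agent.W418.LU2

variable {F : Type u} {L : Type v} [Field F] [Field L]

/-- `V` dominates the ring of the elements of the local ring `A` whose image in `L` is in `VL`. -/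
structure Tr (A : Subring F) (π : A →+* L) (VL : ValuationSubring L) (V : ValuationSubring F) :
    Prop where
  unit : ∀ a : A, π a ≠ 0 → (a : F)⁻¹ ∈ A
  mem : ∀ a : A, (a : F) ∈ V ↔ π a ∈ VL
  lt : ∀ a : A, V.valuation (a : F) < 1 ↔ VL.valuation (π a) < 1

lemma val_lt_iff {K : Type u} [Field K] {V : ValuationSubring K} {x : K} (hx : x ≠ 0) :
    V.valuation x < 1 ↔ x⁻¹ ∉ V := by
  rw [← ValuationSubring.valuation_le_one_iff, map_inv₀, not_le,
    one_lt_inv₀ ((Valuation.pos_iff _).2 hx)]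

lemma pi_inv {A : Subring F} (π : A →+* L) (a : A) (ha : (a : F)⁻¹ ∈ A) :
    π ⟨(a : F)⁻¹, ha⟩ = (π a)⁻¹ ∨ (a : F) = 0 := by
  by_cases h : (a : F) = 0
  · exact Or.inr h
  · left
    have h1 : a * ⟨(a : F)⁻¹, ha⟩ = 1 := Subtype.ext (mul_inv_cancel₀ h)
    have h2 := congrArg π h1
    rw [map_mul, map_one] at h2
    exact eq_inv_of_mul_eq_one_right h2

theorem exists_tr (A : Subring F) (π : A →+* L) (VL : ValuationSubring L)
    (hu : ∀ a : A, π a ≠ 0 → (a : F)⁻¹ ∈ A) : ∃ V : ValuationSubring F, Tr A π VL V := by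
  let U : Subring F :=
    { carrier := {x | ∃ h : x ∈ A, π ⟨x, h⟩ ∈ VL}
      mul_mem' := by
        rintro x y ⟨hx, hx'⟩ ⟨hy, hy'⟩
        exact ⟨A.mul_mem hx hy, by
          have h : (⟨x * y, A.mul_mem hx hy⟩ : A) = ⟨x, hx⟩ * ⟨y, hy⟩ := rfl
          rw [h, map_mul]
          exact VL.mul_mem _ _ hx' hy'⟩
      one_mem' := ⟨A.one_mem, by
        have h : (⟨1, A.one_mem⟩ : A) = 1 := rfl
        rw [h, map_one]
        exact VL.one_mem⟩
      add_mem' := by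
        rintro x y ⟨hx, hx'⟩ ⟨hy, hy'⟩
        exact ⟨A.add_mem hx hy, by
          have h : (⟨x + y, A.add_mem hx hy⟩ : A) = ⟨x, hx⟩ + ⟨y, hy⟩ := rfl
          rw [h, map_add]
          exact VL.add_mem _ _ hx' hy'⟩
      zero_mem' := ⟨A.zero_mem, by
        have h : (⟨0, A.zero_mem⟩ : A) = 0 := rfl
        rw [h, map_zero]
        exact VL.zero_mem⟩
      neg_mem' := by
        rintro x ⟨hx, hx'⟩
        exact ⟨A.neg_mem hx, by
          have h : (⟨-x, A.neg_mem hx⟩ : A) = -⟨x, hx⟩ := rfl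
          rw [h, map_neg]
          exact VL.neg_mem _ hx'⟩ }
  have hUA : ∀ x (hx : x ∈ U), ∃ h : x ∈ A, π ⟨x, h⟩ ∈ VL := fun x hx => hx
  -- units of `U`
  have hinvU : ∀ a : A, π a ≠ 0 → (π a)⁻¹ ∈ VL → (a : F)⁻¹ ∈ U := by
    intro a h0 hi
    refine ⟨hu a h0, ?_⟩
    rcases pi_inv π a (hu a h0) with h | h
    · rw [h]; exact hi
    · exfalso
      apply h0
      have : a = 0 := Subtype.ext h
      rw [this, map_zero]
  have hunit : ∀ a : U, IsUnit a ↔ π ⟨a, (hUA a a.2).1⟩ ≠ 0 ∧ (π ⟨a, (hUA a a.2).1⟩)⁻¹ ∈ VL := by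
    intro a
    constructor
    · intro h
      obtain ⟨b, hb⟩ := isUnit_iff_exists_inv.1 h
      have h1 : (⟨a, (hUA a a.2).1⟩ : A) * ⟨b, (hUA b b.2).1⟩ = 1 :=
        Subtype.ext (congrArg (fun z : U => (z : F)) hb)
      have h2 := congrArg π h1
      rw [map_mul, map_one] at h2
      refine ⟨left_ne_zero_of_mul_eq_one h2, ?_⟩
      rw [← eq_inv_of_mul_eq_one_right h2]
      exact (hUA b b.2).2
    · rintro ⟨h0, hi⟩
      have ha0 : (a : F) ≠ 0 := by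
        intro h
        apply h0
        have : (⟨a, (hUA a a.2).1⟩ : A) = 0 := Subtype.ext h
        rw [this, map_zero]
      refine isUnit_iff_exists_inv.2 ⟨⟨(a : F)⁻¹, hinvU ⟨a, (hUA a a.2).1⟩ h0 hi⟩, ?_⟩
      exact Subtype.ext (mul_inv_cancel₀ ha0)
  have hloc : IsLocalRing U := by
    have : Nontrivial U := ⟨⟨0, 1, fun h => zero_ne_one (congrArg (fun z : U => (z : F)) h)⟩⟩
    refine IsLocalRing.of_isUnit_or_isUnit_one_sub_self fun a => ?_
    rw [hunit, hunit]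
    have h1 : π ⟨(1 - a : U), (hUA (1 - a : U) (1 - a : U).2).1⟩ = 1 - π ⟨a, (hUA a a.2).1⟩ := by
      have : (⟨(1 - a : U), (hUA (1 - a : U) (1 - a : U).2).1⟩ : A) =
        1 - ⟨a, (hUA a a.2).1⟩ := rfl
      rw [this, map_sub, map_one]
    rw [h1]
    set α := π ⟨a, (hUA a a.2).1⟩ with hα
    have hαV : α ∈ VL := (hUA a a.2).2
    have h2 : ∀ β ∈ VL, (¬ (β ≠ 0 ∧ β⁻¹ ∈ VL)) → VL.valuation β < 1 := by
      intro β hβ h
      by_cases h0 : β = 0
      · rw [h0, map_zero]; exact zero_lt_one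
      · rw [val_lt_iff h0]
        exact fun h' => h ⟨h0, h'⟩
    by_contra hcon
    rw [not_or] at hcon
    have h3 := h2 α hαV hcon.1
    have h4 := h2 (1 - α) (VL.toSubring.sub_mem VL.one_mem hαV) hcon.2
    have h5 := Valuation.map_add_lt _ h3 h4
    rw [add_sub_cancel, map_one] at h5
    exact lt_irrefl _ h5
  let US : LocalSubring F := { toSubring := U, isLocalRing := hloc }
  obtain ⟨V, hV⟩ := US.exists_le_valuationSubring
  have hUV : ∀ x ∈ U, x ∈ V := fun x hx => hV.1 hx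
  have hdom : ∀ x (hx : x ∈ U), ¬ IsUnit (⟨x, hx⟩ : U) → V.valuation x < 1 := by
    intro x hx hn
    by_cases h0 : x = 0
    · rw [h0, map_zero]; exact zero_lt_one
    rw [val_lt_iff h0]
    intro hi
    apply hn
    have h1 : IsUnit (Subring.inclusion hV.1 (⟨x, hx⟩ : U)) :=
      isUnit_iff_exists_inv.2 ⟨⟨x⁻¹, hi⟩, Subtype.ext (mul_inv_cancel₀ h0)⟩
    have h2 : IsLocalHom (Subring.inclusion hV.1) := hV.2
    exact (isUnit_map_iff (Subring.inclusion hV.1) _).1 h1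
  -- elements with image in the maximal ideal
  have hlt1 : ∀ a : A, VL.valuation (π a) < 1 → V.valuation (a : F) < 1 := by
    intro a ha
    have haV : π a ∈ VL := (VL.valuation_le_one_iff _).1 ha.le
    refine hdom a ⟨a.2, haV⟩ ?_
    rw [hunit]
    rintro ⟨h0, hi⟩
    exact (val_lt_iff h0).1 ha hi
  have hmem1 : ∀ a : A, π a ∈ VL → (a : F) ∈ V := fun a ha => hUV a ⟨a.2, ha⟩
  refine ⟨V, hu, fun a => ⟨fun h => ?_, hmem1 a⟩, fun a => ⟨fun h => ?_, hlt1 a⟩⟩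
  · by_contra hn
    have h0 : π a ≠ 0 := fun h0 => hn (by rw [h0]; exact VL.zero_mem)
    have ha0 : (a : F) ≠ 0 := by
      intro h1
      apply h0
      have : a = 0 := Subtype.ext h1
      rw [this, map_zero]
    have h1 : VL.valuation (π ⟨(a : F)⁻¹, hu a h0⟩) < 1 := by
      rcases pi_inv π a (hu a h0) with h2 | h2
      · rw [h2, val_lt_iff (inv_ne_zero h0), inv_inv]
        exact hn
      · exact absurd h2 ha0
    have h2 := hlt1 _ h1
    change V.valuation (a : F)⁻¹ < 1 at h2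
    rw [val_lt_iff (inv_ne_zero ha0), inv_inv] at h2
    exact h2 h
  · by_cases h0 : π a = 0
    · rw [h0, map_zero]; exact zero_lt_one
    rw [val_lt_iff h0]
    intro hi
    have ha0 : (a : F) ≠ 0 := by
      intro h1
      apply h0
      have : a = 0 := Subtype.ext h1
      rw [this, map_zero]
    exact (val_lt_iff ha0).1 h (hUV _ (hinvU a h0 hi))

section tr

variable {A : Subring F} {π : A →+* L} {VL : ValuationSubring L} {V : ValuationSubring F}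

/-- The elements with nonzero image divide the elements of the maximal ideal. -/
lemma Tr.div (h : Tr A π VL V) {a b : F} (ha : a ∈ A) (hb : b ∈ A) (hπa : π ⟨a, ha⟩ = 0)
    (hπb : π ⟨b, hb⟩ ≠ 0) : V.valuation (a * b⁻¹) < 1 := by
  have hbi := h.unit ⟨b, hb⟩ hπb
  have h1 := (h.lt (⟨a, ha⟩ * ⟨b⁻¹, hbi⟩)).2 (by
    rw [map_mul, hπa, zero_mul, map_zero]; exact zero_lt_one)
  exact h1

lemma Tr.pi_ne (h : Tr A π VL V) {a b : F} (ha : a ∈ A) (hb : b ∈ A) (hb0 : b ≠ 0)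
    (hπa : π ⟨a, ha⟩ ≠ 0) (hab : a * b⁻¹ ∈ V) : π ⟨b, hb⟩ ≠ 0 := by
  intro h0
  have h1 := h.div hb ha h0 hπa
  have ha0 : a ≠ 0 := by
    intro h1
    apply hπa
    have : (⟨a, ha⟩ : A) = 0 := Subtype.ext h1
    rw [this, map_zero]
  rw [val_lt_iff (mul_ne_zero hb0 (inv_ne_zero ha0)), mul_inv, inv_inv, mul_comm] at h1
  exact h1 hab

lemma Tr.lo_le (h : Tr A π VL V) {B : Subring F} (hB : B ≤ A) : lo V.toSubring B ≤ A := by
  rintro _ ⟨a, ha, b, hb, hb0, hbi, rfl⟩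
  refine A.mul_mem (hB ha) (h.unit ⟨b, hB hb⟩ (h.pi_ne A.one_mem (hB hb) hb0 ?_ ?_))
  · have : (⟨1, A.one_mem⟩ : A) = 1 := rfl
    rw [this, map_one]
    exact one_ne_zero
  · rw [one_mul]; exact hbi

lemma Tr.qt_le (h : Tr A π VL V) {Q : Subring F} (hQ : Q ≤ A) {ϖ : F} (hϖ : ϖ ∈ Q)
    (hϖV : V.valuation ϖ < 1) (hϖA : ∀ hA : ϖ ∈ A, π ⟨ϖ, hA⟩ ≠ 0) : qt V.toSubring Q ≤ A := by
  refine h.lo_le ?_
  rw [Subring.closure_le]
  rintro x (hx | ⟨y, hy, z, hyn, hz, rfl⟩)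
  · exact hQ hx
  · have hnu : NU V.toSubring ϖ := by
      rintro ⟨h0, hi⟩
      exact (val_lt_iff h0).1 hϖV hi
    have h1 : π ⟨z, hQ hz.mem⟩ ≠ 0 :=
      h.pi_ne (hQ hϖ) (hQ hz.mem) hz.ne (hϖA _) (hz.min ϖ hϖ hnu)
    exact A.mul_mem (hQ hy) (h.unit ⟨z, hQ hz.mem⟩ h1)

lemma Tr.qseq_le (h : Tr A π VL V) {B : Subring F} (hB : B ≤ A) {ϖ : F} (hϖ : ϖ ∈ B)
    (hϖV : V.valuation ϖ < 1) (hϖA : ∀ hA : ϖ ∈ A, π ⟨ϖ, hA⟩ ≠ 0) (n : ℕ) :
    qseq V B n ≤ A ∧ ϖ ∈ qseq V B n := by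
  induction n with
  | zero => exact ⟨h.lo_le hB, le_lo _ _ hϖ⟩
  | succ n ih => exact ⟨h.qt_le ih.1 ih.2 hϖV hϖA, le_qt _ _ ih.2⟩

/-- The values along the trait diverge, relatively to elements with nonzero image. -/
theorem Tr.dv (h : Tr A π VL V) [IsDiscreteValuationRing VL] {Q : ℕ → Subring F}
    (hQ : ∀ n, Q n ≤ A) {d : F} (hd : d ∈ A) (hd0 : π ⟨d, hd⟩ ≠ 0) :
    ∃ n, ∀ z : ℕ → F, (∀ i < n, z i ∈ Q i ∧ z i ≠ 0 ∧ V.valuation (z i) < 1) →
      d * (∏ i ∈ Finset.range n, z i)⁻¹ ∉ V := by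
  classical
  obtain ⟨n, hn⟩ := dv_of_dvr (V := VL) inferInstance (Q := fun _ => VL.toSubring)
    (fun _ => le_rfl) _ hd0
  refine ⟨n, fun z hz hcon => ?_⟩
  have hzA : ∀ i < n, z i ∈ A := fun i hi => hQ i (hz i hi).1
  let z' : ℕ → A := fun i => if hi : i < n then ⟨z i, hzA i hi⟩ else 1
  have hz' : ∀ i < n, ((z' i : A) : F) = z i := fun i hi => by
    simp only [z', dif_pos hi]
  have hprod : ((∏ i ∈ Finset.range n, z' i : A) : F) = ∏ i ∈ Finset.range n, z i := by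
    rw [SubmonoidClass.coe_finsetProd]
    exact Finset.prod_congr rfl fun i hi => hz' i (Finset.mem_range.1 hi)
  have hZ0 : ∏ i ∈ Finset.range n, z i ≠ 0 :=
    Finset.prod_ne_zero_iff.2 fun i hi => (hz i (Finset.mem_range.1 hi)).2.1
  have hZA : ∏ i ∈ Finset.range n, z i ∈ A := by
    rw [← hprod]; exact (∏ i ∈ Finset.range n, z' i : A).2
  have h1 : π ⟨_, hZA⟩ ≠ 0 := h.pi_ne hd hZA hZ0 hd0 hcon
  have h2 : (⟨_, hZA⟩ : A) = ∏ i ∈ Finset.range n, z' i := Subtype.ext hprod.symm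
  rw [h2, map_prod] at h1
  have hne : ∀ i < n, π (z' i) ≠ 0 := fun i hi =>
    Finset.prod_ne_zero_iff.1 h1 i (Finset.mem_range.2 hi)
  refine hn (fun i => π (z' i)) (fun i hi => ?_) ?_
  · have h3 := (hz i hi).2.2
    rw [← hz' i hi, h.lt] at h3
    exact ⟨(VL.valuation_le_one_iff _).1 h3.le, hne i hi, h3⟩
  · have hZi := h.unit ⟨_, hZA⟩ (by rw [h2, map_prod]; exact h1)
    have h4 := (h.mem (⟨d, hd⟩ * ⟨_, hZi⟩)).1 hcon
    rw [map_mul] at h4
    rcases pi_inv π ⟨_, hZA⟩ hZi with h5 | h5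
    · rw [h5, h2, map_prod] at h4
      exact h4
    · exact absurd h5 hZ0

end tr

end Pool.Agent.TH188.ARC
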