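import Pool.Agent.TH188.ARC.A13
import Pool.Agent.TH188.ARC.A3

/-!
# Bounds for the values and the residue fields of a number field
-/

set_option autoImplicit false
set_option linter.unusedVariables false
set_option linter.unusedSectionVars false

open NumberField IsLocalRing

namespace Pool.Agent.TH188.ARC

section

variable {L : Type} [Field L] [NumberField L]

/-- the elements of value at most that of `w` -/
def wId (V : ValuationSubring L) (w : L) : Ideal (𝓞 L) where
  carrier := {x | algebraMap (𝓞 L) L x * w⁻¹ ∈ V}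
  zero_mem' := by
    change algebraMap (𝓞 L) L 0 * w⁻¹ ∈ V
    rw [map_zero, zero_mul]; exact V.zero_mem
  add_mem' := fun {a b} ha hb => by
    change algebraMap (𝓞 L) L (a + b) * w⁻¹ ∈ V
    rw [map_add, add_mul]
    exact V.add_mem _ _ ha hb
  smul_mem' := fun c a ha => by
    change algebraMap (𝓞 L) L (c * a) * w⁻¹ ∈ V
    rw [map_mul, mul_assoc]
    exact V.mul_mem _ _ (int_mem V c) ha

lemma mem_wId {V : ValuationSubring L} {w : L} {x : 𝓞 L} :
    x ∈ wId V w ↔ algebraMap (𝓞 L) L x * w⁻¹ ∈ V := Iff.rfl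

lemma wId_lt {V : ValuationSubring L} (hV : V ≠ ⊤) {w z : L} (hw : w ∈ V) (hw0 : w ≠ 0)
    (hz0 : z ≠ 0) (hz : V.valuation z < 1) : wId V (w * z) < wId V w := by
  refine lt_of_le_of_ne ?_ ?_
  · intro x hx
    rw [mem_wId] at hx ⊢
    have h1 : algebraMap (𝓞 L) L x * w⁻¹ = algebraMap (𝓞 L) L x * (w * z)⁻¹ * z := by
      field_simp
    rw [h1]
    exact V.mul_mem _ _ hx ((V.valuation_le_one_iff _).1 hz.le)
  · intro heq
    obtain ⟨a, b, hb, hwab⟩ := exists_frac V hV hw
    have hb0 : algebraMap (𝓞 L) L b ≠ 0 := by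
      intro h
      apply hb
      rw [mem_ctr, h, map_zero]
      exact zero_lt_one
    have ha0 : algebraMap (𝓞 L) L a ≠ 0 := by
      intro h
      apply hw0
      rw [hwab, h, zero_mul]
    have h1 : a ∈ wId V w := by
      rw [mem_wId]
      have : algebraMap (𝓞 L) L a * w⁻¹ = algebraMap (𝓞 L) L b := by
        rw [hwab]; field_simp
      rw [this]
      exact int_mem V b
    rw [← heq, mem_wId] at h1
    have h2 : algebraMap (𝓞 L) L a * (w * z)⁻¹ = algebraMap (𝓞 L) L b * z⁻¹ := by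
      rw [hwab]; field_simp
    rw [h2, ← V.valuation_le_one_iff, map_mul, one_of_notMem hb, one_mul,
      V.valuation_le_one_iff] at h1
    exact (val_lt_iff' hz0).1 hz h1

lemma absNorm_two {I J : Ideal (𝓞 L)} (h : J < I) (hJ : J ≠ ⊥) :
    2 * Ideal.absNorm I ≤ Ideal.absNorm J := by
  obtain ⟨K, hK⟩ := Ideal.dvd_iff_le.2 h.le
  have hK0 : K ≠ ⊥ := by
    rintro rfl
    apply hJ
    rw [hK, Ideal.mul_bot]
  have hK1 : K ≠ ⊤ := by
    rintro rfl
    rw [Ideal.mul_top] at hK
    exact h.ne hK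
  have h1 : Ideal.absNorm K ≠ 0 := by
    rw [Ne, Ideal.absNorm_eq_zero_iff]
    exact hK0
  have h2 : Ideal.absNorm K ≠ 1 := by
    rw [Ne, Ideal.absNorm_eq_one_iff]
    exact hK1
  rw [hK, map_mul, mul_comm]
  exact Nat.mul_le_mul_left _ (by omega)

lemma absNorm_nat (N : ℕ) : Ideal.absNorm (Ideal.span {(N : 𝓞 L)}) =
    N ^ Module.finrank ℚ L := by
  rw [Ideal.absNorm_span_singleton]
  have h1 : (N : 𝓞 L) = algebraMap ℤ (𝓞 L) (N : ℤ) := by simp
  rw [h1, Algebra.norm_algebraMap, Int.natAbs_pow, Int.natAbs_natCast,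
    RingOfIntegers.rank L]

theorem value_bound {V : ValuationSubring L} (hV : V ≠ ⊤) {N : ℕ} (hN : N ≠ 0) {n : ℕ}
    {z : ℕ → L} (hz : ∀ i < n, z i ∈ V ∧ z i ≠ 0 ∧ V.valuation (z i) < 1)
    (h : (N : L) * (∏ i ∈ Finset.range n, z i)⁻¹ ∈ V) :
    2 ^ n ≤ N ^ Module.finrank ℚ L := by
  have hN0 : (N : 𝓞 L) ≠ 0 := by exact_mod_cast hN
  have key : ∀ k ≤ n, (N : L) * (∏ i ∈ Finset.range k, z i)⁻¹ ∈ V →
      2 ^ k ≤ Ideal.absNorm (wId V (∏ i ∈ Finset.range k, z i)) := by
    intro k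
    induction k with
    | zero =>
      intro _ hk
      rw [pow_zero, Nat.one_le_iff_ne_zero, Ne, Ideal.absNorm_eq_zero_iff]
      intro h0
      have h1 : (N : 𝓞 L) ∈ wId V (∏ i ∈ Finset.range 0, z i) := by
        rw [mem_wId, map_natCast]; exact hk
      rw [h0, Ideal.mem_bot] at h1
      exact hN0 h1
    | succ k ih =>
      intro hk hmem
      have hzk := hz k (by omega)
      have hw0 : ∏ i ∈ Finset.range k, z i ≠ 0 :=
        Finset.prod_ne_zero_iff.2 fun i hi => (hz i (by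
          have := Finset.mem_range.1 hi; omega)).2.1
      have hwV : ∏ i ∈ Finset.range k, z i ∈ V := V.toSubring.prod_mem fun i hi => (hz i (by
          have := Finset.mem_range.1 hi; omega)).1
      have hprev : (N : L) * (∏ i ∈ Finset.range k, z i)⁻¹ ∈ V := by
        have h1 : (N : L) * (∏ i ∈ Finset.range k, z i)⁻¹ =
            (N : L) * (∏ i ∈ Finset.range (k + 1), z i)⁻¹ * z k := by
          rw [Finset.prod_range_succ]
          have := hzk.2.1
          field_simp
        rw [h1]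
        exact V.mul_mem _ _ hmem hzk.1
      have h2 := ih (by omega) hprev
      have h3 : wId V (∏ i ∈ Finset.range (k + 1), z i) < wId V (∏ i ∈ Finset.range k, z i) := by
        rw [Finset.prod_range_succ]
        exact wId_lt hV hwV hw0 hzk.2.1 hzk.2.2
      have h4 : wId V (∏ i ∈ Finset.range (k + 1), z i) ≠ ⊥ := by
        intro h0
        have h1 : (N : 𝓞 L) ∈ wId V (∏ i ∈ Finset.range (k + 1), z i) := by
          rw [mem_wId, map_natCast]; exact hmem
        rw [h0, Ideal.mem_bot] at h1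
        exact hN0 h1
      have h5 := absNorm_two h3 h4
      rw [pow_succ, mul_comm]
      exact (Nat.mul_le_mul_left 2 h2).trans h5
  have h1 := key n le_rfl h
  have h2 : Ideal.absNorm (wId V (∏ i ∈ Finset.range n, z i)) ∣
      Ideal.absNorm (Ideal.span {(N : 𝓞 L)}) := by
    refine Ideal.absNorm_dvd_absNorm_of_le ?_
    rw [Ideal.span_singleton_le_iff_mem, mem_wId, map_natCast]
    exact h
  rw [absNorm_nat] at h2
  exact h1.trans (Nat.le_of_dvd (Nat.pos_of_ne_zero (pow_ne_zero _ hN)) h2)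

/-- The number of elements of the residue field. -/
theorem card_residue {V : ValuationSubring L} (hV : V ≠ ⊤) {N : ℕ} (hN : N ≠ 0)
    (hNV : V.valuation (N : L) < 1) : Nat.card (ResidueField V) ≤ N ^ Module.finrank ℚ L := by
  let φ : 𝓞 L →+* V := (algebraMap (𝓞 L) L).codRestrict V.toSubring (int_mem V)
  let f : 𝓞 L →+* ResidueField V := (residue V).comp φ
  have hf : ∀ x, f x = 0 ↔ x ∈ ctr V := fun x => by
    change residue V (φ x) = 0 ↔ _
    rw [residue_eq_zero_iff, V.valuation_lt_one_iff]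
    rfl
  have hne := ctr_ne_bot V hV
  have hmax : (ctr V).IsMaximal := (ctr_prime V).isMaximal hne
  have hsurj : Function.Surjective (Ideal.Quotient.lift (ctr V) f fun x hx => (hf x).2 hx) := by
    intro r
    obtain ⟨z, rfl⟩ := residue_surjective r
    obtain ⟨a, b, hb, hz⟩ := exists_frac V hV z.2
    obtain ⟨c, hc⟩ : ∃ c, b * c - 1 ∈ ctr V := by
      obtain ⟨y, i, hi, hyi⟩ := hmax.exists_inv hb
      refine ⟨y, ?_⟩
      have : b * y - 1 = -i := by rw [← hyi]; ring
      rw [this]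
      exact neg_mem hi
    refine ⟨Ideal.Quotient.mk _ (a * c), ?_⟩
    rw [Ideal.Quotient.lift_mk]
    have hb0 : algebraMap (𝓞 L) L b ≠ 0 := by
      intro h
      apply hb
      rw [mem_ctr, h, map_zero]
      exact zero_lt_one
    have h1 : z * φ b = φ a := by
      apply Subtype.ext
      change (z : L) * algebraMap (𝓞 L) L b = algebraMap (𝓞 L) L a
      rw [hz, mul_assoc, inv_mul_cancel₀ hb0, mul_one]
    have h2 : f b * f c = 1 := by
      have h3 := (hf _).2 hc
      rw [map_sub, map_mul, map_one, sub_eq_zero] at h3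
      exact h3
    have h4 : f a = residue V z * f b := by
      change residue V (φ a) = residue V z * residue V (φ b)
      rw [← h1, map_mul]
    rw [map_mul, h4, mul_assoc, h2, mul_one]
  have hfin : Finite (𝓞 L ⧸ ctr V) := (ctr V).finiteQuotientOfFreeOfNeBot hne
  have h1 : Nat.card (ResidueField V) ≤ Nat.card (𝓞 L ⧸ ctr V) :=
    Nat.card_le_card_of_surjective _ hsurj
  have h2 : Nat.card (𝓞 L ⧸ ctr V) = Ideal.absNorm (ctr V) := rfl
  have h3 : Ideal.absNorm (ctr V) ∣ Ideal.absNorm (Ideal.span {(N : 𝓞 L)}) := by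
    refine Ideal.absNorm_dvd_absNorm_of_le ?_
    rw [Ideal.span_singleton_le_iff_mem, mem_ctr, map_natCast]
    exact hNV
  rw [absNorm_nat] at h3
  rw [h2] at h1
  exact h1.trans (Nat.le_of_dvd (Nat.pos_of_ne_zero (pow_ne_zero _ hN)) h3)

end

section

variable {F L : Type} [Field F] [Field L]
variable {A : Subring F} {π : A →+* L} {VL : ValuationSubring L} {V : ValuationSubring F}

theorem Tr.dv_of (h : Tr A π VL V) {Q : ℕ → Subring F}
    (hQ : ∀ n, Q n ≤ A) {d : F} (hd : d ∈ A) (hd0 : π ⟨d, hd⟩ ≠ 0) {n : ℕ}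
    (hn : ∀ z : ℕ → L, (∀ i < n, z i ∈ VL ∧ z i ≠ 0 ∧ VL.valuation (z i) < 1) →
      π ⟨d, hd⟩ * (∏ i ∈ Finset.range n, z i)⁻¹ ∉ VL) (z : ℕ → F)
    (hz : ∀ i < n, z i ∈ Q i ∧ z i ≠ 0 ∧ V.valuation (z i) < 1) :
    d * (∏ i ∈ Finset.range n, z i)⁻¹ ∉ V := by
  classical
  intro hcon
  have hzA : ∀ i < n, z i ∈ A := fun i hi => hQ i (hz i hi).1
  let z' : ℕ → A := fun i => if hi : i < n then ⟨z i, hzA i hi⟩ else 1
  have hz' : ∀ i < n, ((z' i : A) : F) = z i := fun i hi => by
    simp only [z', dif_pos hi]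
  have hprod : ((∏ i ∈ Finset.range n, z' i : A) : F) = ∏ i ∈ Finset.range n, z i := by
    rw [SubmonoidClass.coe_finsetProd]
    exact Finset.prod_congr rfl fun i hi => hz' i (Finset.mem_range.1 hi)
  have hZ0 : ∏ i ∈ Finset.range n, z i ≠ 0 :=
    Finset.prod_ne_zero_iff.2 fun i hi => (hz i (Finset.mem_range.1 hi)).2.1
  have hZA : ∏ i ∈ Finset.range n, z i ∈ A := by
    rw [← hprod]; exact (∏ i ∈ Finset.range n, z' i : A).2
  have h1 : π ⟨_, hZA⟩ ≠ 0 := h.pi_ne hd hZA hZ0 hd0 hcon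
  have h2 : (⟨_, hZA⟩ : A) = ∏ i ∈ Finset.range n, z' i := Subtype.ext hprod.symm
  rw [h2, map_prod] at h1
  have hne : ∀ i < n, π (z' i) ≠ 0 := fun i hi =>
    Finset.prod_ne_zero_iff.1 h1 i (Finset.mem_range.2 hi)
  refine hn (fun i => π (z' i)) (fun i hi => ?_) ?_
  · have h3 := (hz i hi).2.2
    rw [← hz' i hi, h.lt] at h3
    exact ⟨(VL.valuation_le_one_iff _).1 h3.le, hne i hi, h3⟩
  · have hZi := h.unit ⟨_, hZA⟩ (by rw [h2, map_prod]; exact h1)
    have h4 := (h.mem (⟨d, hd⟩ * ⟨_, hZi⟩)).1 hcon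
    rw [map_mul] at h4
    rcases pi_inv π ⟨_, hZA⟩ hZi with h5 | h5
    · rw [h5, h2, map_prod] at h4
      exact h4
    · exact absurd h5 hZ0

end

end Pool.Agent.TH188.ARC
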