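import Pool.Agent.TH188.ARC.A3
import Pool.Agent.TH188.QS.LU2

/-!
# Regularity of the quadratic transforms along a trait
-/

set_option autoImplicit false
set_option linter.unusedVariables false
set_option linter.unusedSectionVars false

universe u

namespace Pool.Agent.TH188.ARC

open IsLocalRing Pool.Agent.TH188.QS Pool.Agent.W418.LU2

theorem trait_regular {O F L : Type u} [CommRing O] [IsDomain O] [IsRegularRing O] [Field F]
    [Algebra O F] [Field L] [CharZero L] {N : ℕ} (x : Fin N → F) {A : Subring F}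
    [IsRegularLocalRing A]
    (hxA : ∀ i, x i ∈ A) (hOA : ∀ o, algebraMap O F o ∈ A) {π : A →+* L}
    (hOL : ∀ o : O, o ≠ 0 → π ⟨_, hOA o⟩ ≠ 0)
    (hAfr : ∀ a ∈ A, ∃ b ∈ Algebra.adjoin O (Set.range x), ∃ c ∈ Algebra.adjoin O (Set.range x),
      ∃ hc : c ∈ A, π ⟨c, hc⟩ ≠ 0 ∧ a = b * c⁻¹)
    {VL : ValuationSubring L} [IsDiscreteValuationRing VL] {V : ValuationSubring F}
    (h : Tr A π VL V) (hxV : ∀ i, x i ∈ V) (hOV : ∀ o, algebraMap O F o ∈ V)
    {ϖ : O} (hϖ0 : ϖ ≠ 0) (hϖ : V.valuation (algebraMap O F ϖ) < 1) :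
    ∃ n, IsRegularLocalRing (qseq V (Algebra.adjoin O (Set.range x)).toSubring n) := by
  classical
  let S := MvPolynomial (Fin N) O
  let φ : S →+* F := (MvPolynomial.aeval x : S →ₐ[O] F).toRingHom
  have hφr : φ.range = (Algebra.adjoin O (Set.range x)).toSubring := by
    rw [Algebra.adjoin_range_eq_range_aeval]
    rfl
  have hBA : (Algebra.adjoin O (Set.range x)).toSubring ≤ A := by
    let A' : Subalgebra O F := { A with algebraMap_mem' := hOA }
    have : Algebra.adjoin O (Set.range x) ≤ A' := Algebra.adjoin_le (by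
      rintro _ ⟨i, rfl⟩
      exact hxA i)
    exact this
  have hBV : (Algebra.adjoin O (Set.range x)).toSubring ≤ V.toSubring := by
    let A' : Subalgebra O F := { V.toSubring with algebraMap_mem' := hOV }
    have : Algebra.adjoin O (Set.range x) ≤ A' := Algebra.adjoin_le (by
      rintro _ ⟨i, rfl⟩
      exact hxV i)
    exact this
  have hφA : ∀ s, φ s ∈ A := fun s => hBA (hφr ▸ ⟨s, rfl⟩)
  have hφV : ∀ s, φ s ∈ V := fun s => hBV (hφr ▸ ⟨s, rfl⟩)
  let φA : S →+* A := φ.codRestrict A hφA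
  -- units of `A`
  have hπu : ∀ a : A, π a ≠ 0 ↔ IsUnit a := by
    intro a
    constructor
    · intro ha
      have ha0 : (a : F) ≠ 0 := by
        intro h1
        apply ha
        have : a = 0 := Subtype.ext h1
        rw [this, map_zero]
      exact isUnit_iff_exists_inv.2 ⟨⟨_, h.unit a ha⟩, Subtype.ext (mul_inv_cancel₀ ha0)⟩
    · intro ha
      exact (ha.map π).ne_zero
  let L₁ := ResidueField A
  have hπr : ∀ a : A, residue A a = 0 ↔ π a = 0 := by
    intro a
    rw [residue_eq_zero_iff, mem_maximalIdeal, mem_nonunits_iff, ← hπu, not_not]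
  have hφπ : ∀ s, residue A (φA s) = 0 ↔ π (φA s) = 0 := fun s => hπr _
  have hch : CharZero L₁ := by
    refine charZero_of_inj_zero fun n hn => ?_
    have h1 : residue A (n : A) = 0 := by rw [map_natCast]; exact hn
    rw [hπr, map_natCast] at h1
    exact_mod_cast h1
  let _ : Algebra S L₁ := ((residue A).comp φA).toAlgebra
  let _ : Algebra O L₁ := ((algebraMap S L₁).comp (algebraMap O S)).toAlgebra
  have hst : IsScalarTower O S L₁ := IsScalarTower.of_algebraMap_eq fun _ => rfl
  have hφO : ∀ o : O, φA (algebraMap O S o) = ⟨_, hOA o⟩ := fun o =>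
    Subtype.ext ((MvPolynomial.aeval x : S →ₐ[O] F).commutes o)
  have hOinj : Function.Injective (algebraMap O L₁) := by
    rw [injective_iff_map_eq_zero]
    intro o ho
    by_contra h0
    apply hOL o h0
    rw [← hφO, ← hφπ]
    exact ho
  have hH : Subsingleton (Algebra.H1Cotangent O L₁) := h1_charZero hOinj
  have hfr : ∀ z : L₁, ∃ a b : S, algebraMap S L₁ b ≠ 0 ∧
      z * algebraMap S L₁ b = algebraMap S L₁ a := by
    intro z
    obtain ⟨a, rfl⟩ := residue_surjective z
    obtain ⟨b, hb, c, hc, hcA, hπc, habc⟩ := hAfr a a.2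
    obtain ⟨s, hs⟩ : b ∈ φ.range := by rw [hφr]; exact hb
    obtain ⟨t, ht⟩ : c ∈ φ.range := by rw [hφr]; exact hc
    have hsA : φA s = ⟨b, hBA hb⟩ := Subtype.ext hs
    have htA : φA t = ⟨c, hcA⟩ := Subtype.ext ht
    refine ⟨s, t, ?_, ?_⟩
    · change residue A (φA t) ≠ 0
      rw [Ne, hφπ, htA]
      exact hπc
    · change residue A a * residue A (φA t) = residue A (φA s)
      rw [← map_mul]
      congr 1
      rw [hsA, htA]
      apply Subtype.ext
      change (a : F) * c = b
      have hc0 : c ≠ 0 := by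
        intro h1
        apply hπc
        have : (⟨c, hcA⟩ : A) = 0 := Subtype.ext h1
        rw [this, map_zero]
      rw [habc, mul_assoc, inv_mul_cancel₀ hc0, mul_one]
  set I : Ideal S := RingHom.ker (algebraMap S L₁) with hI
  have hIp : I.IsPrime := RingHom.ker_isPrime _
  have hIm : ∀ s, s ∈ I ↔ π (φA s) = 0 := fun s => by
    rw [hI, RingHom.mem_ker, ← hφπ]
    rfl
  let O' := Localization.AtPrime I
  have hO' : IsRegularLocalRing O' := IsRegularRing.isRegularLocalRing_localization I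
  let 𝔭 : Ideal S := RingHom.ker φ
  have h𝔭 : 𝔭 ≤ I := by
    intro s hs
    rw [hIm]
    have : φA s = 0 := Subtype.ext (RingHom.mem_ker.1 hs)
    rw [this, map_zero]
  have hunit : ∀ y : I.primeCompl, IsUnit (φA y) := by
    intro y
    rw [← hπu]
    exact fun h1 => y.2 ((hIm _).2 h1)
  let θ : O' →+* A := IsLocalization.lift (M := I.primeCompl) hunit
  have hθ : ∀ s, θ (algebraMap S O' s) = φA s := fun s => IsLocalization.lift_eq hunit s
  have hθs : Function.Surjective θ := by
    intro a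
    obtain ⟨b, hb, c, hc, hcA, hπc, habc⟩ := hAfr a a.2
    obtain ⟨s, hs⟩ : b ∈ φ.range := by rw [hφr]; exact hb
    obtain ⟨t, ht⟩ : c ∈ φ.range := by rw [hφr]; exact hc
    have hsA : φA s = ⟨b, hBA hb⟩ := Subtype.ext hs
    have htA : φA t = ⟨c, hcA⟩ := Subtype.ext ht
    have htI : t ∈ I.primeCompl := by
      intro h1
      have h2 := (hIm t).1 h1
      rw [htA] at h2
      exact hπc h2
    refine ⟨IsLocalization.mk' O' s ⟨t, htI⟩, ?_⟩
    rw [IsLocalization.lift_mk'_spec]
    change φA s = φA t * a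
    rw [hsA, htA]
    apply Subtype.ext
    change b = c * a
    have hc0 : c ≠ 0 := by
      intro h1
      apply hπc
      have : (⟨c, hcA⟩ : A) = 0 := Subtype.ext h1
      rw [this, map_zero]
    rw [habc]
    field_simp
  have hθk : RingHom.ker θ = 𝔭.map (algebraMap S O') := by
    apply le_antisymm
    · intro y hy
      obtain ⟨s, t, rfl⟩ := IsLocalization.exists_mk'_eq I.primeCompl y
      have h1 : θ (IsLocalization.mk' O' s t) * φA t = φA s := by
        rw [← hθ, ← hθ, ← map_mul, IsLocalization.mk'_spec]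
      rw [RingHom.mem_ker.1 hy, zero_mul] at h1
      have h2 : s ∈ 𝔭 := RingHom.mem_ker.2 (congrArg Subtype.val h1).symm
      rw [IsLocalization.mk'_eq_mul_mk'_one]
      exact Ideal.mul_mem_right _ _ (Ideal.mem_map_of_mem _ h2)
    · rw [Ideal.map_le_iff_le_comap]
      intro s hs
      rw [Ideal.mem_comap, RingHom.mem_ker, hθ]
      exact Subtype.ext (RingHom.mem_ker.1 hs)
  have hreg : IsRegularLocalRing (O' ⧸ 𝔭.map (algebraMap S O')) := by
    rw [← hθk]
    exact IsRegularLocalRing.of_ringEquiv (RingHom.quotientKerEquivOfSurjective hθs).symm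
  have hIp' : (RingHom.ker (algebraMap S L₁)).IsPrime := hIp
  have hloc : IsLocalization.AtPrime O' (RingHom.ker (algebraMap S L₁)) :=
    inferInstanceAs (IsLocalization.AtPrime O' I)
  obtain ⟨r, f, D, hf, hgen, hdet⟩ := exists_jac_at (k₀ := O) (O := O') hH hfr 𝔭 h𝔭
  have hD : ∀ j, Der φ (fun s => φ (D j s)) := fun j =>
    { add := fun a b => by rw [map_add, map_add]
      mul := fun a b => by
        rw [Derivation.leibniz, smul_eq_mul, smul_eq_mul, map_add, map_mul, map_mul] }
  have hnoe : IsNoetherianRing φ.range := isNoetherianRing_of_surjective _ _ φ.rangeRestrict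
    φ.rangeRestrict_surjective
  have hϖB : algebraMap O F ϖ ∈ φ.range := ⟨algebraMap O S ϖ,
    (MvPolynomial.aeval x : S →ₐ[O] F).commutes ϖ⟩
  have hϖF : algebraMap O F ϖ ≠ 0 := by
    intro h1
    apply hOL ϖ hϖ0
    have : (⟨_, hOA ϖ⟩ : A) = 0 := Subtype.ext h1
    rw [this, map_zero]
  have hne0 : ∃ y ∈ φ.range, y ≠ 0 ∧ V.valuation y < 1 := ⟨_, hϖB, hϖF, hϖ⟩
  have hrV : φ.range ≤ V.toSubring := by rw [hφr]; exact hBV
  have hrA : φ.range ≤ A := by rw [hφr]; exact hBA
  obtain ⟨-, hmi⟩ := seq_fg (Q := qseq V φ.range) hrV hne0 rfl (fun n => rfl)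
  have hdA : (Matrix.of fun i j => φ (D j (f i))).det = ((Matrix.of fun i j =>
      φA (D j (f i))).det : A) := by
    have h1 := RingHom.map_det A.subtype (Matrix.of fun i j => φA (D j (f i)))
    exact h1.symm
  have hd0 : π (Matrix.of fun i j => φA (D j (f i))).det ≠ 0 := by
    rw [Ne, ← hπr]
    intro h1
    apply hdet
    have h2 := RingHom.map_det (residue A) (Matrix.of fun i j => φA (D j (f i)))
    rw [h1] at h2
    exact h2.symm
  have hgen' : ∀ s, φ s = 0 → ∃ t, φ t ≠ 0 ∧ t * s ∈ Ideal.span (Set.range f) := by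
    intro s hs
    obtain ⟨t, ht, hts⟩ := hgen s (RingHom.mem_ker.2 hs)
    refine ⟨t, fun h1 => ht ?_, hts⟩
    have h2 : φA t = 0 := Subtype.ext h1
    change residue A (φA t) = 0
    rw [h2, map_zero]
  have hqs := fun n => h.qseq_le hrA hϖB hϖ (fun hA => hOL ϖ hϖ0) n
  obtain ⟨n, hn⟩ := h.dv (Q := qseq V φ.range) (fun n => (hqs n).1)
    (Matrix.of fun i j => φA (D j (f i))).det.2 hd0
  have := exists_regular' (Q := qseq V φ.range) hφV hD (C := 1) one_ne_zero
    (fun j s => by rw [one_mul]; exact hφV _) (fun i => RingHom.mem_ker.1 (hf i)) hgen' rfl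
    (fun n => rfl) hmi ⟨n, fun z hz => by
      rw [one_pow, one_mul, hdA]
      exact hn z hz⟩
  rw [hφr] at this
  exact this

end Pool.Agent.TH188.ARC
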