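import Pool.Agent.TH188.ARC.A3
import Pool.Agent.H918R2.Quad.Defs

/-!
# Modules whose charts are the quadratic transforms
-/

set_option autoImplicit false
set_option linter.unusedVariables false
set_option linter.unusedSectionVars false

namespace Pool.Agent.TH188.ARC

open IsLocalRing Pool.Agent.TH188.QS Pool.Agent.W418.LU2 Pool.Agent.H918R2.Quad

variable {O F : Type} [CommRing O] [Field F] [Algebra O F]

lemma mul_lt_one_aux {V : ValuationSubring F} {a b : V.ValueGroup} (ha : a ≤ 1) (hb : b < 1) :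
    a * b < 1 := (mul_le_of_le_one_of_le ha le_rfl).trans_lt hb

lemma mul_lt_one_aux' {V : ValuationSubring F} {a b : V.ValueGroup} (ha : a < 1) (hb : b ≤ 1) :
    a * b < 1 := by
  rw [mul_comm]
  exact mul_lt_one_aux hb ha

lemma chart_pow_mem {M : Submodule O F} {g : F} (hg : g ∈ M) (hg0 : g ≠ 0) {y : F}
    (hy : y ∈ chart O M g) : ∃ k : ℕ, ∀ l, k ≤ l → y * g ^ l ∈ M ^ l := by
  induction hy using Algebra.adjoin_induction with
  | mem y hy =>
    obtain ⟨m, hm, rfl⟩ := hy
    refine ⟨1, fun l hl => ?_⟩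
    obtain ⟨l, rfl⟩ := Nat.exists_eq_add_of_le' hl
    have h1 : m / g * g ^ (l + 1) = m * g ^ l := by
      rw [pow_succ']
      field_simp
    rw [h1, pow_succ' M]
    exact Submodule.mul_mem_mul hm (Submodule.pow_mem_pow _ hg _)
  | algebraMap r =>
    refine ⟨0, fun l _ => ?_⟩
    rw [← Algebra.smul_def]
    exact Submodule.smul_mem _ _ (Submodule.pow_mem_pow _ hg _)
  | add a b _ _ ha hb =>
    obtain ⟨k, hk⟩ := ha
    obtain ⟨k', hk'⟩ := hb
    refine ⟨max k k', fun l hl => ?_⟩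
    rw [add_mul]
    exact Submodule.add_mem _ (hk l ((le_max_left _ _).trans hl))
      (hk' l ((le_max_right _ _).trans hl))
  | mul a b _ _ ha hb =>
    obtain ⟨k, hk⟩ := ha
    obtain ⟨k', hk'⟩ := hb
    refine ⟨k + k', fun l hl => ?_⟩
    obtain ⟨e, rfl⟩ := Nat.exists_eq_add_of_le hl
    have h1 : a * b * g ^ (k + k' + e) = (a * g ^ k) * (b * g ^ (k' + e)) := by
      rw [add_assoc, pow_add]; ring
    rw [h1, add_assoc, pow_add]
    exact Submodule.mul_mem_mul (hk k le_rfl) (hk' _ (Nat.le_add_right _ _))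

lemma pow_div_mem {M : Submodule O F} {g : F} (hg0 : g ≠ 0) (k : ℕ) :
    ∀ m ∈ M ^ k, m / g ^ k ∈ chart O M g := by
  induction k with
  | zero =>
    intro m hm
    rw [pow_zero, Submodule.mem_one] at hm
    obtain ⟨o, rfl⟩ := hm
    rw [pow_zero, div_one]
    exact Subalgebra.algebraMap_mem _ o
  | succ k ih =>
    intro m hm
    rw [pow_succ] at hm
    refine Submodule.mul_induction_on hm (fun a ha b hb => ?_) (fun a b ha hb => ?_)
    · rw [pow_succ, mul_div_mul_comm]
      exact Subalgebra.mul_mem _ (ih a ha) (Algebra.subset_adjoin ⟨b, hb, rfl⟩)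
    · rw [add_div]
      exact Subalgebra.add_mem _ ha hb

lemma chart_noeth [IsNoetherianRing O] {M : Submodule O F} (hM : M.FG) (g : F) :
    IsNoetherianRing (chart O M g) := by
  obtain ⟨s, hs⟩ := hM
  have h1 : chart O M g = Algebra.adjoin O ((fun m => m / g) '' (s : Set F)) := by
    apply le_antisymm
    · refine Algebra.adjoin_le ?_
      rintro _ ⟨m, hm, rfl⟩
      change m / g ∈ Algebra.adjoin O ((fun m => m / g) '' (s : Set F))
      rw [← hs] at hm
      induction hm using Submodule.span_induction with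
      | mem m hm => exact Algebra.subset_adjoin ⟨m, hm, rfl⟩
      | zero => rw [zero_div]; exact Subalgebra.zero_mem _
      | add a b _ _ ha hb => rw [add_div]; exact Subalgebra.add_mem _ ha hb
      | smul c a _ ha => rw [smul_div_assoc]; exact Subalgebra.smul_mem _ ha c
    · refine Algebra.adjoin_mono ?_
      rintro _ ⟨m, hm, rfl⟩
      exact ⟨m, hs ▸ Submodule.subset_span hm, rfl⟩
  rw [h1]
  have : Algebra.FiniteType O (Algebra.adjoin O ((fun m => m / g) '' (s : Set F))) :=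
    (Subalgebra.fg_iff_finiteType _).1 (Subalgebra.fg_def.2 ⟨_, s.finite_toSet.image _, rfl⟩)
  exact Algebra.FiniteType.isNoetherianRing O _

/-- The elements of negative order. -/
def cut (V : ValuationSubring F) (hOV : ∀ o, algebraMap O F o ∈ V) (N : Submodule O F) (h : F) :
    Submodule O F where
  carrier := {m | m ∈ N ∧ V.valuation (m / h) < 1}
  zero_mem' := ⟨N.zero_mem, by rw [zero_div, map_zero]; exact zero_lt_one⟩
  add_mem' := by
    rintro a b ⟨ha, ha'⟩ ⟨hb, hb'⟩
    refine ⟨N.add_mem ha hb, ?_⟩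
    rw [add_div]
    exact Valuation.map_add_lt _ ha' hb'
  smul_mem' := by
    rintro o a ⟨ha, ha'⟩
    refine ⟨N.smul_mem o ha, ?_⟩
    rw [Algebra.smul_def, mul_div_assoc, map_mul]
    exact mul_lt_one_aux ((V.valuation_le_one_iff _).2 (hOV o)) ha'

theorem module_step [IsNoetherianRing O] [IsDomain O] {V : ValuationSubring F}
    (hOV : ∀ o, algebraMap O F o ∈ V) {ϖ : O} (hϖ0 : algebraMap O F ϖ ≠ 0)
    (hϖ : V.valuation (algebraMap O F ϖ) < 1) {M : Submodule O F} (hM : M.FG) {g : F}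
    (hg : g ∈ M) (hg0 : g ≠ 0) (hMV : ∀ m ∈ M, m / g ∈ V) :
    ∃ (D : ℕ) (M' : Submodule O F) (g' : F), 1 ≤ D ∧ M'.FG ∧ M' ≤ M ^ D ∧
      (∀ y ∈ M ^ D, ϖ • y ∈ M') ∧ g' ∈ M' ∧ g' ≠ 0 ∧ (∀ m ∈ M', m / g' ∈ V) ∧
      lo V.toSubring (chart O M' g').toSubring =
        qt V.toSubring (lo V.toSubring (chart O M g).toSubring) := by
  classical
  have hBV : (chart O M g).toSubring ≤ V.toSubring := by
    let V' : Subalgebra O F := { V.toSubring with algebraMap_mem' := hOV }
    have : chart O M g ≤ V' := Algebra.adjoin_le (by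
      rintro _ ⟨m, hm, rfl⟩
      exact hMV m hm)
    exact this
  set B := (chart O M g).toSubring with hB
  have hnoe : IsNoetherianRing (chart O M g) := chart_noeth hM g
  have hnoeB : IsNoetherianRing B := hnoe
  -- the centre
  let 𝔫 : Ideal B :=
    { carrier := {b | V.valuation (b : F) < 1}
      zero_mem' := by
        change V.valuation ((0 : B) : F) < 1
        rw [ZeroMemClass.coe_zero, map_zero]; exact zero_lt_one
      add_mem' := fun {a b} ha hb => by
        change V.valuation ((a + b : B) : F) < 1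
        exact Valuation.map_add_lt _ ha hb
      smul_mem' := fun c a ha => by
        change V.valuation ((c * a : B) : F) < 1
        rw [Subring.coe_mul, map_mul]
        exact mul_lt_one_aux ((V.valuation_le_one_iff _).2 (hBV c.2)) ha }
  obtain ⟨s, hs⟩ := (isNoetherianRing_iff_ideal_fg B).1 hnoeB 𝔫
  have hs𝔫 : ∀ y ∈ s, V.valuation (y : F) < 1 := fun y hy => by
    have : y ∈ 𝔫 := by rw [← hs]; exact Ideal.subset_span hy
    exact this
  have hϖB : algebraMap O F ϖ ∈ B := Subalgebra.algebraMap_mem (chart O M g) ϖ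
  -- a generator of least value
  obtain ⟨e, hes, hemin⟩ : ∃ e ∈ s, ∀ y ∈ s, V.valuation (y : F) ≤ V.valuation (e : F) := by
    have hne : s.Nonempty := by
      by_contra h
      rw [Finset.not_nonempty_iff_eq_empty] at h
      have h1 : (⟨_, hϖB⟩ : B) ∈ 𝔫 := hϖ
      rw [← hs, h, Finset.coe_empty, Ideal.span_empty, Ideal.mem_bot] at h1
      exact hϖ0 (congrArg Subtype.val h1)
    exact Finset.exists_max_image s (fun y => V.valuation (y : F)) hne
  have hmin : ∀ b : B, b ∈ 𝔫 → V.valuation (b : F) ≤ V.valuation (e : F) := by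
    intro b hb
    rw [← hs] at hb
    induction hb using Submodule.span_induction with
    | mem y hy => exact hemin y hy
    | zero => rw [ZeroMemClass.coe_zero, map_zero]; exact zero_le
    | add a b _ _ ha hb =>
      rw [Subring.coe_add]
      exact (Valuation.map_add _ _ _).trans (max_le ha hb)
    | smul c a _ ha =>
      rw [smul_eq_mul, Subring.coe_mul, map_mul]
      exact mul_le_of_le_one_of_le ((V.valuation_le_one_iff _).2 (hBV c.2)) ha
  have he0 : (e : F) ≠ 0 := by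
    intro h
    have h1 := hmin ⟨_, hϖB⟩ hϖ
    rw [h, map_zero] at h1
    have h2 : V.valuation (algebraMap O F ϖ) = 0 := le_antisymm h1 zero_le
    exact hϖ0 ((Valuation.zero_iff _).1 h2)
  have hdivV : ∀ b : B, b ∈ 𝔫 → (b : F) * (e : F)⁻¹ ∈ V := by
    intro b hb
    rw [← V.valuation_le_one_iff, map_mul, map_inv₀]
    exact mul_inv_le_one_of_le₀ (hmin b hb) zero_le
  -- the degree
  have hk : ∀ y : B, ∃ k : ℕ, ∀ l, k ≤ l → (y : F) * g ^ l ∈ M ^ l := fun y =>
    chart_pow_mem hg hg0 y.2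
  choose kk hkk using hk
  set k : ℕ := s.sup kk with hk
  have hks : ∀ y ∈ s, (y : F) * g ^ k ∈ M ^ k := fun y hy => hkk y k (Finset.le_sup hy)
  have hks' : ∀ y ∈ s, (y : F) * g ^ (k + 1) ∈ M ^ (k + 1) := fun y hy =>
    hkk y (k + 1) ((Finset.le_sup hy).trans (Nat.le_succ _))
  have hgk : g ^ (k + 1) ≠ 0 := pow_ne_zero _ hg0
  set M' : Submodule O F := cut V hOV (M ^ (k + 1)) (g ^ (k + 1)) with hM'
  have hM'le : M' ≤ M ^ (k + 1) := fun m hm => hm.1
  have hM'B : ∀ m ∈ M', ∃ b : B, b ∈ 𝔫 ∧ m = b * g ^ (k + 1) := by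
    rintro m ⟨h1, h2⟩
    exact ⟨⟨m / g ^ (k + 1), pow_div_mem hg0 _ m h1⟩, h2, (div_mul_cancel₀ _ hgk).symm⟩
  have hBM' : ∀ b : B, b ∈ 𝔫 → (b : F) * g ^ (k + 1) ∈ M ^ (k + 1) → (b : F) * g ^ (k + 1) ∈ M' := by
    intro b hb hbm
    refine ⟨hbm, ?_⟩
    rw [mul_div_cancel_right₀ _ hgk]
    exact hb
  have he𝔫 : e ∈ 𝔫 := hs𝔫 e hes
  have hg' : (e : F) * g ^ (k + 1) ∈ M' := hBM' e he𝔫 (hks' e hes)
  have hg'0 : (e : F) * g ^ (k + 1) ≠ 0 := mul_ne_zero he0 hgk
  have hM'V : ∀ m ∈ M', m / ((e : F) * g ^ (k + 1)) ∈ V := by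
    intro m hm
    obtain ⟨b, hb, rfl⟩ := hM'B m hm
    rw [mul_div_mul_right _ _ hgk, div_eq_mul_inv]
    exact hdivV b hb
  set B' := (chart O M' ((e : F) * g ^ (k + 1))).toSubring with hB'
  have hB'V : B' ≤ V.toSubring := by
    let V' : Subalgebra O F := { V.toSubring with algebraMap_mem' := hOV }
    have : chart O M' ((e : F) * g ^ (k + 1)) ≤ V' := Algebra.adjoin_le (by
      rintro _ ⟨m, hm, rfl⟩
      exact hM'V m hm)
    exact this
  have hOB' : ∀ o, algebraMap O F o ∈ B' := fun o =>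
    Subalgebra.algebraMap_mem (chart O M' ((e : F) * g ^ (k + 1))) o
  have hmemB' : ∀ b : B, b ∈ 𝔫 → (b : F) * g ^ (k + 1) ∈ M ^ (k + 1) →
      (b : F) * (e : F)⁻¹ ∈ B' := by
    intro b hb hbm
    have h1 : (b : F) * (e : F)⁻¹ = ((b : F) * g ^ (k + 1)) / ((e : F) * g ^ (k + 1)) := by
      rw [mul_div_mul_right _ _ hgk, div_eq_mul_inv]
    rw [h1]
    exact Algebra.subset_adjoin ⟨_, hBM' b hb hbm, rfl⟩
  have hBB' : B ≤ B' := by
    let B'' : Subalgebra O F := { B' with algebraMap_mem' := hOB' }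
    have : chart O M g ≤ B'' := Algebra.adjoin_le (by
      rintro _ ⟨m, hm, rfl⟩
      have hwB : m / g ∈ B := Algebra.subset_adjoin ⟨m, hm, rfl⟩
      have h1 := hmemB' (⟨_, hwB⟩ * e) (𝔫.mul_mem_left _ he𝔫) (by
        have h2 : ((⟨_, hwB⟩ * e : B) : F) * g ^ (k + 1) = m * ((e : F) * g ^ k) := by
          rw [Subring.coe_mul]
          change m / g * (e : F) * g ^ (k + 1) = _
          rw [pow_succ]
          field_simp
        rw [h2, pow_succ', ]
        exact Submodule.mul_mem_mul hm (hks e hes))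
      have h3 : ((⟨_, hwB⟩ * e : B) : F) * (e : F)⁻¹ = m / g := by
        rw [Subring.coe_mul, mul_assoc, mul_inv_cancel₀ he0, mul_one]
      rw [h3] at h1
      exact h1)
    exact this
  have hdivB' : ∀ b : B, b ∈ 𝔫 → (b : F) * (e : F)⁻¹ ∈ B' := by
    intro b hb
    rw [← hs] at hb
    induction hb using Submodule.span_induction with
    | mem y hy => exact hmemB' y (hs𝔫 y hy) (hks' y hy)
    | zero => rw [ZeroMemClass.coe_zero, zero_mul]; exact B'.zero_mem
    | add a b _ _ ha hb =>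
      rw [Subring.coe_add, add_mul]
      exact B'.add_mem ha hb
    | smul c a _ ha =>
      rw [smul_eq_mul, Subring.coe_mul, mul_assoc]
      exact B'.mul_mem (hBB' c.2) ha
  have hnu : ∀ {x : F}, NU V.toSubring x ↔ V.valuation x < 1 := nu_iff
  have hQV : lo V.toSubring B ≤ V.toSubring := Pool.Agent.W418.LU2.lo_le hBV
  have hQ𝔫 : ∀ y ∈ lo V.toSubring B, NU V.toSubring y →
      ∃ b : B, b ∈ 𝔫 ∧ ∃ c ∈ B, c ≠ 0 ∧ c⁻¹ ∈ V ∧ y = b * c⁻¹ := by
    rintro y ⟨a, ha, c, hc, hc0, hci, rfl⟩ hn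
    refine ⟨⟨a, ha⟩, ?_, c, hc, hc0, hci, rfl⟩
    change V.valuation a < 1
    rw [hnu] at hn
    have h1 : a = a * c⁻¹ * c := by rw [mul_assoc, inv_mul_cancel₀ hc0, mul_one]
    rw [h1, map_mul]
    exact mul_lt_one_aux' hn ((V.valuation_le_one_iff _).2 (hBV hc))
  have hMi : Mi V.toSubring (lo V.toSubring B) (e : F) :=
    { mem := le_lo _ _ e.2
      ne := he0
      nu := (val_lt_iff he0).1 he𝔫
      min := by
        intro y hy hn
        obtain ⟨b, hb, c, hc, hc0, hci, rfl⟩ := hQ𝔫 y hy hn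
        have h1 : (b : F) * c⁻¹ * (e : F)⁻¹ = c⁻¹ * ((b : F) * (e : F)⁻¹) := by ring
        rw [h1]
        exact V.mul_mem _ _ hci (hdivV b hb) }
  refine ⟨k + 1, M', _, Nat.succ_le_succ (Nat.zero_le _), ?_, hM'le, ?_, hg', hg'0, hM'V, ?_⟩
  · have h1 : (M ^ (k + 1)).FG := hM.pow _
    have h2 : IsNoetherian O (M ^ (k + 1) : Submodule O F) := isNoetherian_of_fg_of_noetherian _ h1
    have h3 : IsNoetherian O M' := isNoetherian_of_le hM'le
    exact Module.Finite.iff_fg.1 inferInstance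
  · intro y hy
    refine ⟨Submodule.smul_mem _ _ hy, ?_⟩
    rw [Algebra.smul_def, mul_div_assoc, map_mul]
    exact mul_lt_one_aux' hϖ ((V.valuation_le_one_iff _).2 (hBV (pow_div_mem hg0 _ y hy)))
  · rw [qt_eq hQV hMi]
    change lo V.toSubring B' = lo V.toSubring (Subring.closure _)
    apply le_antisymm
    · refine lo_le_lo (qcl_le hQV hMi) ((?_ : B' ≤ _).trans (le_lo _ _))
      let C : Subring F := Subring.closure ((lo V.toSubring B : Set F) ∪
        {t | ∃ y ∈ lo V.toSubring B, NU V.toSubring y ∧ t = y * (e : F)⁻¹})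
      have hBC : B ≤ C := fun b hb => Subring.subset_closure (Or.inl (le_lo _ _ hb))
      let C' : Subalgebra O F := { C with
        algebraMap_mem' := fun o => hBC (Subalgebra.algebraMap_mem (chart O M g) o) }
      have : chart O M' ((e : F) * g ^ (k + 1)) ≤ C' := Algebra.adjoin_le (by
        rintro _ ⟨m, hm, rfl⟩
        obtain ⟨b, hb, rfl⟩ := hM'B m hm
        rw [mul_div_mul_right _ _ hgk, div_eq_mul_inv]
        exact Subring.subset_closure (Or.inr ⟨b, le_lo _ _ b.2, hnu.2 hb, rfl⟩))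
      exact this
    · refine lo_le_lo hB'V ?_
      rw [Subring.closure_le]
      rintro x (hx | ⟨y, hy, hn, rfl⟩)
      · exact lo_le_lo hB'V (hBB'.trans (le_lo _ _)) hx
      · obtain ⟨b, hb, c, hc, hc0, hci, rfl⟩ := hQ𝔫 y hy hn
        refine ⟨(b : F) * (e : F)⁻¹, hdivB' b hb, c, hBB' hc, hc0, hci, by ring⟩

end Pool.Agent.TH188.ARC
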