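import Pool.Agent.TH188.ARC.A4
import Pool.Agent.TH188.ARC.A5
import Pool.Agent.TH188.QS.LU

/-!
# Modules with a regular chart along a trait
-/

set_option autoImplicit false
set_option linter.unusedVariables false
set_option linter.unusedSectionVars false

namespace Pool.Agent.TH188.ARC

open IsLocalRing Pool.Agent.TH188.QS Pool.Agent.W418.LU2 Pool.Agent.H918R2.Quad

variable {O F : Type} [CommRing O] [Field F] [Algebra O F]

lemma exists_smul_mem_pow' [IsDomain O] {M L : Submodule O F}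
    (h : ∀ y ∈ L, ∃ s : O, s ≠ 0 ∧ s • y ∈ M) (n : ℕ) :
    ∀ y ∈ L ^ n, ∃ s : O, s ≠ 0 ∧ s • y ∈ M ^ n := by
  induction n with
  | zero =>
    intro y hy
    exact ⟨1, one_ne_zero, by rw [one_smul]; exact hy⟩
  | succ n ih =>
    intro y hy
    rw [pow_succ] at hy
    refine Submodule.mul_induction_on hy (fun a ha b hb => ?_) (fun a b ha hb => ?_)
    · obtain ⟨s, hs, hsa⟩ := ih a ha
      obtain ⟨t, ht, htb⟩ := h b hb
      refine ⟨s * t, mul_ne_zero hs ht, ?_⟩
      rw [pow_succ, show (s * t) • (a * b) = (s • a) * (t • b) by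
        rw [smul_mul_smul_comm]]
      exact Submodule.mul_mem_mul hsa htb
    · obtain ⟨s, hs, hsa⟩ := ha
      obtain ⟨t, ht, htb⟩ := hb
      refine ⟨s * t, mul_ne_zero hs ht, ?_⟩
      rw [smul_add]
      refine Submodule.add_mem _ ?_ ?_
      · rw [mul_comm, mul_smul]
        exact Submodule.smul_mem _ _ hsa
      · rw [mul_smul]
        exact Submodule.smul_mem _ _ htb

lemma pow_le_pow' {M L : Submodule O F} (h : M ≤ L) (n : ℕ) : M ^ n ≤ L ^ n := by
  induction n with
  | zero => exact le_rfl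
  | succ n ih =>
    rw [pow_succ, pow_succ]
    exact mul_le_mul' ih h

theorem module_seq [IsNoetherianRing O] [IsDomain O] {V : ValuationSubring F}
    (hOV : ∀ o, algebraMap O F o ∈ V) {ϖ : O} (hϖ0 : algebraMap O F ϖ ≠ 0)
    (hϖ : V.valuation (algebraMap O F ϖ) < 1) {M₀ : Submodule O F} (hM₀ : M₀.FG) {g₀ : F}
    (hg₀ : g₀ ∈ M₀) (hg₀0 : g₀ ≠ 0) (hM₀V : ∀ m ∈ M₀, m / g₀ ∈ V) (n : ℕ) :
    ∃ (D : ℕ) (M : Submodule O F) (g : F), 1 ≤ D ∧ M.FG ∧ M ≤ M₀ ^ D ∧
      (∀ y ∈ M₀ ^ D, ∃ s : O, s ≠ 0 ∧ s • y ∈ M) ∧ g ∈ M ∧ g ≠ 0 ∧ (∀ m ∈ M, m / g ∈ V) ∧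
      lo V.toSubring (chart O M g).toSubring = qseq V (chart O M₀ g₀).toSubring n := by
  induction n with
  | zero =>
    exact ⟨1, M₀, g₀, le_rfl, hM₀, by rw [pow_one], fun y hy => ⟨1, one_ne_zero, by
      rw [one_smul]; rwa [pow_one] at hy⟩, hg₀, hg₀0, hM₀V, rfl⟩
  | succ n ih =>
    obtain ⟨D, M, g, hD, hM, hle, hcomm, hg, hg0, hMV, hlo⟩ := ih
    obtain ⟨D', M', g', hD', hM', hle', hϖM', hg', hg'0, hM'V, hlo'⟩ :=
      module_step hOV hϖ0 hϖ hM hg hg0 hMV
    refine ⟨D * D', M', g', Nat.mul_pos hD hD', hM', ?_, ?_, hg', hg'0, hM'V, ?_⟩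
    · rw [pow_mul]
      exact hle'.trans (pow_le_pow' hle D')
    · intro y hy
      rw [pow_mul] at hy
      obtain ⟨s, hs, hsy⟩ := exists_smul_mem_pow' hcomm D' y hy
      refine ⟨ϖ * s, mul_ne_zero (fun h => hϖ0 (by rw [h, map_zero])) hs, ?_⟩
      rw [mul_smul]
      exact hϖM' _ hsy
    · rw [hlo', hlo]
      rfl

/-- The localization at the centre. -/
theorem regular_centre' {B : Subalgebra O F} {V : ValuationSubring F} (hBV : B.toSubring ≤ V.toSubring)
    (hreg : IsRegularLocalRing (lo V.toSubring B.toSubring)) :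
    ∃ P : Ideal B, ∃ (_ : P.IsPrime), (∀ b : B, b ∈ P ↔ V.valuation (b : F) < 1) ∧
      IsRegularLocalRing (Localization.AtPrime P) := by
  let P : Ideal B :=
    { carrier := {b | V.valuation (b : F) < 1}
      zero_mem' := by
        change V.valuation ((0 : B) : F) < 1
        rw [ZeroMemClass.coe_zero, map_zero]; exact zero_lt_one
      add_mem' := fun {a b} ha hb => by
        change V.valuation ((a + b : B) : F) < 1
        exact Valuation.map_add_lt _ ha hb
      smul_mem' := fun c a ha => by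
        change V.valuation ((c * a : B) : F) < 1
        rw [Subalgebra.coe_mul, map_mul]
        exact mul_lt_one_aux ((V.valuation_le_one_iff _).2 (hBV c.2)) ha }
  have hP : P.IsPrime := by
    refine ⟨?_, ?_⟩
    · rw [Ne, Ideal.eq_top_iff_one]
      change ¬ V.valuation ((1 : B) : F) < 1
      rw [OneMemClass.coe_one, map_one]
      exact lt_irrefl _
    · intro a b hab
      change V.valuation ((a * b : B) : F) < 1 at hab
      rw [Subalgebra.coe_mul, map_mul] at hab
      by_contra hcon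
      rw [not_or] at hcon
      have ha : V.valuation (a : F) = 1 := le_antisymm ((V.valuation_le_one_iff _).2 (hBV a.2))
        (not_lt.1 hcon.1)
      have hb : V.valuation (b : F) = 1 := le_antisymm ((V.valuation_le_one_iff _).2 (hBV b.2))
        (not_lt.1 hcon.2)
      rw [ha, hb, one_mul] at hab
      exact lt_irrefl _ hab
  refine ⟨P, hP, fun b => Iff.rfl, ?_⟩
  have hu : ∀ y : P.primeCompl, ((y : B) : F) ≠ 0 ∧ ((y : B) : F)⁻¹ ∈ V := by
    intro y
    have h1 : ¬ V.valuation ((y : B) : F) < 1 := y.2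
    have h0 : ((y : B) : F) ≠ 0 := by
      intro h
      apply h1
      rw [h, map_zero]; exact zero_lt_one
    refine ⟨h0, ?_⟩
    rw [val_lt_iff h0, not_not] at h1
    exact h1
  let ι : B →+* lo V.toSubring B.toSubring :=
    (Subring.inclusion (le_lo V.toSubring B.toSubring) : B.toSubring →+* _)
  have hι : ∀ y : P.primeCompl, IsUnit (ι y) := by
    intro y
    refine isUnit_iff_exists_inv.2 ⟨⟨((y : B) : F)⁻¹, 1, B.one_mem, _, (y : B).2, (hu y).1,
      (hu y).2, by rw [one_mul]⟩, ?_⟩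
    exact Subtype.ext (mul_inv_cancel₀ (hu y).1)
  let θ : Localization.AtPrime P →+* lo V.toSubring B.toSubring :=
    IsLocalization.lift (M := P.primeCompl) hι
  have hθ : Function.Bijective θ := by
    refine ⟨?_, ?_⟩
    · rw [injective_iff_map_eq_zero]
      intro z hz
      obtain ⟨a, y, rfl⟩ := IsLocalization.exists_mk'_eq P.primeCompl z
      have h1 : ι a = ι y * 0 := (IsLocalization.lift_mk'_spec (S := Localization.AtPrime P)
        (hg := hι) a 0 y).1 hz
      rw [mul_zero] at h1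
      have h2 : a = 0 := Subtype.ext (congrArg (fun w : lo V.toSubring B.toSubring => (w : F)) h1)
      rw [h2, IsLocalization.mk'_zero]
    · rintro ⟨_, a, ha, b, hb, hb0, hbi, rfl⟩
      have hbP : (⟨b, hb⟩ : B) ∈ P.primeCompl := by
        intro h
        have h1 : V.valuation b < 1 := h
        exact (val_lt_iff hb0).1 h1 hbi
      refine ⟨IsLocalization.mk' _ (⟨a, ha⟩ : B) ⟨⟨b, hb⟩, hbP⟩, ?_⟩
      rw [IsLocalization.lift_mk'_spec]
      apply Subtype.ext
      change a = b * (a * b⁻¹)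
      field_simp
  exact IsRegularLocalRing.of_ringEquiv (RingEquiv.ofBijective θ hθ).symm

end Pool.Agent.TH188.ARC
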