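import Pool.Agent.TH188.ARC.A6

/-!
# The module attached to a trait at a regular point
-/

set_option autoImplicit false
set_option linter.unusedVariables false
set_option linter.unusedSectionVars false

open scoped Pointwise

namespace Pool.Agent.TH188.ARC

open IsLocalRing Pool.Agent.TH188.QS Pool.Agent.W418.LU2 Pool.Agent.H918R2.Quad

variable {F L : Type} [Field F] [Field L]

/-- The local ring at the kernel of `α`. -/
theorem loc_data {B : Subring F} (α : B →+* L) [hp : (RingHom.ker α).IsPrime]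
    (hreg : IsRegularLocalRing (Localization.AtPrime (RingHom.ker α))) :
    ∃ (A : Subring F) (π : A →+* L) (h : B ≤ A), IsRegularLocalRing A ∧
      (∀ b : B, π ⟨b, h b.2⟩ = α b) ∧ (∀ a : A, π a ≠ 0 → (a : F)⁻¹ ∈ A) ∧
      ∀ a ∈ A, ∃ b c : B, α c ≠ 0 ∧ a = (b : F) * (c : F)⁻¹ := by
  have h0 : ∀ c : B, α c ≠ 0 → (c : F) ≠ 0 := by
    intro c hc h
    apply hc
    have : c = 0 := Subtype.ext h
    rw [this, map_zero]
  have hu1 : ∀ y : (RingHom.ker α).primeCompl, IsUnit (B.subtype (y : B)) := fun y =>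
    isUnit_iff_ne_zero.2 (h0 _ fun h => y.2 (RingHom.mem_ker.2 h))
  have hu2 : ∀ y : (RingHom.ker α).primeCompl, IsUnit (α (y : B)) := fun y =>
    isUnit_iff_ne_zero.2 fun h => y.2 (RingHom.mem_ker.2 h)
  let Lo := Localization.AtPrime (RingHom.ker α)
  let θ : Lo →+* F := IsLocalization.lift (M := (RingHom.ker α).primeCompl) hu1
  let ρ : Lo →+* L := IsLocalization.lift (M := (RingHom.ker α).primeCompl) hu2
  have hθi : Function.Injective θ := by
    rw [injective_iff_map_eq_zero]
    intro z hz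
    obtain ⟨a, y, rfl⟩ := IsLocalization.exists_mk'_eq (RingHom.ker α).primeCompl z
    have h1 : B.subtype a = B.subtype (y : B) * 0 :=
      (IsLocalization.lift_mk'_spec (S := Lo) (hg := hu1) a 0 y).1 hz
    rw [mul_zero] at h1
    have h2 : a = 0 := Subtype.ext h1
    rw [h2, IsLocalization.mk'_zero]
  let e : Lo ≃+* θ.range := RingEquiv.ofBijective θ.rangeRestrict
    ⟨fun a b h => hθi (congrArg Subtype.val h), θ.rangeRestrict_surjective⟩
  have he : ∀ z, ((e z : θ.range) : F) = θ z := fun z => rfl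
  let π : θ.range →+* L := ρ.comp e.symm.toRingHom
  have hπ : ∀ z, π (e z) = ρ z := fun z => by
    change ρ (e.symm (e z)) = ρ z
    rw [RingEquiv.symm_apply_apply]
  have hB : B ≤ θ.range := fun b hb => ⟨algebraMap B Lo ⟨b, hb⟩, IsLocalization.lift_eq hu1 _⟩
  have hmk : ∀ (a : B) (y : (RingHom.ker α).primeCompl),
      θ (IsLocalization.mk' Lo a y) = (a : F) * ((y : B) : F)⁻¹ := by
    intro a y
    rw [IsLocalization.lift_mk'_spec]
    have hy := h0 (y : B) fun h => y.2 (RingHom.mem_ker.2 h)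
    change (a : F) = ((y : B) : F) * ((a : F) * ((y : B) : F)⁻¹)
    field_simp
  refine ⟨θ.range, π, hB, IsRegularLocalRing.of_ringEquiv e, ?_, ?_, ?_⟩
  · intro b
    have h1 : (⟨b, hB b.2⟩ : θ.range) = e (algebraMap B Lo b) := by
      apply Subtype.ext
      rw [he]
      exact (IsLocalization.lift_eq hu1 _).symm
    rw [h1, hπ]
    exact IsLocalization.lift_eq hu2 _
  · intro a ha
    obtain ⟨z, rfl⟩ := e.surjective a
    obtain ⟨b, y, rfl⟩ := IsLocalization.exists_mk'_eq (RingHom.ker α).primeCompl z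
    rw [hπ] at ha
    have hb : α b ≠ 0 := by
      intro hb
      apply ha
      rw [IsLocalization.lift_mk'_spec, mul_zero]
      exact hb
    have hbp : b ∈ (RingHom.ker α).primeCompl := fun h => hb (RingHom.mem_ker.1 h)
    refine ⟨IsLocalization.mk' Lo (y : B) ⟨b, hbp⟩, ?_⟩
    rw [hmk, he, hmk, mul_inv, inv_inv, mul_comm]
  · rintro _ ⟨z, rfl⟩
    obtain ⟨b, y, rfl⟩ := IsLocalization.exists_mk'_eq (RingHom.ker α).primeCompl z
    exact ⟨b, y, fun h => y.2 (RingHom.mem_ker.2 h), hmk b y⟩

variable {O : Type} [CommRing O] [Algebra O F]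

lemma chart_span {ι : Type} (y : ι → F) (g : F) :
    chart O (Submodule.span O (Set.range y)) g = Algebra.adjoin O (Set.range fun j => y j / g) := by
  apply le_antisymm
  · refine Algebra.adjoin_le ?_
    rintro _ ⟨m, hm, rfl⟩
    change m / g ∈ Algebra.adjoin O (Set.range fun j => y j / g)
    induction hm using Submodule.span_induction with
    | mem m hm =>
      obtain ⟨j, rfl⟩ := hm
      exact Algebra.subset_adjoin ⟨j, rfl⟩
    | zero => rw [zero_div]; exact Subalgebra.zero_mem _
    | add a b _ _ ha hb => rw [add_div]; exact Subalgebra.add_mem _ ha hb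
    | smul c a _ ha => rw [smul_div_assoc]; exact Subalgebra.smul_mem _ ha c
  · refine Algebra.adjoin_le ?_
    rintro _ ⟨j, rfl⟩
    exact Algebra.subset_adjoin ⟨y j, Submodule.subset_span ⟨j, rfl⟩, rfl⟩

/-- Localizations at centres are localizations at primes. -/
theorem lo_regular {B : Subring F} {V : ValuationSubring F} (hBV : B ≤ V.toSubring)
    (hreg : ∀ (P : Ideal B) [P.IsPrime], IsRegularLocalRing (Localization.AtPrime P)) :
    IsRegularLocalRing (lo V.toSubring B) := by
  let P : Ideal B :=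
    { carrier := {b | V.valuation (b : F) < 1}
      zero_mem' := by
        change V.valuation ((0 : B) : F) < 1
        rw [ZeroMemClass.coe_zero, map_zero]; exact zero_lt_one
      add_mem' := fun {a b} ha hb => by
        change V.valuation ((a + b : B) : F) < 1
        exact Valuation.map_add_lt _ ha hb
      smul_mem' := fun c a ha => by
        change V.valuation ((c * a : B) : F) < 1
        rw [Subring.coe_mul, map_mul]
        exact mul_lt_one_aux ((V.valuation_le_one_iff _).2 (hBV c.2)) ha }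
  have hP : P.IsPrime := by
    refine ⟨?_, ?_⟩
    · rw [Ne, Ideal.eq_top_iff_one]
      change ¬ V.valuation ((1 : B) : F) < 1
      rw [OneMemClass.coe_one, map_one]
      exact lt_irrefl _
    · intro a b hab
      change V.valuation ((a * b : B) : F) < 1 at hab
      rw [Subring.coe_mul, map_mul] at hab
      by_contra hcon
      rw [not_or] at hcon
      have ha : V.valuation (a : F) = 1 := le_antisymm ((V.valuation_le_one_iff _).2 (hBV a.2))
        (not_lt.1 hcon.1)
      have hb : V.valuation (b : F) = 1 := le_antisymm ((V.valuation_le_one_iff _).2 (hBV b.2))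
        (not_lt.1 hcon.2)
      rw [ha, hb, one_mul] at hab
      exact lt_irrefl _ hab
  have hu : ∀ y : P.primeCompl, ((y : B) : F) ≠ 0 ∧ ((y : B) : F)⁻¹ ∈ V := by
    intro y
    have h1 : ¬ V.valuation ((y : B) : F) < 1 := y.2
    have h0 : ((y : B) : F) ≠ 0 := by
      intro h
      apply h1
      rw [h, map_zero]; exact zero_lt_one
    refine ⟨h0, ?_⟩
    rw [val_lt_iff h0, not_not] at h1
    exact h1
  let ι : B →+* lo V.toSubring B := Subring.inclusion (le_lo V.toSubring B)
  have hι : ∀ y : P.primeCompl, IsUnit (ι y) := by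
    intro y
    refine isUnit_iff_exists_inv.2 ⟨⟨((y : B) : F)⁻¹, 1, B.one_mem, _, (y : B).2, (hu y).1,
      (hu y).2, by rw [one_mul]⟩, ?_⟩
    exact Subtype.ext (mul_inv_cancel₀ (hu y).1)
  let θ : Localization.AtPrime P →+* lo V.toSubring B :=
    IsLocalization.lift (M := P.primeCompl) hι
  have hθ : Function.Bijective θ := by
    refine ⟨?_, ?_⟩
    · rw [injective_iff_map_eq_zero]
      intro z hz
      obtain ⟨a, y, rfl⟩ := IsLocalization.exists_mk'_eq P.primeCompl z
      have h1 : ι a = ι y * 0 := (IsLocalization.lift_mk'_spec (S := Localization.AtPrime P)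
        (hg := hι) a 0 y).1 hz
      rw [mul_zero] at h1
      have h2 : a = 0 := Subtype.ext (congrArg (fun w : lo V.toSubring B => (w : F)) h1)
      rw [h2, IsLocalization.mk'_zero]
    · rintro ⟨_, a, ha, b, hb, hb0, hbi, rfl⟩
      have hbP : (⟨b, hb⟩ : B) ∈ P.primeCompl := by
        intro h
        have h1 : V.valuation b < 1 := h
        exact (val_lt_iff hb0).1 h1 hbi
      refine ⟨IsLocalization.mk' _ (⟨a, ha⟩ : B) ⟨⟨b, hb⟩, hbP⟩, ?_⟩
      rw [IsLocalization.lift_mk'_spec]
      apply Subtype.ext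
      change a = b * (a * b⁻¹)
      field_simp
  have := hreg P
  exact IsRegularLocalRing.of_ringEquiv (RingEquiv.ofBijective θ hθ)

variable {K : Type} [Field K] [Algebra O K] [IsDomain O] [IsFractionRing O K] [Algebra K F]
  [IsScalarTower O K F] [IsNoetherianRing O] [IsRegularRing O]

/-- The module attached to a trait. -/
theorem trait_module [CharZero L] {ι : Type} [Fintype ι] (y : ι → F) (hy : ∀ i, y i ≠ 0)
    (hreg : ∀ (i : ι) (P : Ideal (Algebra.adjoin K (Set.range fun j => y j / y i)).toSubring)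
      [P.IsPrime], IsRegularLocalRing (Localization.AtPrime P))
    (i₀ : ι) (α : (Algebra.adjoin K (Set.range fun j => y j / y i₀)).toSubring →+* L)
    (VL : ValuationSubring L) [IsDiscreteValuationRing VL]
    (hOV : ∀ (o : O) (h : algebraMap O F o ∈ (Algebra.adjoin K
      (Set.range fun j => y j / y i₀)).toSubring), α ⟨_, h⟩ ∈ VL) :
    ∃ (A : Subring F) (π : A →+* L) (V : ValuationSubring F)
      (hA : (Algebra.adjoin K (Set.range fun j => y j / y i₀)).toSubring ≤ A)
      (D : ℕ) (M : Submodule O F) (g : F),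
      (∀ b, π ⟨_, hA (Subtype.coe_prop b)⟩ = α b) ∧ Tr A π VL V ∧
      1 ≤ D ∧ M.FG ∧ M ≤ Submodule.span O (Set.range y) ^ D ∧
      (∀ z ∈ Submodule.span O (Set.range y) ^ D, ∃ s : O, s ≠ 0 ∧ s • z ∈ M) ∧
      g ∈ M ∧ g ≠ 0 ∧ (chart O M g).toSubring ≤ V.toSubring ∧ (chart O M g).toSubring ≤ A ∧
      IsRegularLocalRing (lo V.toSubring (chart O M g).toSubring) := by
  classical
  have hkp : (RingHom.ker α).IsPrime := RingHom.ker_isPrime _
  obtain ⟨A, π, hA, hAreg, hπα, hunit, hfr⟩ := loc_data α (hreg i₀ (RingHom.ker α))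
  obtain ⟨V, hV⟩ := exists_tr A π VL hunit
  have hOK : Function.Injective (algebraMap O K) := IsFractionRing.injective O K
  have hOF : Function.Injective (algebraMap O F) := by
    rw [IsScalarTower.algebraMap_eq O K F]
    exact (algebraMap K F).injective.comp hOK
  have hKB : ∀ k : K, algebraMap K F k ∈ (Algebra.adjoin K (Set.range fun j => y j / y i₀)).toSubring := fun k => Subalgebra.algebraMap_mem _ k
  have hOB : ∀ o : O, algebraMap O F o ∈ (Algebra.adjoin K (Set.range fun j => y j / y i₀)).toSubring := fun o => by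
    rw [IsScalarTower.algebraMap_apply O K F]
    exact hKB _
  have hOA : ∀ o : O, algebraMap O F o ∈ A := fun o => hA (hOB o)
  have hKL : Function.Injective (fun k : K => α ⟨_, hKB k⟩) :=
    ((α.comp ((algebraMap K F).codRestrict (Algebra.adjoin K (Set.range fun j => y j / y i₀)).toSubring hKB)).injective)
  have hOL : ∀ o : O, o ≠ 0 → π ⟨_, hOA o⟩ ≠ 0 := by
    intro o ho h
    have h1 := hπα ⟨_, hOB o⟩
    have h2 : α ⟨_, hOB o⟩ = 0 := h1.symm.trans h
    apply ho
    apply hOK
    rw [map_zero]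
    apply hKL
    have e1 : (⟨algebraMap K F (algebraMap O K o), hKB _⟩ : (Algebra.adjoin K (Set.range fun j => y j / y i₀)).toSubring) = ⟨_, hOB o⟩ := Subtype.ext
      (IsScalarTower.algebraMap_apply O K F o).symm
    have e2 : (⟨algebraMap K F 0, hKB _⟩ : (Algebra.adjoin K (Set.range fun j => y j / y i₀)).toSubring) = 0 := Subtype.ext (map_zero _)
    change α ⟨algebraMap K F (algebraMap O K o), hKB _⟩ = α ⟨algebraMap K F 0, hKB _⟩
    rw [e1, e2, h2, map_zero]
  have hyB : ∀ j, y j / y i₀ ∈ (Algebra.adjoin K (Set.range fun j => y j / y i₀)).toSubring := fun j => Algebra.subset_adjoin ⟨j, rfl⟩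
  -- the coordinate of least value
  obtain ⟨j₀, -, hj₀⟩ := Finset.exists_max_image Finset.univ
    (fun j => VL.valuation (α ⟨_, hyB j⟩)) ⟨i₀, Finset.mem_univ i₀⟩
  have hone : α ⟨_, hyB i₀⟩ = 1 := by
    have : (⟨_, hyB i₀⟩ : (Algebra.adjoin K (Set.range fun j => y j / y i₀)).toSubring) = 1 := Subtype.ext (div_self (hy i₀))
    rw [this, map_one]
  have hu0 : α ⟨_, hyB j₀⟩ ≠ 0 := by
    intro h
    have h1 := hj₀ i₀ (Finset.mem_univ _)
    rw [hone, h, map_one, map_zero] at h1
    exact absurd h1 (not_le.2 zero_lt_one)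
  have hui : (y j₀ / y i₀)⁻¹ ∈ A := hunit ⟨_, hA (hyB j₀)⟩ (by
    have := hπα ⟨_, hyB j₀⟩
    rw [this]
    exact hu0)
  have hquot : ∀ j, y j / y j₀ = (y j / y i₀) * (y j₀ / y i₀)⁻¹ := by
    intro j
    have := hy i₀
    have := hy j₀
    field_simp
  have hxA : ∀ j, y j / y j₀ ∈ A := fun j => by
    rw [hquot]
    exact A.mul_mem (hA (hyB j)) hui
  have hπx : ∀ j, π ⟨_, hxA j⟩ = α ⟨_, hyB j⟩ * (α ⟨_, hyB j₀⟩)⁻¹ := by
    intro j
    have h1 : (⟨_, hxA j⟩ : A) = ⟨_, hA (hyB j)⟩ * ⟨_, hui⟩ := Subtype.ext (hquot j)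
    rw [h1, map_mul]
    congr 1
    · exact hπα ⟨_, hyB j⟩
    · rcases pi_inv π ⟨_, hA (hyB j₀)⟩ hui with h2 | h2
      · rw [h2]
        congr 1
        exact hπα ⟨_, hyB j₀⟩
      · exact absurd h2 (div_ne_zero (hy _) (hy _))
  have hxV : ∀ j, y j / y j₀ ∈ V := by
    intro j
    have h1 := (hV.mem ⟨_, hxA j⟩).2 (by
      rw [hπx, ← VL.valuation_le_one_iff, map_mul, map_inv₀]
      exact mul_inv_le_one_of_le₀ (hj₀ j (Finset.mem_univ _)) zero_le)
    exact h1
  have hOV' : ∀ o : O, algebraMap O F o ∈ V := by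
    intro o
    have h1 := (hV.mem ⟨_, hOA o⟩).2 (by
      have h2 := hπα ⟨_, hOB o⟩
      rw [h2]
      exact hOV o (hOB o))
    exact h1
  set M₀ : Submodule O F := Submodule.span O (Set.range y) with hM₀
  have hchart : chart O M₀ (y j₀) = Algebra.adjoin O (Set.range fun j => y j / y j₀) :=
    chart_span y (y j₀)
  have hM₀FG : M₀.FG := ⟨Finset.univ.image y, by
    rw [Finset.coe_image, Finset.coe_univ, Set.image_univ]⟩
  have hg₀ : y j₀ ∈ M₀ := Submodule.subset_span ⟨j₀, rfl⟩
  have hB₀A : (chart O M₀ (y j₀)).toSubring ≤ A := by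
    let A' : Subalgebra O F := { A with algebraMap_mem' := hOA }
    have : chart O M₀ (y j₀) ≤ A' := by
      rw [hchart]
      refine Algebra.adjoin_le ?_
      rintro _ ⟨i, rfl⟩
      exact hxA i
    exact this
  have hB₀V : (chart O M₀ (y j₀)).toSubring ≤ V.toSubring := by
    let A' : Subalgebra O F := { V.toSubring with algebraMap_mem' := hOV' }
    have : chart O M₀ (y j₀) ≤ A' := by
      rw [hchart]
      refine Algebra.adjoin_le ?_
      rintro _ ⟨i, rfl⟩
      exact hxV i
    exact this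
  have hM₀V : ∀ m ∈ M₀, m / y j₀ ∈ V := fun m hm =>
    hB₀V (Algebra.subset_adjoin ⟨m, hm, rfl⟩)
  by_cases hcase : ∃ ϖ : O, ϖ ≠ 0 ∧ V.valuation (algebraMap O F ϖ) < 1
  · obtain ⟨ϖ, hϖ0, hϖ⟩ := hcase
    have hϖF : algebraMap O F ϖ ≠ 0 := fun h => hϖ0 (hOF (by rw [h, map_zero]))
    -- fractions over `B₀`
    have hden : ∀ b : F, b ∈ (Algebra.adjoin K (Set.range fun j => y j / y i₀)).toSubring → ∃ w ∈ Algebra.adjoin O (Set.range fun j => y j / y j₀),
        (∃ h : w ∈ A, π ⟨w, h⟩ ≠ 0) ∧
        b * w ∈ Algebra.adjoin O (Set.range fun j => y j / y j₀) := by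
      intro b hb
      have hb' : b ∈ Algebra.adjoin K (Set.range fun j => y j / y i₀) := hb
      clear hb
      induction hb' using Algebra.adjoin_induction with
      | mem b hb1 =>
        obtain ⟨j, rfl⟩ := hb1
        refine ⟨y i₀ / y j₀, Algebra.subset_adjoin ⟨i₀, rfl⟩, ⟨hxA i₀, ?_⟩, ?_⟩
        · rw [hπx, hone, one_mul]
          exact inv_ne_zero hu0
        · have h1 : y j / y i₀ * (y i₀ / y j₀) = y j / y j₀ := by
            have := hy i₀
            field_simp
          rw [h1]
          exact Algebra.subset_adjoin ⟨j, rfl⟩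
      | algebraMap k =>
        obtain ⟨a, o, ho, hk⟩ := IsFractionRing.div_surjective (A := O) k
        have h1 : algebraMap O K o ≠ 0 := IsFractionRing.to_map_ne_zero_of_mem_nonZeroDivisors ho
        refine ⟨algebraMap O F o, Subalgebra.algebraMap_mem _ o, ⟨hOA o,
          hOL o (nonZeroDivisors.ne_zero ho)⟩, ?_⟩
        have : algebraMap K F k * algebraMap O F o = algebraMap O F a := by
          rw [IsScalarTower.algebraMap_apply O K F, IsScalarTower.algebraMap_apply O K F,
            ← map_mul, ← hk, div_mul_cancel₀ _ h1]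
        rw [this]
        exact Subalgebra.algebraMap_mem _ a
      | add a b hax hbx ha hb =>
        obtain ⟨w, hw, ⟨hwA, hwπ⟩, haw⟩ := ha
        obtain ⟨w', hw', ⟨hwA', hwπ'⟩, hbw⟩ := hb
        refine ⟨w * w', Subalgebra.mul_mem _ hw hw', ⟨A.mul_mem hwA hwA', ?_⟩, ?_⟩
        · have h1 : (⟨w * w', A.mul_mem hwA hwA'⟩ : A) = ⟨w, hwA⟩ * ⟨w', hwA'⟩ := rfl
          rw [h1, map_mul]
          exact mul_ne_zero hwπ hwπ'
        · have h1 : (a + b) * (w * w') = a * w * w' + b * w' * w := by ring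
          rw [h1]
          exact Subalgebra.add_mem _ (Subalgebra.mul_mem _ haw hw')
            (Subalgebra.mul_mem _ hbw hw)
      | mul a b hax hbx ha hb =>
        obtain ⟨w, hw, ⟨hwA, hwπ⟩, haw⟩ := ha
        obtain ⟨w', hw', ⟨hwA', hwπ'⟩, hbw⟩ := hb
        refine ⟨w * w', Subalgebra.mul_mem _ hw hw', ⟨A.mul_mem hwA hwA', ?_⟩, ?_⟩
        · have h1 : (⟨w * w', A.mul_mem hwA hwA'⟩ : A) = ⟨w, hwA⟩ * ⟨w', hwA'⟩ := rfl
          rw [h1, map_mul]
          exact mul_ne_zero hwπ hwπ'
        · have h1 : a * b * (w * w') = (a * w) * (b * w') := by ring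
          rw [h1]
          exact Subalgebra.mul_mem _ haw hbw
    let eN := Fintype.equivFin ι
    have hrange : (Set.range fun i : Fin (Fintype.card ι) => y (eN.symm i) / y j₀) =
        Set.range fun j => y j / y j₀ := by
      ext z
      constructor
      · rintro ⟨i, rfl⟩
        exact ⟨_, rfl⟩
      · rintro ⟨j, rfl⟩
        exact ⟨eN j, by simp⟩
    obtain ⟨n, hn⟩ := trait_regular (O := O) (fun i => y (eN.symm i) / y j₀) (A := A)
      (fun i => hxA _) hOA (π := π) hOL (by
        intro a ha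
        obtain ⟨b, c, hc, rfl⟩ := hfr a ha
        obtain ⟨w, hw, ⟨hwA, hwπ⟩, hbw⟩ := hden b b.2
        obtain ⟨w', hw', ⟨hwA', hwπ'⟩, hcw⟩ := hden c c.2
        rw [hrange]
        have hcπ : π ⟨c, hA c.2⟩ ≠ 0 := by rw [hπα]; exact hc
        have hne : ∀ (z : F) (hz : z ∈ A), π ⟨z, hz⟩ ≠ 0 → z ≠ 0 := by
          intro z hz h h0
          apply h
          have : (⟨z, hz⟩ : A) = 0 := Subtype.ext h0
          rw [this, map_zero]
        refine ⟨b * w * w', Subalgebra.mul_mem _ hbw hw', c * w' * w,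
          Subalgebra.mul_mem _ hcw hw, A.mul_mem (A.mul_mem (hA c.2) hwA') hwA, ?_, ?_⟩
        · have h1 : (⟨c * w' * w, A.mul_mem (A.mul_mem (hA c.2) hwA') hwA⟩ : A) =
            ⟨c, hA c.2⟩ * ⟨w', hwA'⟩ * ⟨w, hwA⟩ := rfl
          rw [h1, map_mul, map_mul]
          exact mul_ne_zero (mul_ne_zero hcπ hwπ') hwπ
        · have h1 := hne _ _ hcπ
          have h2 := hne _ _ hwπ
          have h3 := hne _ _ hwπ'
          field_simp) hV (fun i => hxV _) hOV' hϖ0 hϖ
    rw [hrange] at hn
    obtain ⟨D, M, g, hD, hM, hle, hcomm, hg, hg0, hMV, hlo⟩ := module_seq hOV' hϖF hϖ hM₀FG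
      hg₀ (hy j₀) hM₀V n
    refine ⟨A, π, V, hA, D, M, g, hπα, hV, hD, hM, hle, hcomm, hg, hg0, ?_, ?_, ?_⟩
    · let A' : Subalgebra O F := { V.toSubring with algebraMap_mem' := hOV' }
      have : chart O M g ≤ A' := by
        refine Algebra.adjoin_le ?_
        rintro _ ⟨m, hm, rfl⟩
        exact hMV m hm
      exact this
    · have h1 := (hV.qseq_le hB₀A (Subalgebra.algebraMap_mem _ ϖ) hϖ
        (fun hA => hOL ϖ hϖ0) n).1
      rw [← hlo] at h1
      exact (le_lo _ _).trans h1
    · rw [hlo, hchart]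
      exact hn
  · push Not at hcase
    refine ⟨A, π, V, hA, 1, M₀, y j₀, hπα, hV, le_rfl, hM₀FG, by rw [pow_one], fun z hz =>
      ⟨1, one_ne_zero, by rw [one_smul]; rwa [pow_one] at hz⟩, hg₀, hy j₀, hB₀V, hB₀A, ?_⟩
    have hKV : ∀ k : K, algebraMap K F k ∈ V := by
      intro k
      obtain ⟨a, o, ho, hk⟩ := IsFractionRing.div_surjective (A := O) k
      have ho0 : o ≠ 0 := nonZeroDivisors.ne_zero ho
      have h0 : algebraMap O F o ≠ 0 := fun h => ho0 (hOF (by rw [h, map_zero]))
      have h1 : (algebraMap O F o)⁻¹ ∈ V := by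
        by_contra h2
        exact absurd ((val_lt_iff h0).2 h2) (not_lt.2 (hcase o ho0))
      rw [← hk, map_div₀, ← IsScalarTower.algebraMap_apply, ← IsScalarTower.algebraMap_apply,
        div_eq_mul_inv]
      exact V.mul_mem _ _ (hOV' a) h1
    set B₂ := (Algebra.adjoin K (Set.range fun j => y j / y j₀)).toSubring with hB₂
    have hB₂V : B₂ ≤ V.toSubring := by
      let A' : Subalgebra K F := { V.toSubring with algebraMap_mem' := hKV }
      have : Algebra.adjoin K (Set.range fun j => y j / y j₀) ≤ A' := by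
        refine Algebra.adjoin_le ?_
        rintro _ ⟨m, rfl⟩
        exact hxV m
      exact this
    have hB₀B₂ : (chart O M₀ (y j₀)).toSubring ≤ B₂ := by
      rw [hchart]
      have : Algebra.adjoin O (Set.range fun j => y j / y j₀) ≤
          (Algebra.adjoin K (Set.range fun j => y j / y j₀)).restrictScalars O := by
        refine Algebra.adjoin_le ?_
        exact Algebra.subset_adjoin
      exact this
    have heq : lo V.toSubring (chart O M₀ (y j₀)).toSubring = lo V.toSubring B₂ := by
      apply le_antisymm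
      · exact lo_le_lo hB₂V (hB₀B₂.trans (le_lo _ _))
      · refine lo_le_lo hB₀V ?_
        have hKlo : ∀ k : K, algebraMap K F k ∈ lo V.toSubring (chart O M₀ (y j₀)).toSubring := by
          intro k
          obtain ⟨a, o, ho, hk⟩ := IsFractionRing.div_surjective (A := O) k
          have ho0 : o ≠ 0 := nonZeroDivisors.ne_zero ho
          have h0 : algebraMap O F o ≠ 0 := fun h => ho0 (hOF (by rw [h, map_zero]))
          have h1 : (algebraMap O F o)⁻¹ ∈ V := by
            by_contra h2
            exact absurd ((val_lt_iff h0).2 h2) (not_lt.2 (hcase o ho0))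
          refine ⟨_, Subalgebra.algebraMap_mem _ a, _, Subalgebra.algebraMap_mem _ o, h0, h1, ?_⟩
          rw [← hk, map_div₀, ← IsScalarTower.algebraMap_apply, ← IsScalarTower.algebraMap_apply,
            div_eq_mul_inv]
        let C : Subalgebra K F := { lo V.toSubring (chart O M₀ (y j₀)).toSubring with
          algebraMap_mem' := hKlo }
        have : Algebra.adjoin K (Set.range fun j => y j / y j₀) ≤ C := by
          refine Algebra.adjoin_le ?_
          rintro _ ⟨m, rfl⟩
          refine le_lo _ _ ?_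
          rw [hchart]
          exact Algebra.subset_adjoin ⟨m, rfl⟩
        exact this
    rw [heq]
    exact lo_regular hB₂V (hreg j₀)

end Pool.Agent.TH188.ARC
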