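import Pool.Agent.W398.GF.Mod
import Pool.Agent.W191.GF.Bc
import Pool.Agent.W930.GF.Iso
import Pool.Agent.W559.GF.Asm
import Pool.Agent.W177.GF.Flat

/-!
# Atlases with a given generic point

The proofs follow Pool/Agent/W930/GF/Iso.lean, Pool/Agent/W191/GF/Bc.lean and
Pool/Agent/W398/GF/Mod.lean.
-/

set_option autoImplicit false
set_option linter.unusedVariables false
set_option linter.unusedSectionVars false

open AlgebraicGeometry CategoryTheory Limits Pointwise

namespace Pool.Agent.TH188.ARC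

open Pool.Agent.H918R2.Quad Pool.Agent.H968R2.Quad Pool.Agent.W559.GF Pool.Agent.W930.GF
  Pool.Agent.W191.GF

/-- The spectra of the subrings `A t` of `F` form an open covering of `Z`, compatibly with `η`. -/
def AtlasAt {F : Type} [Field F] {Z : Scheme.{0}} (η : Spec (CommRingCat.of F) ⟶ Z)
    {T : Type} (A : T → Subring F) : Prop :=
  ∃ U : T → Z.Opens, (⨆ t, U t = ⊤) ∧ ∀ t, IsChart η (A t) (U t)

lemma AtlasAt.isAtlas {F : Type} [Field F] {S Z : Scheme.{0}} {η : Spec (CommRingCat.of F) ⟶ Z}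
    {T : Type} {A : T → Subring F} (h : AtlasAt η A) {s : Spec (CommRingCat.of F) ⟶ S}
    {f : Z ⟶ S} (hη : η ≫ f = s) : IsAtlas s f A := ⟨η, hη, h⟩

lemma AtlasAt.charts {F : Type} [Field F] {Z : Scheme.{0}} {η : Spec (CommRingCat.of F) ⟶ Z}
    {T : Type} {A : T → Subring F} (h : AtlasAt η A) :
    ∃ j : ∀ t, Spec (CommRingCat.of (A t)) ⟶ Z, (∀ t, IsOpenImmersion (j t)) ∧
      (∀ t, io (A t) ≫ j t = η) ∧ ∀ z : Z, ∃ t y, j t y = z := by
  obtain ⟨U, hU, hc⟩ := h
  choose j hj hjU hjη using hc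
  refine ⟨j, hj, hjη, fun z => ?_⟩
  have h1 : z ∈ ⨆ t, U t := by rw [hU]; trivial
  rw [TopologicalSpace.Opens.mem_iSup] at h1
  obtain ⟨t, ht⟩ := h1
  rw [← hjU t] at ht
  obtain ⟨y, hy⟩ := ht
  exact ⟨t, y, hy⟩

/-- Two separated schemes with the same atlas are isomorphic. -/
theorem isoAt {R F : Type} [CommRing R] [Field F] {Z Z' : Scheme.{0}}
    {f : Z ⟶ Spec (CommRingCat.of R)} {f' : Z' ⟶ Spec (CommRingCat.of R)}
    (hf : IsSeparated f) (hf' : IsSeparated f') {η : Spec (CommRingCat.of F) ⟶ Z}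
    {η' : Spec (CommRingCat.of F) ⟶ Z'} (hηη : η ≫ f = η' ≫ f')
    {T : Type} {A : T → Subring F} (h : AtlasAt η A) (h' : AtlasAt η' A) (hT : Nonempty T) :
    ∃ e : Z ≅ Z', e.hom ≫ f' = f ∧ η ≫ e.hom = η' := by
  obtain ⟨j, hj, hjη, hcov⟩ := h.charts
  obtain ⟨j', hj', hjη', hcov'⟩ := h'.charts
  have hjj : ∀ t, j t ≫ f = j' t ≫ f' := by
    intro t
    apply io_mono
    rw [← Category.assoc, ← Category.assoc, hjη t, hjη' t, hηη]
  obtain ⟨φ, hφ⟩ := glue f f' A η η' j hj hcov hjη j' hjη' hjj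
  obtain ⟨ψ, hψ⟩ := glue f' f A η' η j' hj' hcov' hjη' j hjη (fun t => (hjj t).symm)
  let 𝒰 : Scheme.OpenCover.{0} Z := Scheme.Cover.mkOfCovers T
    (fun t => Spec (CommRingCat.of (A t))) j hcov hj
  let 𝒰' : Scheme.OpenCover.{0} Z' := Scheme.Cover.mkOfCovers T
    (fun t => Spec (CommRingCat.of (A t))) j' hcov' hj'
  refine ⟨⟨φ, ψ, ?_, ?_⟩, ?_, ?_⟩
  · refine Scheme.Cover.hom_ext 𝒰 _ _ fun t => ?_
    change j t ≫ φ ≫ ψ = j t ≫ 𝟙 Z
    rw [← Category.assoc, hφ, hψ, Category.comp_id]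
  · refine Scheme.Cover.hom_ext 𝒰' _ _ fun t => ?_
    change j' t ≫ ψ ≫ φ = j' t ≫ 𝟙 Z'
    rw [← Category.assoc, hψ, hφ, Category.comp_id]
  · refine Scheme.Cover.hom_ext 𝒰 _ _ fun t => ?_
    change j t ≫ φ ≫ f' = j t ≫ f
    rw [← Category.assoc, hφ, hjj]
  · obtain ⟨t⟩ := hT
    change η ≫ φ = η'
    rw [← hjη t, Category.assoc, hφ, hjη']

/-- The generic fibre. -/
theorem bcAt {O K F : Type} [CommRing O] [IsDomain O] [Field K] [Algebra O K]
    [IsFractionRing O K] [Field F] [Algebra K F] [Algebra O F] [IsScalarTower O K F]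
    {Z : Scheme.{0}} (f : Z ⟶ Spec (CommRingCat.of O)) {η : Spec (CommRingCat.of F) ⟶ Z}
    (hη : η ≫ f = Spec.map (CommRingCat.ofHom (algebraMap O F)))
    {T : Type} {A : T → Subring F} (hA : AtlasAt η A) :
    ∃ η' : Spec (CommRingCat.of F) ⟶
        pullback f (Spec.map (CommRingCat.ofHom (algebraMap O K))),
      η' ≫ pullback.fst _ _ = η ∧
      η' ≫ pullback.snd _ _ = Spec.map (CommRingCat.ofHom (algebraMap K F)) ∧
      AtlasAt η' (fun t => (Algebra.adjoin K (A t : Set F)).toSubring) := by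
  obtain ⟨U, hU, hch⟩ := hA
  set g := Spec.map (CommRingCat.ofHom (algebraMap O K)) with hg
  have hOF : (algebraMap O F) = (algebraMap K F).comp (algebraMap O K) :=
    IsScalarTower.algebraMap_eq O K F
  have hηg : η ≫ f = Spec.map (CommRingCat.ofHom (algebraMap K F)) ≫ g := by
    rw [hη, hg, ← Spec.map_comp, ← CommRingCat.ofHom_comp, ← hOF]
  refine ⟨pullback.lift η (Spec.map (CommRingCat.ofHom (algebraMap K F))) hηg,
    pullback.lift_fst _ _ _, pullback.lift_snd _ _ _,
    fun t => (pullback.fst f g) ⁻¹ᵁ (U t), ?_, fun t => ?_⟩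
  · have h1 : (pullback.fst f g) ⁻¹ᵁ (⨆ t, U t) = ⨆ t, (pullback.fst f g) ⁻¹ᵁ (U t) :=
      Scheme.Hom.preimage_iSup _ _
    rw [← h1, hU]
    rfl
  · obtain ⟨j, hj, hjU, hjη⟩ := hch t
    -- the structure morphism of the chart
    obtain ⟨φ', hφ'⟩ : ∃ φ : CommRingCat.of O ⟶ CommRingCat.of (A t), Spec.map φ = j ≫ f :=
      ⟨Spec.preimage (j ≫ f), Spec.map_preimage _⟩
    have hsub : φ' ≫ CommRingCat.ofHom (A t).subtype = CommRingCat.ofHom (algebraMap O F) := by
      apply Spec.map_injective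
      rw [Spec.map_comp, hφ', ← Category.assoc, hjη, hη]
    have hmem : ∀ o, algebraMap O F o ∈ A t := by
      intro o
      have := congrArg (fun h : CommRingCat.of O ⟶ CommRingCat.of F => h.hom o) hsub
      have h2 : ((φ'.hom o : A t) : F) = algebraMap O F o := this
      rw [← h2]
      exact (φ'.hom o).2
    have hφ : Spec.map (CommRingCat.ofHom (phi (A t) hmem)) = j ≫ f := by
      rw [← hφ']
      congr 1
      ext o
      have := congrArg (fun h : CommRingCat.of O ⟶ CommRingCat.of F => h.hom o) hsub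
      exact this.symm
    have hpb := isPullback_SpecMap_of_isPushout _ _ _ _ (po (K := K) (A t) hmem)
    rw [hφ] at hpb
    have hw : (Spec.map (CommRingCat.ofHom (inc (K := K) (A t))) ≫ j) ≫ f =
        Spec.map (CommRingCat.ofHom (psi (K := K) (A t))) ≫ g := by
      rw [Category.assoc]
      exact hpb.w
    set j' : Spec (CommRingCat.of (BB K (A t))) ⟶ pullback f g :=
      pullback.lift (Spec.map (CommRingCat.ofHom (inc (K := K) (A t))) ≫ j)
        (Spec.map (CommRingCat.ofHom (psi (K := K) (A t)))) hw with hj'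
    have hfst : j' ≫ pullback.fst f g = Spec.map (CommRingCat.ofHom (inc (K := K) (A t))) ≫ j :=
      pullback.lift_fst _ _ _
    have hsnd : j' ≫ pullback.snd f g = Spec.map (CommRingCat.ofHom (psi (K := K) (A t))) :=
      pullback.lift_snd _ _ _
    have hP : IsPullback (pullback.fst f g) (pullback.snd f g) f g := IsPullback.of_hasPullback f g
    have hpb' : IsPullback (Spec.map (CommRingCat.ofHom (inc (K := K) (A t))))
        (j' ≫ pullback.snd f g) (j ≫ f) g := by
      rw [hsnd]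
      exact hpb
    have hsq : IsPullback (Spec.map (CommRingCat.ofHom (inc (K := K) (A t)))) j' j
        (pullback.fst f g) := IsPullback.of_bot hpb' hfst.symm hP
    have hoi : IsOpenImmersion j' :=
      MorphismProperty.of_isPullback (P := @IsOpenImmersion) hsq hj
    refine ⟨j', hoi, ?_, ?_⟩
    · have h1 := IsOpenImmersion.image_preimage_eq_preimage_image_of_isPullback hsq ⊤
      show Scheme.Hom.opensRange j' = pullback.fst f g ⁻¹ᵁ U t
      rw [← hjU]
      rw [Scheme.Hom.image_top_eq_opensRange] at h1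
      rw [← h1]
      exact (Scheme.Hom.image_top_eq_opensRange j').symm
    · apply pullback.hom_ext
      · rw [Category.assoc, hfst, pullback.lift_fst, ← Category.assoc, ← Spec.map_comp, ← hjη]
        rfl
      · rw [Category.assoc, hsnd, pullback.lift_snd, ← Spec.map_comp]
        rfl

/-- The atlas of the projective model attached to a submodule. -/
theorem modAt {O F : Type} [CommRing O] [Field F] [Algebra O F] (M : Submodule O F)
    {T : Type} (hT : Nonempty T) (m : T → F) (hm : ∀ t, m t ∈ M) (hm0 : ∀ t, m t ≠ 0)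
    (G : Set F) (hG : Submodule.span O G = M)
    (hGm : ∀ y ∈ G, ∃ k : ℕ, y ^ (k + 1) ∈ Submodule.span O (Set.range m) * M ^ k)
    (a : F) (ha : a ∈ M) (ha0 : a ≠ 0) :
    AtlasAt (Pool.Agent.W398.GF.eta M a ha ha0) (fun t => (chart O M (m t)).toSubring) := by
  obtain ⟨t₀⟩ := hT
  refine ⟨fun t => Proj.basicOpen (mPiece M) (tElt M (m t) (hm t)), ?_, ?_⟩
  · refine top_le_iff.mp fun x _ ↦ TopologicalSpace.Opens.mem_iSup.mpr ?_
    by_contra! H
    have H2 : ∀ t, tElt M (m t) (hm t) ∈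
        ProjectiveSpectrum.asHomogeneousIdeal (𝒜 := mPiece M) x := fun t => by
      by_contra h
      exact H t h
    set q : Ideal (mAlg M) :=
      (ProjectiveSpectrum.asHomogeneousIdeal (𝒜 := mPiece M) x).toIdeal with hq
    have hp : q.IsPrime := ProjectiveSpectrum.isPrime (𝒜 := mPiece M) x
    have h1 : ∀ b ∈ Submodule.span O (Set.range m), ∃ hb : b ∈ M,
        tElt M b hb ∈ q := by
      intro b hb
      refine Pool.Agent.W398.GF.tElt_mem_span M ?_ hb
      rintro _ ⟨t, rfl⟩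
      exact ⟨hm t, H2 t⟩
    apply not_all_mem M x
    intro b hb
    have hb' : b ∈ Submodule.span O G := by rw [hG]; exact hb
    obtain ⟨_, h⟩ := Pool.Agent.W398.GF.tElt_mem_span M (q := q) (s := G) (by
      intro y hy
      have hyM : y ∈ M := by rw [← hG]; exact Submodule.subset_span hy
      refine ⟨hyM, ?_⟩
      obtain ⟨k, hk⟩ := hGm y hy
      obtain ⟨h2, h3⟩ := Pool.Agent.W398.GF.mMon_mem_of_mul M h1 k hk
      have h4 : tElt M y hyM ^ (k + 1) ∈ q := by
        rw [Pool.Agent.W398.GF.tElt_pow]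
        exact h3
      exact hp.mem_of_pow_mem _ h4) hb'
    exact h
  · intro t
    rw [Pool.Agent.W398.GF.eta_eq M ha (hm t) ha0 (hm0 t)]
    exact Pool.Agent.W398.GF.isChart M (m t) (hm t) (hm0 t)

end Pool.Agent.TH188.ARC
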