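import Pool.Agent.TH188.ARC.G1
import Pool.Agent.H968R2.Quad.ExistsModel

/-!
# The model attached to a module, with its generic point
-/

set_option autoImplicit false
set_option linter.unusedVariables false
set_option linter.unusedSectionVars false

open AlgebraicGeometry CategoryTheory Limits Pointwise

namespace Pool.Agent.TH188.ARC

open Pool.Agent.H918R2.Quad Pool.Agent.H968R2.Quad Pool.Agent.W559.GF Pool.Agent.W930.GF
  Pool.Agent.W191.GF

section

variable {O K F : Type} [CommRing O] [IsDedekindDomain O] [Field K] [Algebra O K]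
  [IsFractionRing O K] [Field F] [Algebra K F] [Algebra O F] [IsScalarTower O K F]

theorem mainAt {ι : Type} [Fintype ι] [Nonempty ι] (y : ι → F) (hy : ∀ i, y i ≠ 0)
    {D : ℕ} (hD : 1 ≤ D) {M : Submodule O F} (hFG : M.FG)
    (hle : M ≤ Submodule.span O (Set.range y) ^ D)
    (hcomm : ∀ z ∈ Submodule.span O (Set.range y) ^ D, ∃ s : O, s ≠ 0 ∧ s • z ∈ M)
    {X : Scheme.{0}} {f : X ⟶ Spec (CommRingCat.of K)} (hsep : IsSeparated f)
    {η : Spec (CommRingCat.of F) ⟶ X}
    (hη : η ≫ f = Spec.map (CommRingCat.ofHom (algebraMap K F)))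
    (hX : AtlasAt η (fun i => (Algebra.adjoin K (Set.range fun j => y j / y i)).toSubring))
    (g : F) (hg : g ∈ M) (hg0 : g ≠ 0) :
    ∃ e : pullback (modelMap M) (Spec.map (CommRingCat.ofHom (algebraMap O K))) ≅ X,
      e.hom ≫ f = pullback.snd (modelMap M) (Spec.map (CommRingCat.ofHom (algebraMap O K))) ∧
      η ≫ e.inv ≫ pullback.fst _ _ = Pool.Agent.W398.GF.eta M g hg hg0 := by
  classical
  have hOK : Function.Injective (algebraMap O K) := IsFractionRing.injective O K
  have hOF : Function.Injective (algebraMap O F) := by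
    rw [IsScalarTower.algebraMap_eq O K F]
    exact (algebraMap K F).injective.comp hOK
  -- the module over `K`
  set V : Submodule K F := Submodule.span K (M : Set F) with hV
  have hVFG : V.FG := by
    obtain ⟨s, hs⟩ := hFG
    refine ⟨s, ?_⟩
    rw [hV, ← hs]
    exact (Submodule.span_span_of_tower O K (s : Set F)).symm
  have hspanO : ∀ s : Set F, (Submodule.span O s : Set F) ⊆ Submodule.span K s := fun s z hz =>
    Submodule.span_le_restrictScalars O K s hz
  rw [Submodule.span_pow] at hle hcomm
  obtain ⟨k, rfl⟩ : ∃ k, D = k + 1 := ⟨D - 1, by omega⟩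
  have hVy : V = Submodule.span K (Set.range y) ^ (k + 1) := by
    rw [Submodule.span_pow]
    apply le_antisymm
    · refine Submodule.span_le.2 fun z hz => ?_
      exact hspanO _ (hle hz)
    · refine Submodule.span_le.2 fun z hz => ?_
      obtain ⟨s, hs, hsz⟩ := hcomm z (Submodule.subset_span hz)
      have h1 : s • z ∈ V := Submodule.subset_span hsz
      have hsK : algebraMap O K s ≠ 0 := fun h => hs (hOK (by rw [h, map_zero]))
      have h2 : z = (algebraMap O K s)⁻¹ • (s • z) := by
        rw [← algebraMap_smul K s z, smul_smul, inv_mul_cancel₀ hsK, one_smul]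
      rw [h2]
      exact V.smul_mem _ h1
  let T : Type := {t : F // t ∈ M ∧ t ≠ 0}
  have hTne : Nonempty T := ⟨⟨g, hg, hg0⟩⟩
  have hgV : g ∈ V := Submodule.subset_span hg
  -- the atlases
  have hA1 : AtlasAt (Pool.Agent.W398.GF.eta M g hg hg0)
      (fun t : T => (chart O M t.1).toSubring) := by
    refine modAt M hTne (fun t => t.1) (fun t => t.2.1) (fun t => t.2.2) (M : Set F)
      (Submodule.span_eq M) ?_ g hg hg0
    intro z hz
    refine ⟨0, ?_⟩
    rw [pow_zero, mul_one, zero_add, pow_one]
    by_cases h0 : z = 0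
    · rw [h0]; exact Submodule.zero_mem _
    · exact Submodule.subset_span ⟨⟨z, hz, h0⟩, rfl⟩
  obtain ⟨η', hη'1, hη'2, hA2'⟩ := bcAt (K := K) (modelMap M)
    (Pool.Agent.W398.GF.eta_modelMap M g hg hg0) hA1
  have hA2 : AtlasAt η' (fun t : T => (chart K V t.1).toSubring) := by
    have h2 : (fun t : T => (Algebra.adjoin K ((chart O M t.1).toSubring : Set F)).toSubring) =
        fun t : T => (chart K V t.1).toSubring := by
      funext t
      exact adjoin_chart M t.1
    rw [← h2]
    exact hA2'
  have hA3 : AtlasAt (Pool.Agent.W398.GF.eta V g hgV hg0)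
      (fun t : T => (chart K V t.1).toSubring) := by
    refine modAt V hTne (fun t => t.1) (fun t => Submodule.subset_span t.2.1) (fun t => t.2.2)
      (M : Set F) rfl ?_ g hgV hg0
    intro z hz
    refine ⟨0, ?_⟩
    rw [pow_zero, mul_one, zero_add, pow_one]
    by_cases h0 : z = 0
    · rw [h0]; exact Submodule.zero_mem _
    · exact Submodule.subset_span ⟨⟨z, hz, h0⟩, rfl⟩
  have hA4 : AtlasAt (Pool.Agent.W398.GF.eta V g hgV hg0)
      (fun i => (Algebra.adjoin K (Set.range fun j => y j / y i)).toSubring) := by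
    have h1 : (fun i => (Algebra.adjoin K (Set.range fun j => y j / y i)).toSubring) =
        fun i => (chart K V (y i ^ (k + 1))).toSubring := by
      funext i
      rw [hVy, chart_pow y hy k i]
    rw [h1]
    refine modAt V inferInstance (fun i => y i ^ (k + 1)) ?_ (fun i => pow_ne_zero _ (hy i))
      (Set.range y ^ (k + 1)) ?_ ?_ g hgV hg0
    · intro i
      rw [hVy]
      exact Submodule.pow_mem_pow _ (Submodule.subset_span (Set.mem_range_self i)) _
    · rw [hVy, Submodule.span_pow]
    · intro z hz
      refine ⟨k, ?_⟩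
      rw [pow_succ] at hz
      obtain ⟨a, ha, _, ⟨i, rfl⟩, rfl⟩ := hz
      change (a * y i) ^ (k + 1) ∈ _
      rw [mul_comm a, mul_pow]
      refine Submodule.mul_mem_mul (Submodule.subset_span ⟨i, rfl⟩) ?_
      have h2 : a ∈ Submodule.span K (Set.range y) ^ k := by
        rw [Submodule.span_pow]
        exact Submodule.subset_span ha
      have h3 : a ^ (k + 1) ∈ (Submodule.span K (Set.range y) ^ k) ^ (k + 1) :=
        Submodule.pow_mem_pow _ h2 _
      rw [hVy, ← pow_mul, mul_comm (k + 1) k, pow_mul]
      exact h3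
  have hpM : IsProper (modelMap M) := modelMap_isProper M hOF hFG
  have hpV : IsProper (modelMap V) := modelMap_isProper V (algebraMap K F).injective hVFG
  have hsV : IsSeparated (modelMap V) := inferInstance
  have hsP : IsSeparated
      (pullback.snd (modelMap M) (Spec.map (CommRingCat.ofHom (algebraMap O K)))) := inferInstance
  have hηV := Pool.Agent.W398.GF.eta_modelMap V g hgV hg0
  obtain ⟨e1, he1, he1'⟩ := isoAt hsP hsV (hη'2.trans hηV.symm) hA2 hA3 hTne
  obtain ⟨e2, he2, he2'⟩ := isoAt hsV hsep (hηV.trans hη.symm) hA4 hX inferInstance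
  refine ⟨e1 ≪≫ e2, ?_, ?_⟩
  · rw [Iso.trans_hom, Category.assoc, he2, he1]
  · rw [← he2', ← he1', Iso.trans_inv]
    simp only [Category.assoc, Iso.hom_inv_id_assoc]
    exact hη'1

end

end Pool.Agent.TH188.ARC
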