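import Pool.Agent.TH188.ARC.A7
import Pool.Agent.TH188.ARC.G2

/-!
# Models along a trait
-/

set_option autoImplicit false
set_option linter.unusedVariables false
set_option linter.unusedSectionVars false

open AlgebraicGeometry CategoryTheory Limits Pointwise

namespace Pool.Agent.TH188.ARC

open Pool.Agent.H918R2.Quad Pool.Agent.H968R2.Quad Pool.Agent.W559.GF Pool.Agent.W930.GF
  Pool.Agent.W191.GF Pool.Agent.W418.LU2

/-- If the stalks are regular then so are the localizations of a chart. -/
lemma regular_of_stalk {X : Scheme.{0}} (hX : ∀ x : X, IsRegularLocalRing (X.presheaf.stalk x))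
    {B : Type} [CommRing B] (j : Spec (CommRingCat.of B) ⟶ X) [IsOpenImmersion j]
    (P : Ideal B) [hP : P.IsPrime] : IsRegularLocalRing (Localization.AtPrime P) := by
  let R : CommRingCat.{0} := CommRingCat.of B
  let x : PrimeSpectrum R := ⟨P, hP⟩
  let k : Algebra R ((Spec R).presheaf.stalk x) := StructureSheaf.stalkAlgebra R x
  have h1 : IsLocalization.AtPrime ((Spec R).presheaf.stalk x) x.asIdeal :=
    StructureSheaf.IsLocalization.to_stalk R x
  have h2 := hX (j x)
  have e := (asIso (j.stalkMap x)).commRingCatIsoToRingEquiv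
  have h3 : IsRegularLocalRing ((Spec R).presheaf.stalk x) := IsRegularLocalRing.of_ringEquiv e
  exact IsRegularLocalRing.of_ringEquiv
    (IsLocalization.algEquiv x.asIdeal.primeCompl (Localization.AtPrime x.asIdeal)
      ((Spec R).presheaf.stalk x)).symm.toRingEquiv

/-- A point with values in a field factors through a chart. -/
lemma factor_chart {X : Scheme.{0}} {F : Type} [Field F] {η : Spec (CommRingCat.of F) ⟶ X}
    {T : Type} {A : T → Subring F} (h : AtlasAt η A) {L : Type} [Field L]
    (ψ : Spec (CommRingCat.of L) ⟶ X) :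
    ∃ (t : T) (j : Spec (CommRingCat.of (A t)) ⟶ X) (_ : IsOpenImmersion j) (α : A t →+* L),
      io (A t) ≫ j = η ∧ Spec.map (CommRingCat.ofHom α) ≫ j = ψ := by
  obtain ⟨j, hj, hjη, hcov⟩ := h.charts
  let pt : PrimeSpectrum L := IsLocalRing.closedPoint L
  obtain ⟨t, y, hy⟩ := hcov (ψ pt)
  have hr : Set.range ψ ⊆ Set.range (j t) := by
    rintro _ ⟨z, rfl⟩
    have hz : z = pt := Subsingleton.elim (α := PrimeSpectrum L) z pt
    rw [hz]
    exact ⟨y, hy⟩
  have := hj t
  obtain ⟨α, hα⟩ := Spec.map_surjective (IsOpenImmersion.lift (j t) ψ hr)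
  refine ⟨t, j t, hj t, α.hom, hjη t, ?_⟩
  have h1 : Spec.map (CommRingCat.ofHom α.hom) = IsOpenImmersion.lift (j t) ψ hr := hα
  rw [h1]
  exact IsOpenImmersion.lift_fac _ _ _

/-- Models along a trait. -/
theorem trait_model {O K F : Type} [CommRing O] [IsDedekindDomain O] [Field K] [Algebra O K]
    [IsFractionRing O K] [Field F] [Algebra K F] [Algebra O F] [IsScalarTower O K F]
    {ι : Type} [Fintype ι] [Nonempty ι] (y : ι → F) (hy : ∀ i, y i ≠ 0)
    {X : Scheme.{0}} {f : X ⟶ Spec (CommRingCat.of K)} (hsep : IsSeparated f)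
    (hreg : ∀ x : X, IsRegularLocalRing (X.presheaf.stalk x))
    {η : Spec (CommRingCat.of F) ⟶ X}
    (hη : η ≫ f = Spec.map (CommRingCat.ofHom (algebraMap K F)))
    (hX : AtlasAt η (fun i => (Algebra.adjoin K (Set.range fun j => y j / y i)).toSubring))
    {L : Type} [Field L] [CharZero L] (VL : ValuationSubring L) [IsDiscreteValuationRing VL]
    (ψ : Spec (CommRingCat.of L) ⟶ X)
    (hOV : ∀ κ : K →+* L, ψ ≫ f = Spec.map (CommRingCat.ofHom κ) →
      ∀ o : O, κ (algebraMap O K o) ∈ VL) :
    ∃ (M : Submodule O F) (g : F) (hg : g ∈ M) (hg0 : g ≠ 0)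
      (e : pullback (modelMap M) (Spec.map (CommRingCat.ofHom (algebraMap O K))) ≅ X)
      (ψ' : Spec (CommRingCat.of VL) ⟶ model M), M.FG ∧
      e.hom ≫ f = pullback.snd _ _ ∧
      Spec.map (CommRingCat.ofHom VL.subtype) ≫ ψ' = ψ ≫ e.inv ≫ pullback.fst _ _ ∧
      IsRegularLocalRing ((model M).presheaf.stalk (ψ' (IsLocalRing.closedPoint VL))) := by
  classical
  have hOK : Function.Injective (algebraMap O K) := IsFractionRing.injective O K
  have hOF : Function.Injective (algebraMap O F) := by
    rw [IsScalarTower.algebraMap_eq O K F]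
    exact (algebraMap K F).injective.comp hOK
  obtain ⟨i₀, j, hj, α, hjη, hαψ⟩ := factor_chart hX ψ
  have hreg' : ∀ (i : ι) (P : Ideal (Algebra.adjoin K (Set.range fun j => y j / y i)).toSubring)
      [P.IsPrime], IsRegularLocalRing (Localization.AtPrime P) := by
    intro i P hP
    obtain ⟨J, hJ, hJη, hcov⟩ := hX.charts
    have := hJ i
    exact regular_of_stalk hreg (J i) P
  -- the structure map of the chart
  have hKB : ∀ k : K, algebraMap K F k ∈
      (Algebra.adjoin K (Set.range fun j => y j / y i₀)).toSubring := fun k =>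
    Subalgebra.algebraMap_mem _ k
  have hjf : j ≫ f = Spec.map (CommRingCat.ofHom ((algebraMap K F).codRestrict
      (Algebra.adjoin K (Set.range fun j => y j / y i₀)).toSubring hKB)) := by
    apply io_mono
    rw [← Category.assoc, hjη, hη]
    change _ = Spec.map _ ≫ Spec.map _
    rw [← Spec.map_comp]
    rfl
  obtain ⟨A, π, V, hA, D, M, g, hπα, hV, hD, hM, hle, hcomm, hg, hg0, hBV, hBA, hlo⟩ :=
    trait_module y hy hreg' i₀ α VL (by
      intro o h
      have h1 := hOV (α.comp ((algebraMap K F).codRestrict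
        (Algebra.adjoin K (Set.range fun j => y j / y i₀)).toSubring hKB)) (by
          rw [← hαψ, Category.assoc, hjf, ← Spec.map_comp]
          rfl) o
      have h2 : (⟨algebraMap K F (algebraMap O K o), hKB _⟩ :
          (Algebra.adjoin K (Set.range fun j => y j / y i₀)).toSubring) = ⟨_, h⟩ :=
        Subtype.ext (IsScalarTower.algebraMap_apply O K F o).symm
      rw [← h2]
      exact h1)
  obtain ⟨e, he, heη⟩ := mainAt y hy hD hM hle hcomm hsep hη hX g hg hg0
  have hpM : IsProper (modelMap M) := modelMap_isProper M hOF hM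
  obtain ⟨jY, hjY, hjYU, hjYη⟩ := Pool.Agent.W398.GF.isChart M g hg hg0
  -- the two maps from `Spec A`
  let sX : Spec (CommRingCat.of A) ⟶ X := Spec.map (CommRingCat.ofHom (Subring.inclusion hA)) ≫ j
  let sY : Spec (CommRingCat.of A) ⟶ model M :=
    Spec.map (CommRingCat.ofHom (Subring.inclusion hBA)) ≫ jY
  have hsX : io A ≫ sX = η := by
    change io A ≫ Spec.map _ ≫ j = η
    rw [← Category.assoc, ← hjη]
    congr 1
    change Spec.map _ ≫ Spec.map _ = Spec.map _
    rw [← Spec.map_comp]
    rfl
  have hsY : io A ≫ sY = Pool.Agent.W398.GF.eta M g hg hg0 := by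
    change io A ≫ Spec.map _ ≫ jY = _
    rw [← Category.assoc, ← hjYη]
    congr 1
    change Spec.map _ ≫ Spec.map _ = Spec.map _
    rw [← Spec.map_comp]
    rfl
  have hss : sX ≫ e.inv ≫ pullback.fst _ _ = sY := by
    have hd : IsDominant (io A) := ⟨io_dense A⟩
    have h1 : io A ≫ sX ≫ e.inv ≫ pullback.fst _ _ = io A ≫ sY := by
      rw [hsY, ← Category.assoc, hsX, heη]
    refine ext_of_isDominant_of_isSeparated (modelMap M) ?_ (io A) h1
    apply io_mono
    have h2 := congrArg (fun m => m ≫ modelMap M) h1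
    simp only [Category.assoc] at h2 ⊢
    exact h2
  have hψ : ψ = Spec.map (CommRingCat.ofHom π) ≫ sX := by
    rw [← hαψ]
    change _ = Spec.map _ ≫ Spec.map _ ≫ j
    rw [← Category.assoc, ← Spec.map_comp]
    congr 2
    ext b
    exact (hπα b).symm
  -- the extension
  have hβ : ∀ b : (chart O M g).toSubring, π (Subring.inclusion hBA b) ∈ VL := fun b =>
    (hV.mem (Subring.inclusion hBA b)).1 (hBV b.2)
  let β : (chart O M g).toSubring →+* VL :=
    (π.comp (Subring.inclusion hBA)).codRestrict VL.toSubring hβ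
  refine ⟨M, g, hg, hg0, e, Spec.map (CommRingCat.ofHom β) ≫ jY, hM, he, ?_, ?_⟩
  · rw [hψ, Category.assoc, hss]
    change _ = Spec.map _ ≫ Spec.map _ ≫ jY
    rw [← Category.assoc, ← Category.assoc, ← Spec.map_comp, ← Spec.map_comp]
    rfl
  · obtain ⟨P, hP, hPm, hPreg⟩ := regular_centre' hBV hlo
    let x : PrimeSpectrum (CommRingCat.of (chart O M g).toSubring) :=
      (Spec.map (CommRingCat.ofHom β)) (IsLocalRing.closedPoint VL)
    have hx : x.asIdeal = P := by
      ext b
      rw [hPm]
      have h1 : b ∈ x.asIdeal ↔ β b ∈ IsLocalRing.maximalIdeal VL := Iff.rfl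
      have h2 := hV.lt (Subring.inclusion hBA b)
      rw [h1]
      have h3 : β b ∈ IsLocalRing.maximalIdeal VL ↔ VL.valuation (β b : L) < 1 :=
        (VL.valuation_lt_one_iff (β b))
      rw [h3]
      exact h2.symm
    have hxreg : IsRegularLocalRing (Localization.AtPrime x.asIdeal) := by
      subst hx
      exact hPreg
    have h2 := regular_stalk_spec (CommRingCat.of (chart O M g).toSubring) x hxreg
    have e2 := (asIso (jY.stalkMap x)).commRingCatIsoToRingEquiv
    exact IsRegularLocalRing.of_ringEquiv e2.symm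

end Pool.Agent.TH188.ARC
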