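import Pool.Agent.TH188.ARC.G3

/-!
# The atlas of an integral projective scheme
-/

set_option autoImplicit false
set_option linter.unusedVariables false
set_option linter.unusedSectionVars false

open AlgebraicGeometry CategoryTheory Limits Pointwise HomogeneousLocalization

namespace Pool.Agent.TH188.ARC

open Pool.Agent.H918R2.Quad Pool.Agent.H968R2.Quad Pool.Agent.W559.GF Pool.Agent.W930.GF
  Pool.Agent.W191.GF Pool.Agent.W418.LU2

section

variable {F : Type} [Field F] {P : Scheme.{0}} (η : Spec (CommRingCat.of F) ⟶ P)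

/-- the point of the spectrum of a field -/
noncomputable abbrev thePt (F : Type) [Field F] : Spec (CommRingCat.of F) :=
  (IsLocalRing.closedPoint F : PrimeSpectrum F)

lemma factor_of_mem {B : Type} [CommRing B] (j : Spec (CommRingCat.of B) ⟶ P) [IsOpenImmersion j]
    (h : η (thePt F) ∈ j.opensRange) :
    ∃ ρ : B →+* F, Spec.map (CommRingCat.ofHom ρ) ≫ j = η := by
  have hr : Set.range η ⊆ Set.range j := by
    rintro _ ⟨z, rfl⟩
    have hz : z = thePt F := Subsingleton.elim (α := PrimeSpectrum F) z (thePt F)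
    rw [hz]
    exact h
  obtain ⟨α, hα⟩ := Spec.map_surjective (IsOpenImmersion.lift j η hr)
  refine ⟨α.hom, ?_⟩
  have h1 : Spec.map (CommRingCat.ofHom α.hom) = IsOpenImmersion.lift j η hr := hα
  rw [h1]
  exact IsOpenImmersion.lift_fac _ _ _

lemma factor_inj {B : Type} [CommRing B] (j : Spec (CommRingCat.of B) ⟶ P) [IsOpenImmersion j]
    [IsIntegral P] (hη : η (thePt F) = genericPoint P) (ρ : B →+* F)
    (hρ : Spec.map (CommRingCat.ofHom ρ) ≫ j = η) : Function.Injective ρ := by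
  let x : Spec (CommRingCat.of B) := (Spec.map (CommRingCat.ofHom ρ)) (thePt F)
  have hne : Nonempty (Spec (CommRingCat.of B)) := ⟨x⟩
  have hint : IsIntegral (Spec (CommRingCat.of B)) := isIntegral_of_isOpenImmersion j
  have hdom : IsDomain (CommRingCat.of B) := (affine_isIntegral_iff (CommRingCat.of B)).1 hint
  have h1 : j x = genericPoint P := by
    rw [← hη, ← hρ]
    rfl
  have h2 : j (genericPoint (Spec (CommRingCat.of B))) = genericPoint P :=
    genericPoint_eq_of_isOpenImmersion j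
  have h3 : x = genericPoint (Spec (CommRingCat.of B)) :=
    j.isOpenEmbedding.injective (h1.trans h2.symm)
  rw [genericPoint_eq_bot_of_affine] at h3
  rw [injective_iff_map_eq_zero]
  intro b hb
  have h4 : b ∈ PrimeSpectrum.asIdeal (R := B) x := by
    change ρ b ∈ IsLocalRing.maximalIdeal F
    rw [hb]
    exact Submodule.zero_mem _
  rw [h3] at h4
  exact h4

/-- The chart of the image. -/
lemma isChart_range {B : Type} [CommRing B] (j : Spec (CommRingCat.of B) ⟶ P)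
    [IsOpenImmersion j] (ρ : B →+* F) (hρ : Spec.map (CommRingCat.ofHom ρ) ≫ j = η)
    (hinj : Function.Injective ρ) {R : Subring F} (hR : ρ.range = R) :
    IsChart η R j.opensRange := by
  subst hR
  let e : B ≃+* ρ.range := RingEquiv.ofBijective ρ.rangeRestrict
    ⟨fun a b h => hinj (congrArg Subtype.val h), ρ.rangeRestrict_surjective⟩
  let φ : CommRingCat.of B ⟶ CommRingCat.of ρ.range := e.toCommRingCatIso.hom
  have h3 : IsIso (Spec.map φ) := inferInstance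
  refine ⟨Spec.map φ ≫ j, inferInstance, Scheme.Hom.opensRange_comp_of_isIso _ _, ?_⟩
  rw [← hρ, ← Category.assoc, ← Spec.map_comp]
  rfl

end

section

variable {K A : Type} [Field K] [CommRing A] [Algebra K A] (𝒜 : ℕ → Submodule K A)
  [GradedAlgebra 𝒜]

/-- the element `b / a` -/
noncomputable def rat {a b : A} (ha : a ∈ 𝒜 1) (hb : b ∈ 𝒜 1) : Away 𝒜 a :=
  Away.mk 𝒜 ha 1 b (by simpa using hb)

lemma rat_eq {a b : A} (ha : a ∈ 𝒜 1) (hb : b ∈ 𝒜 1) :
    Away.isLocalizationElem ha hb = rat 𝒜 ha hb := by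
  ext
  simp [rat]

lemma rat_mul {a b c : A} (ha : a ∈ 𝒜 1) (hb : b ∈ 𝒜 1) (hc : c ∈ 𝒜 1) {x : A} (hx : x = a * c)
    (hx' : x = c * a) :
    awayMap 𝒜 hc hx (rat 𝒜 ha hb) =
      awayMap 𝒜 ha hx' (rat 𝒜 hc hb) * awayMap 𝒜 hc hx (rat 𝒜 ha hc) := by
  unfold rat
  ext
  rw [awayMap_mk, awayMap_mk, awayMap_mk, HomogeneousLocalization.val_mul]
  simp only [Away.val_mk, Localization.mk_mul]
  rw [Localization.mk_eq_mk_iff, Localization.r_iff_exists]
  use 1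
  simp only [OneMemClass.coe_one, one_mul, Submonoid.coe_mul, hx]
  ring

lemma mk_prod {ι : Type} [Fintype ι] {a : A} (ha : a ∈ 𝒜 1) (v : ι → A) (hv : ∀ i, v i ∈ 𝒜 1)
    (n : ℕ) (m : ι → ℕ) (hm : ∑ i, m i = n) (h : ∏ i, v i ^ m i ∈ 𝒜 (n • 1)) :
    Away.mk 𝒜 ha n (∏ i, v i ^ m i) h = ∏ i, rat 𝒜 ha (hv i) ^ m i := by
  apply (show Function.Injective (algebraMap (Away 𝒜 a) (Localization.Away a))
      from HomogeneousLocalization.val_injective _)
  simp only [map_pow, map_prod]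
  simp only [HomogeneousLocalization.algebraMap_apply, Away.val_mk, rat,
    Localization.mk_pow, Localization.mk_prod]
  congr 1
  apply Subtype.ext
  simp [Finset.prod_pow_eq_pow_sum, hm]

variable {F : Type} [Field F] (η : Spec (CommRingCat.of F) ⟶ Proj 𝒜)

lemma rho_comp {a c x : A} (ha : a ∈ 𝒜 1) (hc : c ∈ 𝒜 1) (hx : x = a * c)
    (hxm : x ∈ 𝒜 (1 + 1)) (ρa : Away 𝒜 a →+* F)
    (ha' : Spec.map (CommRingCat.ofHom ρa) ≫ Proj.awayι 𝒜 a ha one_pos = η)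
    (ρx : Away 𝒜 x →+* F)
    (hx' : Spec.map (CommRingCat.ofHom ρx) ≫ Proj.awayι 𝒜 x hxm (by norm_num) = η) :
    ρx.comp (awayMap 𝒜 hc hx) = ρa := by
  have h1 : Spec.map (CommRingCat.ofHom (ρx.comp (awayMap 𝒜 hc hx))) =
      Spec.map (CommRingCat.ofHom ρa) := by
    rw [← cancel_mono (Proj.awayι 𝒜 a ha one_pos), ha', CommRingCat.ofHom_comp, Spec.map_comp,
      Category.assoc, Proj.SpecMap_awayMap_awayι 𝒜 ha one_pos hc hx]
    exact hx'
  have h2 := Spec.map_injective h1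
  exact congrArg (fun g => g.hom) h2

lemma rho_rat {a b c : A} (ha : a ∈ 𝒜 1) (hb : b ∈ 𝒜 1) (hc : c ∈ 𝒜 1) (ρa : Away 𝒜 a →+* F)
    (ha' : Spec.map (CommRingCat.ofHom ρa) ≫ Proj.awayι 𝒜 a ha one_pos = η)
    (ρc : Away 𝒜 c →+* F)
    (hc' : Spec.map (CommRingCat.ofHom ρc) ≫ Proj.awayι 𝒜 c hc one_pos = η) :
    ρa (rat 𝒜 ha hb) = ρc (rat 𝒜 hc hb) * ρa (rat 𝒜 ha hc) := by
  have hma : η (thePt F) ∈ Proj.basicOpen 𝒜 a := by
    rw [← Proj.opensRange_awayι 𝒜 a ha one_pos, ← ha']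
    exact ⟨_, rfl⟩
  have hmc : η (thePt F) ∈ Proj.basicOpen 𝒜 c := by
    rw [← Proj.opensRange_awayι 𝒜 c hc one_pos, ← hc']
    exact ⟨_, rfl⟩
  have hxm : a * c ∈ 𝒜 (1 + 1) := SetLike.mul_mem_graded ha hc
  obtain ⟨ρx, hρx⟩ := factor_of_mem η (Proj.awayι 𝒜 (a * c) hxm (by norm_num)) (by
    rw [Proj.opensRange_awayι, Proj.basicOpen_mul]
    exact ⟨hma, hmc⟩)
  have h1 := rho_comp 𝒜 η ha hc rfl hxm ρa ha' ρx hρx
  have h2 := rho_comp 𝒜 η hc ha (mul_comm a c) hxm ρc hc' ρx hρx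
  have h3 := congrArg ρx (rat_mul 𝒜 ha hb hc rfl (mul_comm a c))
  rw [map_mul] at h3
  rw [← h1, ← h2]
  exact h3

lemma rho_ne_zero {a b : A} (ha : a ∈ 𝒜 1) (hb : b ∈ 𝒜 1) (ρa : Away 𝒜 a →+* F)
    (ha' : Spec.map (CommRingCat.ofHom ρa) ≫ Proj.awayι 𝒜 a ha one_pos = η) :
    ρa (rat 𝒜 ha hb) ≠ 0 ↔ η (thePt F) ∈ Proj.basicOpen 𝒜 b := by
  let x : Spec (CommRingCat.of (Away 𝒜 a)) := (Spec.map (CommRingCat.ofHom ρa)) (thePt F)
  have h1 : η (thePt F) = Proj.awayι 𝒜 a ha one_pos x := by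
    rw [← ha']
    rfl
  have h2 : x ∈ Proj.awayι 𝒜 a ha one_pos ⁻¹ᵁ Proj.basicOpen 𝒜 b ↔
      η (thePt F) ∈ Proj.basicOpen 𝒜 b := by
    rw [h1]
    rfl
  rw [← h2, Proj.awayι_preimage_basicOpen 𝒜 ha one_pos hb one_pos, rat_eq]
  change ρa (rat 𝒜 ha hb) ≠ 0 ↔ ¬ (ρa (rat 𝒜 ha hb) ∈ IsLocalRing.maximalIdeal F)
  rw [IsLocalRing.maximalIdeal_eq_bot, Ideal.mem_bot]

lemma rho_struct [Algebra K F] (hηK : η ≫ Proj.toSpecZero 𝒜 ≫
      Spec.map (CommRingCat.ofHom (algebraMap K (𝒜 0))) =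
      Spec.map (CommRingCat.ofHom (algebraMap K F)))
    {a : A} (ha : a ∈ 𝒜 1) (ρa : Away 𝒜 a →+* F)
    (ha' : Spec.map (CommRingCat.ofHom ρa) ≫ Proj.awayι 𝒜 a ha one_pos = η) (k : K) :
    ρa (algebraMap (𝒜 0) (Away 𝒜 a) (algebraMap K (𝒜 0) k)) = algebraMap K F k := by
  have h1 : Spec.map (CommRingCat.ofHom ((ρa.comp (fromZeroRingHom 𝒜 _)).comp
      (algebraMap K (𝒜 0)))) = Spec.map (CommRingCat.ofHom (algebraMap K F)) := by
    rw [← hηK, ← ha', Category.assoc, ← Category.assoc (Proj.awayι _ _ _ _),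
      Proj.awayι_toSpecZero, ← Spec.map_comp, ← Spec.map_comp]
    rfl
  have h2 := Spec.map_injective h1
  exact congrArg (fun g : CommRingCat.of K ⟶ CommRingCat.of F => g.hom k) h2

/-- The charts of an integral projective scheme. -/
theorem proj_atlas [IsIntegral (Proj 𝒜)] (h0 : ∀ a ∈ 𝒜 0, ∃ q : K, algebraMap K A q = a)
    (s : Finset A) (hs : ∀ a ∈ s, a ∈ 𝒜 1) (hgen : Algebra.adjoin K (s : Set A) = ⊤)
    [Algebra K F] (hη : η (thePt F) = genericPoint (Proj 𝒜))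
    (hηK : η ≫ Proj.toSpecZero 𝒜 ≫ Spec.map (CommRingCat.ofHom (algebraMap K (𝒜 0))) =
      Spec.map (CommRingCat.ofHom (algebraMap K F))) :
    ∃ (ι : Type) (_ : Fintype ι) (_ : Nonempty ι) (y : ι → F), (∀ i, y i ≠ 0) ∧
      AtlasAt η (fun i => (Algebra.adjoin K (Set.range fun j => y j / y i)).toSubring) := by
  classical
  have hadj : Algebra.adjoin (𝒜 0) (Set.range (fun i : s => i.1)) = ⊤ := by
    rw [eq_top_iff]
    rintro z -
    have hz : z ∈ Algebra.adjoin K (s : Set A) := by rw [hgen]; trivial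
    induction hz using Algebra.adjoin_induction with
    | mem x hx => exact Algebra.subset_adjoin ⟨⟨x, hx⟩, rfl⟩
    | algebraMap r =>
      have h1 : algebraMap K A r ∈ 𝒜 0 := SetLike.algebraMap_mem_graded 𝒜 r
      exact Subalgebra.algebraMap_mem _ (⟨_, h1⟩ : 𝒜 0)
    | add x y _ _ hx hy => exact Subalgebra.add_mem _ hx hy
    | mul x y _ _ hx hy => exact Subalgebra.mul_mem _ hx hy
  have hcov := Proj.iSup_basicOpen_eq_top' 𝒜 (fun i : s => i.1) (fun i => ⟨1, hs i.1 i.2⟩) hadj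
  have hcov' : ∀ x : Proj 𝒜, ∃ a ∈ s, x ∈ Proj.basicOpen 𝒜 a ∧
      η (thePt F) ∈ Proj.basicOpen 𝒜 a := by
    intro x
    have h1 : x ∈ ⨆ i : s, Proj.basicOpen 𝒜 i.1 := by rw [hcov]; trivial
    rw [TopologicalSpace.Opens.mem_iSup] at h1
    obtain ⟨a, ha⟩ := h1
    refine ⟨a.1, a.2, ha, ?_⟩
    rw [hη]
    exact ((genericPoint_spec (Proj 𝒜)).mem_open_set_iff (Proj.basicOpen 𝒜 a.1).isOpen).2
      ⟨x, trivial, ha⟩
  let ι : Type := {a : s // η (thePt F) ∈ Proj.basicOpen 𝒜 a.1}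
  have hι : ∀ a : ι, a.1.1 ∈ 𝒜 1 := fun a => hs _ a.1.2
  obtain ⟨a₀, ha₀s, ha₀x, ha₀⟩ := hcov' (genericPoint (Proj 𝒜))
  let i₀ : ι := ⟨⟨a₀, ha₀s⟩, ha₀⟩
  have hex : ∀ a : ι, ∃ ρ : Away 𝒜 a.1.1 →+* F,
      Spec.map (CommRingCat.ofHom ρ) ≫ Proj.awayι 𝒜 a.1.1 (hι a) one_pos = η := fun a =>
    factor_of_mem η (Proj.awayι 𝒜 a.1.1 (hι a) one_pos) (by
      rw [Proj.opensRange_awayι]
      exact a.2)
  choose ρ hρ using hex
  let y : ι → F := fun b => ρ i₀ (rat 𝒜 (hι i₀) (hι b))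
  have hy : ∀ b, y b ≠ 0 := fun b => (rho_ne_zero 𝒜 η (hι i₀) (hι b) (ρ i₀) (hρ i₀)).2 b.2
  have hquot : ∀ a b : ι, ρ a (rat 𝒜 (hι a) (hι b)) = y b / y a := by
    intro a b
    rw [eq_div_iff (hy a)]
    exact (rho_rat 𝒜 η (hι i₀) (hι b) (hι a) (ρ i₀) (hρ i₀) (ρ a) (hρ a)).symm
  -- the structure map
  have hK : ∀ (a : ι) (k : K), ρ a (algebraMap (𝒜 0) (Away 𝒜 a.1.1) (algebraMap K (𝒜 0) k)) =
      algebraMap K F k := by
    intro a k
    exact rho_struct 𝒜 η hηK (hι a) (ρ a) (hρ a) k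
  have hKS : ∀ (a : ι) (r : 𝒜 0), ∃ k : K, ρ a (algebraMap (𝒜 0) (Away 𝒜 a.1.1) r) =
      algebraMap K F k := by
    intro a r
    obtain ⟨q, hq⟩ := h0 r.1 r.2
    refine ⟨q, ?_⟩
    rw [← hK a q]
    congr 2
    exact Subtype.ext hq.symm
  have hrat : ∀ (a : ι) (b : s), ρ a (rat 𝒜 (hι a) (hs b.1 b.2)) ∈
      Algebra.adjoin K (Set.range fun j => y j / y a) := by
    intro a b
    by_cases hb : η (thePt F) ∈ Proj.basicOpen 𝒜 b.1
    · have h1 := hquot a ⟨b, hb⟩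
      have h2 : ρ a (rat 𝒜 (hι a) (hs b.1 b.2)) = y ⟨b, hb⟩ / y a := h1
      rw [h2]
      exact Algebra.subset_adjoin ⟨_, rfl⟩
    · have h1 : ρ a (rat 𝒜 (hι a) (hs b.1 b.2)) = 0 := by
        by_contra h
        exact hb ((rho_ne_zero 𝒜 η (hι a) (hs b.1 b.2) (ρ a) (hρ a)).1 h)
      rw [h1]
      exact Subalgebra.zero_mem _
  have hrange : ∀ a : ι, (ρ a).range =
      (Algebra.adjoin K (Set.range fun j => y j / y a)).toSubring := by
    intro a
    apply le_antisymm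
    · rintro _ ⟨z, rfl⟩
      have h1 := Away.adjoin_mk_prod_pow_eq_top (hι a) s (fun i : s => i.1) hadj (fun _ => 1)
        (fun i => hs i.1 i.2)
      have hz : z ∈ (⊤ : Subalgebra (𝒜 0) (Away 𝒜 a.1.1)) := trivial
      rw [← h1] at hz
      change ρ a z ∈ Algebra.adjoin K (Set.range fun j => y j / y a)
      induction hz using Algebra.adjoin_induction with
      | mem x hx =>
        obtain ⟨n, m, hm, -, rfl⟩ := hx
        rw [mk_prod 𝒜 (hι a) (fun i : s => i.1) (fun i => hs i.1 i.2) n m (by simpa using hm),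
          map_prod]
        refine Subalgebra.prod_mem _ fun i _ => ?_
        rw [map_pow]
        exact Subalgebra.pow_mem _ (hrat a i) _
      | algebraMap r =>
        obtain ⟨k, hk⟩ := hKS a r
        rw [hk]
        exact Subalgebra.algebraMap_mem _ _
      | add x y _ _ hx hy => rw [map_add]; exact Subalgebra.add_mem _ hx hy
      | mul x y _ _ hx hy => rw [map_mul]; exact Subalgebra.mul_mem _ hx hy
    · let S : Subalgebra K F := { (ρ a).range with algebraMap_mem' := fun k => ⟨_, hK a k⟩ }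
      have h1 : Algebra.adjoin K (Set.range fun j => y j / y a) ≤ S := by
        refine Algebra.adjoin_le ?_
        rintro _ ⟨b, rfl⟩
        exact ⟨_, hquot a b⟩
      exact h1
  refine ⟨ι, inferInstance, ⟨i₀⟩, y, hy, fun a => Proj.basicOpen 𝒜 a.1.1, ?_, ?_⟩
  · rw [eq_top_iff]
    intro x _
    obtain ⟨a, ha, hxa, hηa⟩ := hcov' x
    exact TopologicalSpace.Opens.mem_iSup.2 ⟨⟨⟨a, ha⟩, hηa⟩, hxa⟩
  · intro a
    have h1 := isChart_range η (Proj.awayι 𝒜 a.1.1 (hι a) one_pos) (ρ a) (hρ a)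
      (factor_inj η (Proj.awayι 𝒜 a.1.1 (hι a) one_pos) hη (ρ a) (hρ a)) (hrange a)
    rw [Proj.opensRange_awayι] at h1
    exact h1

end

end Pool.Agent.TH188.ARC
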