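import Pool.Agent.TH188.ARC.G4

/-!
# Models of an integral projective scheme along a trait
-/

set_option autoImplicit false
set_option linter.unusedVariables false
set_option linter.unusedSectionVars false

open AlgebraicGeometry CategoryTheory Limits Pointwise HomogeneousLocalization

namespace Pool.Agent.TH188.ARC

open Pool.Agent.H918R2.Quad Pool.Agent.H968R2.Quad Pool.Agent.W559.GF Pool.Agent.W930.GF
  Pool.Agent.W191.GF Pool.Agent.W418.LU2

/-- A field-valued point over the generic point. -/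
lemma exists_generic (P : Scheme.{0}) [IsIntegral P] :
    ∃ (F : Type) (_ : Field F) (η : Spec (CommRingCat.of F) ⟶ P),
      η (thePt F) = genericPoint P := by
  refine ⟨IsLocalRing.ResidueField (P.presheaf.stalk (genericPoint P)), inferInstance,
    P.fromSpecResidueField (genericPoint P), ?_⟩
  exact Scheme.fromSpecResidueField_apply (genericPoint P) _

/-- The model is flat. -/
lemma modelMap_flat {O F : Type} [CommRing O] [IsDedekindDomain O] [Field F] [Algebra O F]
    (hinj : Function.Injective (algebraMap O F)) (M : Submodule O F) (g : F) (hg : g ∈ M)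
    (hg0 : g ≠ 0) : Flat (modelMap M) := by
  let T : Type := {t : F // t ∈ M ∧ t ≠ 0}
  have hTne : Nonempty T := ⟨⟨g, hg, hg0⟩⟩
  have hA1 : AtlasAt (Pool.Agent.W398.GF.eta M g hg hg0)
      (fun t : T => (chart O M t.1).toSubring) := by
    refine modAt M hTne (fun t => t.1) (fun t => t.2.1) (fun t => t.2.2) (M : Set F)
      (Submodule.span_eq M) ?_ g hg hg0
    intro z hz
    refine ⟨0, ?_⟩
    rw [pow_zero, mul_one, zero_add, pow_one]
    by_cases h0 : z = 0
    · rw [h0]; exact Submodule.zero_mem _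
    · exact Submodule.subset_span ⟨⟨z, hz, h0⟩, rfl⟩
  exact Pool.Agent.W177.GF.flat O F hinj (model M) (modelMap M) T _
    (hA1.isAtlas (Pool.Agent.W398.GF.eta_modelMap M g hg hg0))

/-- Models of a regular integral projective scheme along a trait. -/
theorem proj_trait {O K : Type} [CommRing O] [IsDedekindDomain O] [Field K] [Algebra O K]
    [IsFractionRing O K] {X : Scheme.{0}} [IsIntegral X] (f : X ⟶ Spec (CommRingCat.of K))
    (hreg : ∀ x : X, IsRegularLocalRing (X.presheaf.stalk x))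
    {A : Type} [CommRing A] [Algebra K A] (𝒜 : ℕ → Submodule K A) [GradedAlgebra 𝒜]
    (h0 : ∀ a ∈ 𝒜 0, ∃ q : K, algebraMap K A q = a) (s : Finset A) (hs : ∀ a ∈ s, a ∈ 𝒜 1)
    (hgen : Algebra.adjoin K (s : Set A) = ⊤) (i : X ≅ Proj 𝒜)
    (hif : i.hom ≫ Proj.toSpecZero 𝒜 ≫ Spec.map (CommRingCat.ofHom (algebraMap K (𝒜 0))) = f)
    {L : Type} [Field L] [CharZero L] (VL : ValuationSubring L) [IsDiscreteValuationRing VL]
    (ψ : Spec (CommRingCat.of L) ⟶ X)
    (hOV : ∀ κ : K →+* L, ∀ o : O, κ (algebraMap O K o) ∈ VL) :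
    ∃ (F : Type) (_ : Field F) (_ : Algebra K F) (_ : Algebra O F) (_ : IsScalarTower O K F)
      (M : Submodule O F) (g : F) (hg : g ∈ M) (hg0 : g ≠ 0)
      (e : pullback (modelMap M) (Spec.map (CommRingCat.ofHom (algebraMap O K))) ≅ X)
      (ψ' : Spec (CommRingCat.of VL) ⟶ model M), M.FG ∧
      e.hom ≫ f = pullback.snd _ _ ∧
      Spec.map (CommRingCat.ofHom VL.subtype) ≫ ψ' = ψ ≫ e.inv ≫ pullback.fst _ _ ∧
      IsRegularLocalRing ((model M).presheaf.stalk (ψ' (IsLocalRing.closedPoint VL))) := by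
  classical
  have hPne : Nonempty (Proj 𝒜) := ⟨i.hom (genericPoint X)⟩
  have hP : IsIntegral (Proj 𝒜) := isIntegral_of_isOpenImmersion i.inv
  have hregP : ∀ x : (Proj 𝒜 : Scheme.{0}), IsRegularLocalRing ((Proj 𝒜).presheaf.stalk x) := by
    intro x
    have h1 := hreg (i.inv x)
    have e := (asIso (i.inv.stalkMap x)).commRingCatIsoToRingEquiv
    exact IsRegularLocalRing.of_ringEquiv e
  obtain ⟨F, hF, η, hη⟩ := exists_generic (Proj 𝒜)
  let fP : Proj 𝒜 ⟶ Spec (CommRingCat.of K) :=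
    Proj.toSpecZero 𝒜 ≫ Spec.map (CommRingCat.ofHom (algebraMap K (𝒜 0)))
  obtain ⟨φ, hφ⟩ := Spec.map_surjective (η ≫ fP)
  let _ : Algebra K F := φ.hom.toAlgebra
  have hηK : η ≫ fP = Spec.map (CommRingCat.ofHom (algebraMap K F)) := hφ.symm
  let _ : Algebra O F := ((algebraMap K F).comp (algebraMap O K)).toAlgebra
  have hst : IsScalarTower O K F := IsScalarTower.of_algebraMap_eq' rfl
  obtain ⟨ι, hι, hne, y, hy, hat⟩ := proj_atlas 𝒜 η h0 s hs hgen hη hηK
  have hsep : IsSeparated fP := inferInstance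
  obtain ⟨M, g, hg, hg0, e, ψ', hM, he, hψ', hr⟩ := trait_model (O := O) y hy hsep hregP hηK hat VL
    (ψ ≫ i.hom) (fun κ _ o => hOV κ o)
  refine ⟨F, hF, inferInstance, inferInstance, hst, M, g, hg, hg0, e ≪≫ i.symm, ψ', hM, ?_, ?_, hr⟩
  · rw [← he, ← hif]
    simp [fP]
  · rw [hψ']
    simp

end Pool.Agent.TH188.ARC
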