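import Pool.Agent.TH188.ARC.A15
import Pool.Agent.TH188.ARC.G5

/-!
# Regularity along the closure of a point
-/

set_option autoImplicit false
set_option linter.unusedVariables false
set_option linter.unusedSectionVars false

open AlgebraicGeometry CategoryTheory Limits Pointwise HomogeneousLocalization

namespace Pool.Agent.TH188.ARC

open Pool.Agent.H918R2.Quad Pool.Agent.H968R2.Quad Pool.Agent.W559.GF Pool.Agent.W930.GF
  Pool.Agent.W191.GF Pool.Agent.W418.LU2 Pool.Agent.TH188.QS

/-- The stalk of an open subscheme. -/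
lemma regular_via {Y : Scheme.{0}} {B : Type} [CommRing B] (j : Spec (CommRingCat.of B) ⟶ Y)
    [IsOpenImmersion j] (x : PrimeSpectrum B)
    (h : IsRegularLocalRing (Localization.AtPrime x.asIdeal)) :
    IsRegularLocalRing (Y.presheaf.stalk (j x)) := by
  have h2 := regular_stalk_spec (CommRingCat.of B) x h
  let x' : Spec (CommRingCat.of B) := x
  have e2 := (asIso (j.stalkMap x')).commRingCatIsoToRingEquiv
  exact IsRegularLocalRing.of_ringEquiv e2.symm

/-- The extension of a point to the chart of the centre. -/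
theorem extend_chart {O F : Type} [CommRing O] [Field F] [Algebra O F] {M : Submodule O F}
    {L : Type} [Field L] {A : Subring F} {π : A →+* L} {VL : ValuationSubring L}
    {V : ValuationSubring F} (hV : Tr A π VL V) {g : F}
    (hBV : (chart O M g).toSubring ≤ V.toSubring) (hBA : (chart O M g).toSubring ≤ A)
    (hlo : IsRegularLocalRing (lo V.toSubring (chart O M g).toSubring))
    (jY : Spec (CommRingCat.of (chart O M g).toSubring) ⟶ model M) [IsOpenImmersion jY] :
    ∃ ψ' : Spec (CommRingCat.of VL) ⟶ model M,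
      Spec.map (CommRingCat.ofHom VL.subtype) ≫ ψ' =
        Spec.map (CommRingCat.ofHom (π.comp (Subring.inclusion hBA))) ≫ jY ∧
      IsRegularLocalRing ((model M).presheaf.stalk (ψ' (IsLocalRing.closedPoint VL))) := by
  have hβ : ∀ b : (chart O M g).toSubring, π (Subring.inclusion hBA b) ∈ VL := fun b =>
    (hV.mem (Subring.inclusion hBA b)).1 (hBV b.2)
  let β : (chart O M g).toSubring →+* VL :=
    (π.comp (Subring.inclusion hBA)).codRestrict VL.toSubring hβ
  refine ⟨Spec.map (CommRingCat.ofHom β) ≫ jY, ?_, ?_⟩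
  · rw [← Category.assoc, ← Spec.map_comp]
    rfl
  · obtain ⟨P, hP, hPm, hPreg⟩ := regular_centre' hBV hlo
    let x : PrimeSpectrum (CommRingCat.of (chart O M g).toSubring) :=
      (Spec.map (CommRingCat.ofHom β)) (IsLocalRing.closedPoint VL)
    have hx : x.asIdeal = P := by
      ext b
      rw [hPm]
      have h1 : b ∈ x.asIdeal ↔ β b ∈ IsLocalRing.maximalIdeal VL := Iff.rfl
      have h2 := hV.lt (Subring.inclusion hBA b)
      rw [h1]
      have h3 : β b ∈ IsLocalRing.maximalIdeal VL ↔ VL.valuation (β b : L) < 1 :=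
        (VL.valuation_lt_one_iff (β b))
      rw [h3]
      exact h2.symm
    have hxreg : IsRegularLocalRing (Localization.AtPrime x.asIdeal) := by
      subst hx
      exact hPreg
    exact regular_via jY x hxreg

theorem regular_closure {O F : Type} [CommRing O] [IsDomain O] [IsRegularRing O] [Field F]
    [Algebra O F]
    (hOF : Function.Injective (algebraMap O F)) {M₀ : Submodule O F} {D : ℕ} {M : Submodule O F}
    (hM : Inv M₀ D M) {L : Type} [Field L] [NumberField L] (hint : ∀ o : O, IsIntegral ℤ o)
    {A : Subring F} {π : A →+* L} {y₀ : F}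
    (h : Pt M₀ A π y₀) {Vf : ValuationSubring L → ValuationSubring F}
    (hVf : ∀ VL, Tr A π VL (Vf VL))
    (hR : ∀ VL : ValuationSubring L, IsDiscreteValuationRing VL → Rg (Vf VL) M)
    (χ : Spec (CommRingCat.of L) ⟶ model M)
    (hχ : ∀ (g : F) (hg : g ∈ M) (hg0 : g ≠ 0) (hBA : (chart O M g).toSubring ≤ A)
      (jY : Spec (CommRingCat.of (chart O M g).toSubring) ⟶ model M),
      Spec.map (CommRingCat.ofHom (chart O M g).toSubring.subtype) ≫ jY =
        Pool.Agent.W398.GF.eta M g hg hg0 →
      χ = Spec.map (CommRingCat.ofHom (π.comp (Subring.inclusion hBA))) ≫ jY)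
    (z : model M) (hz : χ (thePt L) ⤳ z) :
    IsRegularLocalRing ((model M).presheaf.stalk z) := by
  classical
  have hpM : IsProper (modelMap M) := modelMap_isProper M hOF hM.fg
  have hOV : ∀ (VL : ValuationSubring L) (o : O), algebraMap O F o ∈ Vf VL := fun VL o =>
    ((hVf VL).mem ⟨_, h.OA o⟩).2 (map_mem_val hint
      (π.comp ((algebraMap O F).codRestrict A h.OA)) VL o)
  -- the local homomorphism
  let φ : (model M).presheaf.stalk z ⟶ CommRingCat.of L :=
    (model M).presheaf.stalkSpecializes hz ≫ Scheme.stalkClosedPointTo χ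
  have hφ : Spec.map φ ≫ (model M).fromSpecStalk z = χ := by
    rw [Spec.map_comp, Category.assoc, Scheme.SpecMap_stalkSpecializes_fromSpecStalk]
    exact Scheme.Spec_stalkClosedPointTo_fromSpecStalk χ
  obtain ⟨V, hφV, hloc⟩ := IsLocalRing.exists_factor_valuationRing φ.hom
  let ζ : Spec (CommRingCat.of V) ⟶ model M :=
    Spec.map (CommRingCat.ofHom (φ.hom.codRestrict V.toSubring hφV)) ≫
      (model M).fromSpecStalk z
  have hζ : Spec.map (CommRingCat.ofHom V.subtype) ≫ ζ = χ := by
    rw [← hφ]
    change Spec.map _ ≫ Spec.map _ ≫ _ = _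
    rw [← Category.assoc, ← Spec.map_comp]
    rfl
  have hζz : ζ (IsLocalRing.closedPoint V) = z := by
    change (model M).fromSpecStalk z ((Spec.map (CommRingCat.ofHom
      (φ.hom.codRestrict V.toSubring hφV))) (IsLocalRing.closedPoint V)) = z
    have h1 : (Spec.map (CommRingCat.ofHom (φ.hom.codRestrict V.toSubring hφV)))
        (IsLocalRing.closedPoint V) =
        IsLocalRing.closedPoint ((model M).presheaf.stalk z) :=
      IsLocalRing.comap_closedPoint (S := V) (φ.hom.codRestrict V.toSubring hφV)
    rw [h1, (model M).fromSpecStalk_closedPoint]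
  by_cases hVt : V = ⊤
  · -- the point itself
    obtain ⟨g₀, hg₀, hg₀0⟩ := hM.ne
    obtain ⟨g, hg, hg0, hMV⟩ := exists_gen_max (hOV ⊤) hM.fg hg₀ hg₀0
    obtain ⟨hMA, hfr⟩ := frac_chart (hVf ⊤) h.OA h.OL h.mem h.ne h.MA h.fr hM.pos hM.le hM.comm
      hg hg0 hMV
    have hBA := chart_le_A h.OA hMA
    obtain ⟨jY, hjY, hjYU, hjYη⟩ := Pool.Agent.W398.GF.isChart M g hg hg0
    have h1 := hχ g hg hg0 hBA jY hjYη
    have hker : (RingHom.ker (π.comp (Subring.inclusion hBA))).IsPrime := RingHom.ker_isPrime _
    have h2 := ker_regular h.reg h.unit hBA hfr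
    -- the point `z` is the image of the closed point
    have h3 : z = χ (thePt L) := by
      rw [← hζz, ← hζ]
      have h5 : (Spec.map (CommRingCat.ofHom V.subtype)) (thePt L) =
          (IsLocalRing.closedPoint V : PrimeSpectrum V) := by
        apply PrimeSpectrum.ext
        ext b
        have h6 : b ∈ PrimeSpectrum.asIdeal (R := V)
            ((Spec.map (CommRingCat.ofHom V.subtype)) (thePt L)) ↔
            (b : L) ∈ IsLocalRing.maximalIdeal L := Iff.rfl
        rw [h6, IsLocalRing.maximalIdeal_eq_bot, Ideal.mem_bot]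
        change (b : L) = 0 ↔ b ∈ IsLocalRing.maximalIdeal V
        rw [V.valuation_lt_one_iff]
        constructor
        · intro hb
          rw [hb, map_zero]
          exact zero_lt_one
        · intro hb
          by_contra hb0
          rw [val_lt_iff hb0] at hb
          have h7 : ∀ w : L, w ∈ V := fun w => by rw [hVt]; trivial
          exact hb (h7 _)
      change ζ _ = ζ ((Spec.map (CommRingCat.ofHom V.subtype)) (thePt L))
      rw [h5]
    rw [h3, h1]
    let x : PrimeSpectrum (chart O M g).toSubring :=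
      (Spec.map (CommRingCat.ofHom (π.comp (Subring.inclusion hBA)))) (thePt L)
    have hx : x.asIdeal = RingHom.ker (π.comp (Subring.inclusion hBA)) := by
      ext b
      have h6 : b ∈ x.asIdeal ↔ π.comp (Subring.inclusion hBA) b ∈ IsLocalRing.maximalIdeal L :=
        Iff.rfl
      rw [h6, IsLocalRing.maximalIdeal_eq_bot, Ideal.mem_bot, RingHom.mem_ker]
    have hxreg : IsRegularLocalRing (Localization.AtPrime x.asIdeal) := by
      have : ∀ (Q : Ideal (chart O M g).toSubring) [Q.IsPrime],
          Q = RingHom.ker (π.comp (Subring.inclusion hBA)) →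
          IsRegularLocalRing (Localization.AtPrime Q) := by
        intro Q _ hQ
        subst hQ
        exact h2
      exact this _ hx
    exact regular_via jY x hxreg
  · have hVd := dvr_of_ne_top V hVt
    obtain ⟨g, hg, hg0, hMV, hreg⟩ := hR V hVd
    obtain ⟨hMA, hfr⟩ := frac_chart (hVf V) h.OA h.OL h.mem h.ne h.MA h.fr hM.pos hM.le hM.comm
      hg hg0 hMV
    have hBA := chart_le_A h.OA hMA
    obtain ⟨jY, hjY, hjYU, hjYη⟩ := Pool.Agent.W398.GF.isChart M g hg hg0
    have h1 := hχ g hg hg0 hBA jY hjYη
    obtain ⟨ψ', hψ', hr⟩ := extend_chart (hVf V) (chart_le_V (hOV V) hMV) hBA hreg jY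
    rw [← h1] at hψ'
    have hζψ : ζ = ψ' := by
      have hd : IsDominant (io V.toSubring) := ⟨io_dense V.toSubring⟩
      have h2 : io V.toSubring ≫ ζ = io V.toSubring ≫ ψ' := hζ.trans hψ'.symm
      refine ext_of_isDominant_of_isSeparated (modelMap M) ?_ (io V.toSubring) h2
      apply io_mono V.toSubring
      have h3 := congrArg (fun m => m ≫ modelMap M) h2
      simp only [Category.assoc] at h3
      exact h3
    rw [← hζz, hζψ]
    exact hr

end Pool.Agent.TH188.ARC
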