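import Pool.Agent.TH188.ARC.G7

/-!
# Models which are regular along the closures of finitely many closed points
-/

set_option autoImplicit false
set_option linter.unusedVariables false
set_option linter.unusedSectionVars false

open AlgebraicGeometry CategoryTheory Limits Pointwise HomogeneousLocalization

namespace Pool.Agent.TH188.ARC

open Pool.Agent.H918R2.Quad Pool.Agent.H968R2.Quad Pool.Agent.W559.GF Pool.Agent.W930.GF
  Pool.Agent.W191.GF Pool.Agent.W418.LU2 Pool.Agent.TH188.QS

section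

variable {O K F : Type} [CommRing O] [IsDedekindDomain O] [Field K] [NumberField K] [Algebra O K]
  [IsFractionRing O K] [Field F] [Algebra K F] [Algebra O F] [IsScalarTower O K F]

/-- The data attached to a closed point. -/
theorem point_data {ι : Type} [Fintype ι] (y : ι → F) (hy : ∀ i, y i ≠ 0)
    {X : Scheme.{0}} {f : X ⟶ Spec (CommRingCat.of K)}
    (hreg : ∀ x : X, IsRegularLocalRing (X.presheaf.stalk x))
    {η : Spec (CommRingCat.of F) ⟶ X}
    (hX : AtlasAt η (fun i => (Algebra.adjoin K (Set.range fun j => y j / y i)).toSubring))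
    (x : X) (hx : IsClosed ({x} : Set X)) :
    ∃ (L : Type) (_ : Field L) (_ : NumberField L) (A : Subring F) (π : A →+* L) (y₀ : F)
      (Vf : ValuationSubring L → ValuationSubring F) (sX : Spec (CommRingCat.of A) ⟶ X),
      Pt (Submodule.span O (Set.range y)) A π y₀ ∧ (∀ VL, Tr A π VL (Vf VL)) ∧
      io A ≫ sX = η ∧ sX ((Spec.map (CommRingCat.ofHom π)) (thePt L)) = x := by
  classical
  obtain ⟨j, hj, hjη, hcov⟩ := hX.charts
  obtain ⟨i₀, p, hp⟩ := hcov x
  have hji := hj i₀
  let C : Subalgebra K F := Algebra.adjoin K (Set.range fun j => y j / y i₀)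
  let q : PrimeSpectrum C := p
  have hpc : IsClosed ({q} : Set (PrimeSpectrum C)) := by
    have h1 : ({p} : Set (Spec (CommRingCat.of C.toSubring))) = (j i₀) ⁻¹' {x} := by
      ext z
      simp only [Set.mem_singleton_iff, Set.mem_preimage]
      constructor
      · intro h; rw [h]; exact hp
      · intro h; exact (j i₀).isOpenEmbedding.injective (h.trans hp.symm)
    have h2 : IsClosed ({p} : Set (Spec (CommRingCat.of C.toSubring))) := by
      rw [h1]
      exact hx.preimage (j i₀).continuous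
    exact h2
  have hmax : q.asIdeal.IsMaximal := (PrimeSpectrum.isClosed_singleton_iff_isMaximal q).1 hpc
  let L : Type := C ⧸ q.asIdeal
  let iF : Field L := Ideal.Quotient.field q.asIdeal
  have hft : Algebra.FiniteType K C :=
    (Subalgebra.fg_iff_finiteType _).1 (Subalgebra.fg_def.2 ⟨_, Set.finite_range _, rfl⟩)
  have hftL : Algebra.FiniteType K L :=
    Algebra.FiniteType.of_surjective (Ideal.Quotient.mkₐ K q.asIdeal)
      (Ideal.Quotient.mkₐ_surjective K q.asIdeal)
  have hfinK : Module.Finite K L := finite_of_finite_type_of_isJacobsonRing K L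
  have hcz : CharZero L := charZero_of_injective_ringHom (algebraMap K L).injective
  have hNF : NumberField L := by
    have h1 : Module.Finite ℚ K := NumberField.to_finiteDimensional
    have h2 : IsScalarTower ℚ K L := inferInstance
    exact { to_charZero := hcz, to_finiteDimensional := Module.Finite.trans K L }
  let α : C.toSubring →+* L := Ideal.Quotient.mk q.asIdeal
  have hkp : (RingHom.ker α).IsPrime := RingHom.ker_isPrime _
  have hreg' : IsRegularLocalRing (Localization.AtPrime (RingHom.ker α)) :=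
    regular_of_stalk hreg (j i₀) (RingHom.ker α)
  obtain ⟨A, π, hA, hπα, hPt⟩ := pt_of (O := O) (K := K) y hy i₀ α hreg'
  choose Vf hVf using fun VL => exists_tr A π VL hPt.unit
  refine ⟨L, iF, hNF, A, π, y i₀, Vf,
    Spec.map (CommRingCat.ofHom (Subring.inclusion hA)) ≫ j i₀, hPt, hVf, ?_, ?_⟩
  · rw [← Category.assoc, ← hjη i₀]
    congr 1
    change Spec.map _ ≫ Spec.map _ = Spec.map _
    rw [← Spec.map_comp]
    rfl
  · change (j i₀) ((Spec.map (CommRingCat.ofHom (Subring.inclusion hA)))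
      ((Spec.map (CommRingCat.ofHom π)) (thePt L))) = x
    rw [← hp]
    congr 1
    apply PrimeSpectrum.ext
    ext b
    have h1 : b ∈ PrimeSpectrum.asIdeal (R := C.toSubring)
        ((Spec.map (CommRingCat.ofHom (Subring.inclusion hA)))
          ((Spec.map (CommRingCat.ofHom π)) (thePt L))) ↔
        π (Subring.inclusion hA b) ∈ IsLocalRing.maximalIdeal L := Iff.rfl
    have h2 : π (Subring.inclusion hA b) = α b := hπα b
    rw [h1, h2, IsLocalRing.maximalIdeal_eq_bot, Ideal.mem_bot]
    exact Ideal.Quotient.eq_zero_iff_mem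

theorem points_model (hint : ∀ o : O, IsIntegral ℤ o) {ι : Type} [Fintype ι] [Nonempty ι]
    (y : ι → F) (hy : ∀ i, y i ≠ 0)
    {X : Scheme.{0}} {f : X ⟶ Spec (CommRingCat.of K)} (hsep : IsSeparated f)
    (hreg : ∀ x : X, IsRegularLocalRing (X.presheaf.stalk x))
    {η : Spec (CommRingCat.of F) ⟶ X}
    (hη : η ≫ f = Spec.map (CommRingCat.ofHom (algebraMap K F)))
    (hX : AtlasAt η (fun i => (Algebra.adjoin K (Set.range fun j => y j / y i)).toSubring))
    (S : Set X) (hS : S.Finite) (hcl : ∀ x ∈ S, IsClosed ({x} : Set X)) :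
    ∃ (M : Submodule O F) (g : F) (hg : g ∈ M) (hg0 : g ≠ 0)
      (e : pullback (modelMap M) (Spec.map (CommRingCat.ofHom (algebraMap O K))) ≅ X), M.FG ∧
      e.hom ≫ f = pullback.snd _ _ ∧
      ∀ x ∈ S, ∀ z, (e.inv ≫ pullback.fst _ _) x ⤳ z →
        IsRegularLocalRing ((model M).presheaf.stalk z) := by
  classical
  have hOK : Function.Injective (algebraMap O K) := IsFractionRing.injective O K
  have hOF : Function.Injective (algebraMap O F) := by
    rw [IsScalarTower.algebraMap_eq O K F]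
    exact (algebraMap K F).injective.comp hOK
  have hT : Finite S := hS
  choose L iF iN A π y₀ Vf sX hPt hVf hsη hsx using fun x : S =>
    point_data (O := O) y hy (f := f) hreg hX x.1 (hcl x.1 x.2)
  have hM₀ : (Submodule.span O (Set.range y)).FG := ⟨Finset.univ.image y, by
    rw [Finset.coe_image, Finset.coe_univ, Set.image_univ]⟩
  obtain ⟨i₀⟩ := ‹Nonempty ι›
  have hne : Nonempty ι := ⟨i₀⟩
  obtain ⟨D, M, hM, hall⟩ := points_module hint hM₀
    ⟨y i₀, Submodule.subset_span ⟨i₀, rfl⟩, hy i₀⟩ L A π y₀ hPt Vf hVf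
  obtain ⟨g, hg, hg0⟩ := hM.ne
  obtain ⟨e, he, heη⟩ := mainAt y hy hM.pos hM.fg hM.le hM.comm hsep hη hX g hg hg0
  have hpM : IsProper (modelMap M) := modelMap_isProper M hOF hM.fg
  refine ⟨M, g, hg, hg0, e, hM.fg, he, ?_⟩
  intro x hx z hz
  let t : S := ⟨x, hx⟩
  let χ : Spec (CommRingCat.of (L t)) ⟶ model M :=
    Spec.map (CommRingCat.ofHom (π t)) ≫ sX t ≫ e.inv ≫ pullback.fst _ _
  have hχx : χ (thePt (L t)) = (e.inv ≫ pullback.fst _ _) x := by
    have h1 := hsx t
    change (e.inv ≫ pullback.fst _ _) (sX t ((Spec.map (CommRingCat.ofHom (π t)))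
      (thePt (L t)))) = _
    rw [h1]
  refine regular_closure hOF hM hint (hPt t) (hVf t) (hall t) χ ?_ z (by rw [hχx]; exact hz)
  intro g₁ hg₁ hg₁0 hBA jY hjYη
  have hss : sX t ≫ e.inv ≫ pullback.fst _ _ =
      Spec.map (CommRingCat.ofHom (Subring.inclusion hBA)) ≫ jY := by
    have hd : IsDominant (io (A t)) := ⟨io_dense (A t)⟩
    have h1 : io (A t) ≫ sX t ≫ e.inv ≫ pullback.fst _ _ =
        io (A t) ≫ Spec.map (CommRingCat.ofHom (Subring.inclusion hBA)) ≫ jY := by
      have h2 : io (A t) ≫ Spec.map (CommRingCat.ofHom (Subring.inclusion hBA)) ≫ jY =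
          Pool.Agent.W398.GF.eta M g₁ hg₁ hg₁0 := by
        rw [← Category.assoc, ← hjYη]
        congr 1
        change Spec.map _ ≫ Spec.map _ = Spec.map _
        rw [← Spec.map_comp]
        rfl
      rw [h2, ← Category.assoc, hsη t, heη]
      exact Pool.Agent.W398.GF.eta_eq M hg hg₁ hg0 hg₁0
    refine ext_of_isDominant_of_isSeparated (modelMap M) ?_ (io (A t)) h1
    apply io_mono
    have h2 := congrArg (fun m => m ≫ modelMap M) h1
    simp only [Category.assoc] at h2 ⊢
    exact h2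
  change Spec.map _ ≫ sX t ≫ e.inv ≫ pullback.fst _ _ = _
  rw [hss, ← Category.assoc, ← Spec.map_comp]
  rfl

end

/-- Models of a regular integral projective scheme, regular along the closures of finitely many
closed points. -/
theorem proj_points {O K : Type} [CommRing O] [IsDedekindDomain O] [Field K] [NumberField K]
    [Algebra O K] [IsFractionRing O K] (hint : ∀ o : O, IsIntegral ℤ o)
    {X : Scheme.{0}} [IsIntegral X] (f : X ⟶ Spec (CommRingCat.of K))
    (hreg : ∀ x : X, IsRegularLocalRing (X.presheaf.stalk x))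
    {A : Type} [CommRing A] [Algebra K A] (𝒜 : ℕ → Submodule K A) [GradedAlgebra 𝒜]
    (h0 : ∀ a ∈ 𝒜 0, ∃ q : K, algebraMap K A q = a) (s : Finset A) (hs : ∀ a ∈ s, a ∈ 𝒜 1)
    (hgen : Algebra.adjoin K (s : Set A) = ⊤) (i : X ≅ Proj 𝒜)
    (hif : i.hom ≫ Proj.toSpecZero 𝒜 ≫ Spec.map (CommRingCat.ofHom (algebraMap K (𝒜 0))) = f)
    (S : Set X) (hS : S.Finite) (hcl : ∀ x ∈ S, IsClosed ({x} : Set X)) :
    ∃ (F : Type) (_ : Field F) (_ : Algebra K F) (_ : Algebra O F) (_ : IsScalarTower O K F)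
      (M : Submodule O F) (g : F) (hg : g ∈ M) (hg0 : g ≠ 0)
      (e : pullback (modelMap M) (Spec.map (CommRingCat.ofHom (algebraMap O K))) ≅ X), M.FG ∧
      e.hom ≫ f = pullback.snd _ _ ∧
      ∀ x ∈ S, ∀ z, (e.inv ≫ pullback.fst _ _) x ⤳ z →
        IsRegularLocalRing ((model M).presheaf.stalk z) := by
  classical
  have hPne : Nonempty (Proj 𝒜) := ⟨i.hom (genericPoint X)⟩
  have hP : IsIntegral (Proj 𝒜) := isIntegral_of_isOpenImmersion i.inv
  have hregP : ∀ x : (Proj 𝒜 : Scheme.{0}), IsRegularLocalRing ((Proj 𝒜).presheaf.stalk x) := by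
    intro x
    have h1 := hreg (i.inv x)
    have e := (asIso (i.inv.stalkMap x)).commRingCatIsoToRingEquiv
    exact IsRegularLocalRing.of_ringEquiv e
  obtain ⟨F, hF, η, hη⟩ := exists_generic (Proj 𝒜)
  let fP : Proj 𝒜 ⟶ Spec (CommRingCat.of K) :=
    Proj.toSpecZero 𝒜 ≫ Spec.map (CommRingCat.ofHom (algebraMap K (𝒜 0)))
  obtain ⟨φ, hφ⟩ := Spec.map_surjective (η ≫ fP)
  let _ : Algebra K F := φ.hom.toAlgebra
  have hηK : η ≫ fP = Spec.map (CommRingCat.ofHom (algebraMap K F)) := hφ.symm
  let _ : Algebra O F := ((algebraMap K F).comp (algebraMap O K)).toAlgebra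
  have hst : IsScalarTower O K F := IsScalarTower.of_algebraMap_eq' rfl
  obtain ⟨ι, hι, hne, y, hy, hat⟩ := proj_atlas 𝒜 η h0 s hs hgen hη hηK
  have hsep : IsSeparated fP := inferInstance
  have hii : ∀ x : X, i.inv (i.hom x) = x := fun x => by
    have h1 : (i.hom ≫ i.inv) x = (𝟙 X : X ⟶ X) x := by rw [i.hom_inv_id]
    exact h1
  have hii' : ∀ x : (Proj 𝒜 : Scheme.{0}), i.hom (i.inv x) = x := fun x => by
    have h1 : (i.inv ≫ i.hom) x = (𝟙 (Proj 𝒜) : Proj 𝒜 ⟶ Proj 𝒜) x := by rw [i.inv_hom_id]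
    exact h1
  obtain ⟨M, g, hg, hg0, e, hM, he, hall⟩ := points_model (O := O) hint y hy hsep hregP hηK hat
    (i.hom '' S) (hS.image _) (by
      rintro _ ⟨x, hx, rfl⟩
      have h1 : ({i.hom x} : Set (Proj 𝒜 : Scheme.{0})) = i.inv ⁻¹' {x} := by
        ext z
        simp only [Set.mem_singleton_iff, Set.mem_preimage]
        constructor
        · intro h; rw [h, hii]
        · intro h; rw [← h, hii']
      rw [h1]
      exact (hcl x hx).preimage i.inv.continuous)
  refine ⟨F, hF, inferInstance, inferInstance, hst, M, g, hg, hg0, e ≪≫ i.symm, hM, ?_, ?_⟩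
  · rw [← hif]
    change (e.hom ≫ i.inv) ≫ i.hom ≫ fP = _
    rw [← he]
    simp
  · intro x hx z hz
    refine hall (i.hom x) ⟨x, hx, rfl⟩ z ?_
    exact hz

end Pool.Agent.TH188.ARC
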