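import Pool.Agent.TH188.ARC.A21
import Pool.Agent.TH188.ARC.G8

/-!
# Models which are regular along the closures of all the points of bounded degree
-/

set_option autoImplicit false
set_option linter.unusedVariables false
set_option linter.unusedSectionVars false

open AlgebraicGeometry CategoryTheory Limits Pointwise HomogeneousLocalization

namespace Pool.Agent.TH188.ARC

open Pool.Agent.H918R2.Quad Pool.Agent.H968R2.Quad Pool.Agent.W559.GF Pool.Agent.W930.GF
  Pool.Agent.W191.GF Pool.Agent.W418.LU2 Pool.Agent.TH188.QS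

theorem regular_closure_cm {O F : Type} [CommRing O] [IsDomain O] [IsRegularRing O] [Field F]
    [Algebra O F]
    (hOF : Function.Injective (algebraMap O F)) {M₀ : Submodule O F} {D : ℕ} {M : Submodule O F}
    (hM : Cm M₀ D M) {L : Type} [Field L] [NumberField L] (hint : ∀ o : O, IsIntegral ℤ o)
    {A : Subring F} {π : A →+* L} {y₀ : F}
    (h : Pt M₀ A π y₀) {Vf : ValuationSubring L → ValuationSubring F}
    (hVf : ∀ VL, Tr A π VL (Vf VL))
    (hR : ∀ VL : ValuationSubring L, IsDiscreteValuationRing VL → Rg (Vf VL) M)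
    (χ : Spec (CommRingCat.of L) ⟶ model M)
    (hχ : ∀ (g : F) (hg : g ∈ M) (hg0 : g ≠ 0) (hBA : (chart O M g).toSubring ≤ A)
      (jY : Spec (CommRingCat.of (chart O M g).toSubring) ⟶ model M),
      Spec.map (CommRingCat.ofHom (chart O M g).toSubring.subtype) ≫ jY =
        Pool.Agent.W398.GF.eta M g hg hg0 →
      χ = Spec.map (CommRingCat.ofHom (π.comp (Subring.inclusion hBA))) ≫ jY)
    (z : model M) (hz : χ (thePt L) ⤳ z) :
    IsRegularLocalRing ((model M).presheaf.stalk z) := by
  classical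
  have hpM : IsProper (modelMap M) := modelMap_isProper M hOF hM.fg
  have hOV : ∀ (VL : ValuationSubring L) (o : O), algebraMap O F o ∈ Vf VL := fun VL o =>
    ((hVf VL).mem ⟨_, h.OA o⟩).2 (map_mem_val hint
      (π.comp ((algebraMap O F).codRestrict A h.OA)) VL o)
  -- the local homomorphism
  let φ : (model M).presheaf.stalk z ⟶ CommRingCat.of L :=
    (model M).presheaf.stalkSpecializes hz ≫ Scheme.stalkClosedPointTo χ
  have hφ : Spec.map φ ≫ (model M).fromSpecStalk z = χ := by
    rw [Spec.map_comp, Category.assoc, Scheme.SpecMap_stalkSpecializes_fromSpecStalk]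
    exact Scheme.Spec_stalkClosedPointTo_fromSpecStalk χ
  obtain ⟨V, hφV, hloc⟩ := IsLocalRing.exists_factor_valuationRing φ.hom
  let ζ : Spec (CommRingCat.of V) ⟶ model M :=
    Spec.map (CommRingCat.ofHom (φ.hom.codRestrict V.toSubring hφV)) ≫
      (model M).fromSpecStalk z
  have hζ : Spec.map (CommRingCat.ofHom V.subtype) ≫ ζ = χ := by
    rw [← hφ]
    change Spec.map _ ≫ Spec.map _ ≫ _ = _
    rw [← Category.assoc, ← Spec.map_comp]
    rfl
  have hζz : ζ (IsLocalRing.closedPoint V) = z := by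
    change (model M).fromSpecStalk z ((Spec.map (CommRingCat.ofHom
      (φ.hom.codRestrict V.toSubring hφV))) (IsLocalRing.closedPoint V)) = z
    have h1 : (Spec.map (CommRingCat.ofHom (φ.hom.codRestrict V.toSubring hφV)))
        (IsLocalRing.closedPoint V) =
        IsLocalRing.closedPoint ((model M).presheaf.stalk z) :=
      IsLocalRing.comap_closedPoint (S := V) (φ.hom.codRestrict V.toSubring hφV)
    rw [h1, (model M).fromSpecStalk_closedPoint]
  by_cases hVt : V = ⊤
  · -- the point itself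
    obtain ⟨g₀, hg₀, hg₀0⟩ := hM.ne
    obtain ⟨g, hg, hg0, hMV⟩ := exists_gen_max (hOV ⊤) hM.fg hg₀ hg₀0
    obtain ⟨hMA, hfr⟩ := frac_chart (hVf ⊤) h.OA h.OL h.mem h.ne h.MA h.fr hM.pos hM.le hM.comm
      hg hg0 hMV
    have hBA := chart_le_A h.OA hMA
    obtain ⟨jY, hjY, hjYU, hjYη⟩ := Pool.Agent.W398.GF.isChart M g hg hg0
    have h1 := hχ g hg hg0 hBA jY hjYη
    have hker : (RingHom.ker (π.comp (Subring.inclusion hBA))).IsPrime := RingHom.ker_isPrime _
    have h2 := ker_regular h.reg h.unit hBA hfr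
    -- the point `z` is the image of the closed point
    have h3 : z = χ (thePt L) := by
      rw [← hζz, ← hζ]
      have h5 : (Spec.map (CommRingCat.ofHom V.subtype)) (thePt L) =
          (IsLocalRing.closedPoint V : PrimeSpectrum V) := by
        apply PrimeSpectrum.ext
        ext b
        have h6 : b ∈ PrimeSpectrum.asIdeal (R := V)
            ((Spec.map (CommRingCat.ofHom V.subtype)) (thePt L)) ↔
            (b : L) ∈ IsLocalRing.maximalIdeal L := Iff.rfl
        rw [h6, IsLocalRing.maximalIdeal_eq_bot, Ideal.mem_bot]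
        change (b : L) = 0 ↔ b ∈ IsLocalRing.maximalIdeal V
        rw [V.valuation_lt_one_iff]
        constructor
        · intro hb
          rw [hb, map_zero]
          exact zero_lt_one
        · intro hb
          by_contra hb0
          rw [val_lt_iff hb0] at hb
          have h7 : ∀ w : L, w ∈ V := fun w => by rw [hVt]; trivial
          exact hb (h7 _)
      change ζ _ = ζ ((Spec.map (CommRingCat.ofHom V.subtype)) (thePt L))
      rw [h5]
    rw [h3, h1]
    let x : PrimeSpectrum (chart O M g).toSubring :=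
      (Spec.map (CommRingCat.ofHom (π.comp (Subring.inclusion hBA)))) (thePt L)
    have hx : x.asIdeal = RingHom.ker (π.comp (Subring.inclusion hBA)) := by
      ext b
      have h6 : b ∈ x.asIdeal ↔ π.comp (Subring.inclusion hBA) b ∈ IsLocalRing.maximalIdeal L :=
        Iff.rfl
      rw [h6, IsLocalRing.maximalIdeal_eq_bot, Ideal.mem_bot, RingHom.mem_ker]
    have hxreg : IsRegularLocalRing (Localization.AtPrime x.asIdeal) := by
      have : ∀ (Q : Ideal (chart O M g).toSubring) [Q.IsPrime],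
          Q = RingHom.ker (π.comp (Subring.inclusion hBA)) →
          IsRegularLocalRing (Localization.AtPrime Q) := by
        intro Q _ hQ
        subst hQ
        exact h2
      exact this _ hx
    exact regular_via jY x hxreg
  · have hVd := dvr_of_ne_top V hVt
    obtain ⟨g, hg, hg0, hMV, hreg⟩ := hR V hVd
    obtain ⟨hMA, hfr⟩ := frac_chart (hVf V) h.OA h.OL h.mem h.ne h.MA h.fr hM.pos hM.le hM.comm
      hg hg0 hMV
    have hBA := chart_le_A h.OA hMA
    obtain ⟨jY, hjY, hjYU, hjYη⟩ := Pool.Agent.W398.GF.isChart M g hg hg0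
    have h1 := hχ g hg hg0 hBA jY hjYη
    obtain ⟨ψ', hψ', hr⟩ := extend_chart (hVf V) (chart_le_V (hOV V) hMV) hBA hreg jY
    rw [← h1] at hψ'
    have hζψ : ζ = ψ' := by
      have hd : IsDominant (io V.toSubring) := ⟨io_dense V.toSubring⟩
      have h2 : io V.toSubring ≫ ζ = io V.toSubring ≫ ψ' := hζ.trans hψ'.symm
      refine ext_of_isDominant_of_isSeparated (modelMap M) ?_ (io V.toSubring) h2
      apply io_mono V.toSubring
      have h3 := congrArg (fun m => m ≫ modelMap M) h2
      simp only [Category.assoc] at h3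
      exact h3
    rw [← hζz, hζψ]
    exact hr

section

variable {O K F : Type} [CommRing O] [IsDedekindDomain O] [Field K] [NumberField K] [Algebra O K]
  [IsFractionRing O K] [Field F] [Algebra K F] [Algebra O F] [IsScalarTower O K F]

theorem degree_model [Module.Finite ℤ O] (hint : ∀ o : O, IsIntegral ℤ o) {ι : Type} [Fintype ι]
    [Nonempty ι] (y : ι → F) (hy : ∀ i, y i ≠ 0)
    {X : Scheme.{0}} {f : X ⟶ Spec (CommRingCat.of K)} (hsep : IsSeparated f)
    (hreg : ∀ x : X, IsRegularLocalRing (X.presheaf.stalk x))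
    {η : Spec (CommRingCat.of F) ⟶ X}
    (hη : η ≫ f = Spec.map (CommRingCat.ofHom (algebraMap K F)))
    (hX : AtlasAt η (fun i => (Algebra.adjoin K (Set.range fun j => y j / y i)).toSubring))
    (d : ℕ) :
    ∃ (M : Submodule O F) (g : F) (hg : g ∈ M) (hg0 : g ≠ 0)
      (e : pullback (modelMap M) (Spec.map (CommRingCat.ofHom (algebraMap O K))) ≅ X), M.FG ∧
      e.hom ≫ f = pullback.snd _ _ ∧
      ∀ (L : Type) [Field L] [NumberField L], Module.finrank ℚ L ≤ d →
        ∀ (ψ : Spec (CommRingCat.of L) ⟶ X) (z : model M),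
        (ψ ≫ e.inv ≫ pullback.fst _ _) (thePt L) ⤳ z →
        IsRegularLocalRing ((model M).presheaf.stalk z) := by
  classical
  have hOK : Function.Injective (algebraMap O K) := IsFractionRing.injective O K
  have hOF : Function.Injective (algebraMap O F) := by
    rw [IsScalarTower.algebraMap_eq O K F]
    exact (algebraMap K F).injective.comp hOK
  have hreg' : ∀ (i : ι) (P : Ideal (Algebra.adjoin K (Set.range fun j => y j / y i)).toSubring)
      [P.IsPrime], IsRegularLocalRing (Localization.AtPrime P) := by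
    intro i P hP
    obtain ⟨J, hJ, hJη, hcov⟩ := hX.charts
    have := hJ i
    exact regular_of_stalk hreg (J i) P
  obtain ⟨D, M, hM, hall⟩ := degree_module (K := K) hint y hy hreg' d
  obtain ⟨g, hg, hg0⟩ := hM.ne
  obtain ⟨e, he, heη⟩ := mainAt y hy hM.pos hM.fg hM.le hM.comm hsep hη hX g hg hg0
  have hpM : IsProper (modelMap M) := modelMap_isProper M hOF hM.fg
  refine ⟨M, g, hg, hg0, e, hM.fg, he, ?_⟩
  intro L _ _ hL ψ z hz
  obtain ⟨i₀, j, hj, α, hjη, hαψ⟩ := factor_chart hX ψ
  have hkp : (RingHom.ker α).IsPrime := RingHom.ker_isPrime _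
  obtain ⟨A, π, hA, hπα, hPt⟩ := pt_of (O := O) (K := K) y hy i₀ α (hreg' i₀ (RingHom.ker α))
  choose Vf hVf using fun VL => exists_tr A π VL hPt.unit
  let sX : Spec (CommRingCat.of A) ⟶ X := Spec.map (CommRingCat.ofHom (Subring.inclusion hA)) ≫ j
  have hsη : io A ≫ sX = η := by
    change io A ≫ Spec.map _ ≫ j = η
    rw [← Category.assoc, ← hjη]
    congr 1
    change Spec.map _ ≫ Spec.map _ = Spec.map _
    rw [← Spec.map_comp]
    rfl
  have hψ : ψ = Spec.map (CommRingCat.ofHom π) ≫ sX := by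
    rw [← hαψ]
    change _ = Spec.map _ ≫ Spec.map _ ≫ j
    rw [← Category.assoc, ← Spec.map_comp]
    congr 2
    ext b
    exact (hπα b).symm
  have hR : ∀ VL : ValuationSubring L, IsDiscreteValuationRing VL → Rg (Vf VL) M :=
    fun VL hVL => hall _ ⟨L, inferInstance, inferInstance, A, π, y i₀, VL, hL, hPt, hVL, hVf VL⟩
  let χ : Spec (CommRingCat.of L) ⟶ model M :=
    Spec.map (CommRingCat.ofHom π) ≫ sX ≫ e.inv ≫ pullback.fst _ _
  have hχψ : χ = ψ ≫ e.inv ≫ pullback.fst _ _ := by
    rw [hψ]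
    simp [χ]
  refine regular_closure_cm hOF hM hint hPt hVf hR χ ?_ z (by rw [hχψ]; exact hz)
  intro g₁ hg₁ hg₁0 hBA jY hjYη
  have hss : sX ≫ e.inv ≫ pullback.fst _ _ =
      Spec.map (CommRingCat.ofHom (Subring.inclusion hBA)) ≫ jY := by
    have hd : IsDominant (io A) := ⟨io_dense A⟩
    have h1 : io A ≫ sX ≫ e.inv ≫ pullback.fst _ _ =
        io A ≫ Spec.map (CommRingCat.ofHom (Subring.inclusion hBA)) ≫ jY := by
      have h2 : io A ≫ Spec.map (CommRingCat.ofHom (Subring.inclusion hBA)) ≫ jY =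
          Pool.Agent.W398.GF.eta M g₁ hg₁ hg₁0 := by
        rw [← Category.assoc, ← hjYη]
        congr 1
        change Spec.map _ ≫ Spec.map _ = Spec.map _
        rw [← Spec.map_comp]
        rfl
      rw [h2, ← Category.assoc, hsη, heη]
      exact Pool.Agent.W398.GF.eta_eq M hg hg₁ hg0 hg₁0
    refine ext_of_isDominant_of_isSeparated (modelMap M) ?_ (io A) h1
    apply io_mono
    have h2 := congrArg (fun m => m ≫ modelMap M) h1
    simp only [Category.assoc] at h2 ⊢
    exact h2
  change Spec.map _ ≫ sX ≫ e.inv ≫ pullback.fst _ _ = _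
  rw [hss, ← Category.assoc, ← Spec.map_comp]
  rfl

end

/-- Models of a regular integral projective scheme, regular along the closures of all the points
of bounded degree. -/
theorem proj_degree {O K : Type} [CommRing O] [IsDedekindDomain O] [Field K] [NumberField K]
    [Algebra O K] [IsFractionRing O K] [Module.Finite ℤ O] (hint : ∀ o : O, IsIntegral ℤ o)
    {X : Scheme.{0}} [IsIntegral X] (f : X ⟶ Spec (CommRingCat.of K))
    (hreg : ∀ x : X, IsRegularLocalRing (X.presheaf.stalk x))
    {A : Type} [CommRing A] [Algebra K A] (𝒜 : ℕ → Submodule K A) [GradedAlgebra 𝒜]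
    (h0 : ∀ a ∈ 𝒜 0, ∃ q : K, algebraMap K A q = a) (s : Finset A) (hs : ∀ a ∈ s, a ∈ 𝒜 1)
    (hgen : Algebra.adjoin K (s : Set A) = ⊤) (i : X ≅ Proj 𝒜)
    (hif : i.hom ≫ Proj.toSpecZero 𝒜 ≫ Spec.map (CommRingCat.ofHom (algebraMap K (𝒜 0))) = f)
    (d : ℕ) :
    ∃ (F : Type) (_ : Field F) (_ : Algebra K F) (_ : Algebra O F) (_ : IsScalarTower O K F)
      (M : Submodule O F) (g : F) (hg : g ∈ M) (hg0 : g ≠ 0)
      (e : pullback (modelMap M) (Spec.map (CommRingCat.ofHom (algebraMap O K))) ≅ X), M.FG ∧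
      e.hom ≫ f = pullback.snd _ _ ∧
      ∀ (L : Type) [Field L] [NumberField L], Module.finrank ℚ L ≤ d →
        ∀ (ψ : Spec (CommRingCat.of L) ⟶ X) (z : model M),
        (ψ ≫ e.inv ≫ pullback.fst _ _) (thePt L) ⤳ z →
        IsRegularLocalRing ((model M).presheaf.stalk z) := by
  classical
  have hPne : Nonempty (Proj 𝒜) := ⟨i.hom (genericPoint X)⟩
  have hP : IsIntegral (Proj 𝒜) := isIntegral_of_isOpenImmersion i.inv
  have hregP : ∀ x : (Proj 𝒜 : Scheme.{0}), IsRegularLocalRing ((Proj 𝒜).presheaf.stalk x) := by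
    intro x
    have h1 := hreg (i.inv x)
    have e := (asIso (i.inv.stalkMap x)).commRingCatIsoToRingEquiv
    exact IsRegularLocalRing.of_ringEquiv e
  obtain ⟨F, hF, η, hη⟩ := exists_generic (Proj 𝒜)
  let fP : Proj 𝒜 ⟶ Spec (CommRingCat.of K) :=
    Proj.toSpecZero 𝒜 ≫ Spec.map (CommRingCat.ofHom (algebraMap K (𝒜 0)))
  obtain ⟨φ, hφ⟩ := Spec.map_surjective (η ≫ fP)
  let _ : Algebra K F := φ.hom.toAlgebra
  have hηK : η ≫ fP = Spec.map (CommRingCat.ofHom (algebraMap K F)) := hφ.symm
  let _ : Algebra O F := ((algebraMap K F).comp (algebraMap O K)).toAlgebra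
  have hst : IsScalarTower O K F := IsScalarTower.of_algebraMap_eq' rfl
  obtain ⟨ι, hι, hne, y, hy, hat⟩ := proj_atlas 𝒜 η h0 s hs hgen hη hηK
  have hsep : IsSeparated fP := inferInstance
  obtain ⟨M, g, hg, hg0, e, hM, he, hall⟩ := degree_model (O := O) hint y hy hsep hregP hηK hat d
  refine ⟨F, hF, inferInstance, inferInstance, hst, M, g, hg, hg0, e ≪≫ i.symm, hM, ?_, ?_⟩
  · rw [← hif]
    change (e.hom ≫ i.inv) ≫ i.hom ≫ fP = _
    rw [← he]
    simp
  · intro L _ _ hL ψ z hz
    refine hall L hL (ψ ≫ i.hom) z ?_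
    have h1 : (ψ ≫ i.hom) ≫ e.inv ≫ pullback.fst (modelMap M)
        (Spec.map (CommRingCat.ofHom (algebraMap O K))) =
        ψ ≫ (e ≪≫ i.symm).inv ≫ pullback.fst _ _ := by simp
    rw [h1]
    exact hz

end Pool.Agent.TH188.ARC
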